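import Mathlib

/-!
# Quartic residue exponents for Gaussian primes

`qe a l` is the exponent `e : ZMod 4` with `a ^ ((N l - 1) / 4) ≡ i ^ e (mod l)`.
-/

set_option autoImplicit false

noncomputable section

namespace Pool.Agent.helper84.Quartic

/-- The ring of Gaussian integers. -/
abbrev R : Type := GaussianInt

/-- The Gaussian integer `i`. -/
def ii : R := ⟨0, 1⟩

@[simp] lemma ii_re : ii.re = 0 := rfl
@[simp] lemma ii_im : ii.im = 1 := rfl

lemma ii_mul_ii : ii * ii = -1 := by decide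

lemma ii_sq : ii ^ 2 = -1 := by decide

lemma ii_pow_four : ii ^ 4 = 1 := by decide

/-- The norm as a natural number. -/
def N (a : R) : ℕ := a.norm.natAbs

lemma N_mul (a b : R) : N (a * b) = N a * N b := by
  simp [N, Zsqrtd.norm_mul, Int.natAbs_mul]

lemma N_cast (a : R) : ((N a : ℕ) : ℤ) = a.re * a.re + a.im * a.im := by
  unfold N
  rw [GaussianInt.abs_natCast_norm, Zsqrtd.norm]
  ring

lemma N_star (a : R) : N (star a) = N a := by
  have h : ((N (star a) : ℕ) : ℤ) = N a := by
    rw [N_cast, N_cast]; simp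
  exact_mod_cast h

lemma N_pos {a : R} (ha : a ≠ 0) : 0 < N a :=
  Int.natAbs_pos.2 (by simpa using ha)

lemma N_dvd {a b : R} (h : a ∣ b) : N a ∣ N b := by
  obtain ⟨c, rfl⟩ := h
  rw [N_mul]; exact Dvd.intro _ rfl

lemma dvd_N (a : R) : a ∣ ((N a : ℕ) : R) := by
  have h : ((N a : ℕ) : R) = a * star a := by
    rw [← Zsqrtd.norm_eq_mul_conj]
    have : ((N a : ℕ) : R) = (((N a : ℕ) : ℤ) : R) := by simp
    rw [this, N, GaussianInt.abs_natCast_norm]
  rw [h]; exact Dvd.intro _ rfl

lemma N_eq_mul_star (a : R) : ((N a : ℕ) : R) = a * star a := by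
  rw [← Zsqrtd.norm_eq_mul_conj]
  have : ((N a : ℕ) : R) = (((N a : ℕ) : ℤ) : R) := by simp
  rw [this, N, GaussianInt.abs_natCast_norm]

lemma N_eq_one_iff {a : R} : N a = 1 ↔ IsUnit a := Zsqrtd.norm_eq_one_iff

/-- linear equivalence of `R` with `ℤ²` -/
def linEquiv : R ≃ₗ[ℤ] (Fin 2 → ℤ) where
  toFun z := ![z.re, z.im]
  invFun v := ⟨v 0, v 1⟩
  map_add' a b := by ext i; fin_cases i <;> simp
  map_smul' c a := by ext i; fin_cases i <;> simp
  left_inv a := by simp
  right_inv v := by ext i; fin_cases i <;> simp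

/-- A `ℤ`-basis of `R`. -/
def bas : Module.Basis (Fin 2) ℤ R := Module.Basis.ofEquivFun linEquiv

instance instFreeR : Module.Free ℤ R := Module.Free.of_basis bas
instance instFiniteR : Module.Finite ℤ R := Module.Finite.of_basis bas

lemma algNorm (a : R) : Algebra.norm ℤ a = a.norm := by
  rw [Algebra.norm_eq_matrix_det bas, Matrix.det_fin_two]
  simp [Algebra.leftMulMatrix_eq_repr_mul, bas, linEquiv, Zsqrtd.norm]

lemma card_quot (a : R) : Nat.card (R ⧸ Ideal.span {a}) = N a := by
  have := Ideal.absNorm_span_singleton (S := R) a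
  rw [algNorm] at this
  rw [N, ← this, Ideal.absNorm_apply]
  rfl

/-- A Gaussian integer is odd when it is not divisible by `1 + i`, that is, when
`re + im` is odd. -/
def OddG (a : R) : Prop := (a.re + a.im) % 2 = 1

lemma OddG.mul {a b : R} (ha : OddG a) (hb : OddG b) : OddG (a * b) := by
  unfold OddG at *
  simp only [Zsqrtd.re_mul, Zsqrtd.im_mul]
  have h : (a.re * b.re + -1 * a.im * b.im + (a.re * b.im + a.im * b.re)) =
    (a.re + a.im) * (b.re + b.im) - 2 * (a.im * b.im) := by ring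
  rw [h, Int.sub_mul_emod_self_left, Int.mul_emod, ha, hb]
  norm_num

lemma OddG.of_mul_left {a b : R} (h : OddG (a * b)) : OddG a := by
  unfold OddG at *
  simp only [Zsqrtd.re_mul, Zsqrtd.im_mul] at h
  have h' : (a.re * b.re + -1 * a.im * b.im + (a.re * b.im + a.im * b.re)) =
    (a.re + a.im) * (b.re + b.im) - 2 * (a.im * b.im) := by ring
  rw [h', Int.sub_mul_emod_self_left] at h
  rcases Int.emod_two_eq_zero_or_one (a.re + a.im) with h0 | h0
  · rw [Int.mul_emod, h0] at h; norm_num at h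
  · exact h0

lemma OddG.of_mul_right {a b : R} (h : OddG (a * b)) : OddG b := by
  rw [mul_comm] at h; exact h.of_mul_left

lemma OddG.of_dvd {a b : R} (hb : OddG b) (h : a ∣ b) : OddG a := by
  obtain ⟨c, rfl⟩ := h; exact hb.of_mul_left

lemma OddG.star {a : R} (ha : OddG a) : OddG (star a) := by
  unfold OddG at *
  simp only [Zsqrtd.re_star, Zsqrtd.im_star]
  omega

lemma oddG_ii : OddG ii := by unfold OddG; decide

lemma N_mod_four {a : R} (ha : OddG a) : N a % 4 = 1 := by
  have h := N_cast a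
  unfold OddG at ha
  have h2 : ((N a : ℕ) : ℤ) % 4 = 1 := by
    rw [h]
    rcases Int.even_or_odd' a.re with ⟨x, hx | hx⟩ <;> rcases Int.even_or_odd' a.im with ⟨y, hy | hy⟩
    · omega
    · rw [hx, hy]; ring_nf; omega
    · rw [hx, hy]; ring_nf; omega
    · omega
  omega

lemma N_mul_four {a : R} (ha : OddG a) : 4 * ((N a - 1) / 4) + 1 = N a := by
  have := N_mod_four ha; omega

/-- powers of `i` -/
lemma ii_pow_mod (n : ℕ) : ii ^ n = ii ^ (n % 4) := by
  conv_lhs => rw [← Nat.div_add_mod n 4, pow_add, pow_mul, ii_pow_four, one_pow, one_mul]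

/-- `i ^ e` for `e : ZMod 4`. -/
def ip (e : ZMod 4) : R := ii ^ e.val

lemma ip_add (e f : ZMod 4) : ip (e + f) = ip e * ip f := by
  revert e f; decide

@[simp] lemma ip_zero : ip 0 = 1 := by decide

lemma ip_natCast (n : ℕ) : ip (n : ZMod 4) = ii ^ n := by
  unfold ip
  rw [ZMod.val_natCast, ← ii_pow_mod]

lemma ip_mul_ip_neg (e : ZMod 4) : ip e * ip (-e) = 1 := by
  rw [← ip_add]; simp

lemma ip_nsmul (n : ℕ) (e : ZMod 4) : ip (n • e) = ip e ^ n := by
  induction n with
  | zero => simp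
  | succ n ih => rw [succ_nsmul, ip_add, ih, pow_succ]

lemma star_ip (e : ZMod 4) : star (ip e) = ip (-e) := by
  revert e; decide

lemma isUnit_ip (e : ZMod 4) : IsUnit (ip e) :=
  IsUnit.of_mul_eq_one _ (ip_mul_ip_neg e)

lemma ip_injective : Function.Injective ip := by
  intro e f; revert e f; decide

lemma N_ip_sub_ip (e f : ZMod 4) : e = f ∨ N (ip e - ip f) = 2 ∨ N (ip e - ip f) = 4 := by
  revert e f; decide

/-- An odd non-unit divides a difference of powers of `i` only when they are equal. -/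
lemma ip_inj_mod {l : R} (hl : OddG l) (hu : ¬ IsUnit l) {e f : ZMod 4}
    (h : l ∣ ip e - ip f) : e = f := by
  rcases N_ip_sub_ip e f with h1 | h1
  · exact h1
  · exfalso
    have h2 : N l ∣ 4 := by
      have := N_dvd h
      rcases h1 with h1 | h1 <;> rw [h1] at this
      · exact this.trans (by norm_num)
      · exact this
    have h3 : N l ≠ 1 := fun h => hu (N_eq_one_iff.1 h)
    have h4 := N_mod_four hl
    have h5 : N l ≤ 4 := Nat.le_of_dvd (by norm_num) h2
    interval_cases h : N l <;> omega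

section prime

variable {l : R}

instance instFieldQuot [hl : Fact (Prime l)] : Field (R ⧸ Ideal.span {l}) := by
  haveI : (Ideal.span {l}).IsMaximal :=
    PrincipalIdealRing.isMaximal_of_irreducible hl.1.irreducible
  exact Ideal.Quotient.field _

lemma card_pos_quot (hl : Prime l) : Nat.card (R ⧸ Ideal.span {l}) ≠ 0 := by
  rw [card_quot]; exact (N_pos hl.ne_zero).ne'

instance instFiniteQuot [hl : Fact (Prime l)] : Finite (R ⧸ Ideal.span {l}) :=
  Nat.finite_of_card_ne_zero (card_pos_quot hl.1)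

instance instFintypeQuot [hl : Fact (Prime l)] : Fintype (R ⧸ Ideal.span {l}) :=
  Fintype.ofFinite _

lemma fintype_card_quot [hl : Fact (Prime l)] : Fintype.card (R ⧸ Ideal.span {l}) = N l := by
  rw [← card_quot, Nat.card_eq_fintype_card]

/-- reduction modulo `l` -/
abbrev red (l : R) : R →+* R ⧸ Ideal.span {l} := Ideal.Quotient.mk _

lemma red_eq_zero {a : R} : red l a = 0 ↔ l ∣ a := by
  rw [red, Ideal.Quotient.eq_zero_iff_mem, Ideal.mem_span_singleton]

lemma red_eq {a b : R} : red l a = red l b ↔ l ∣ a - b := by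
  rw [← sub_eq_zero, ← map_sub, red_eq_zero]

lemma exists_exp (hl : Prime l) (hodd : OddG l) {a : R} (ha : ¬ l ∣ a) :
    ∃ e : ZMod 4, l ∣ a ^ ((N l - 1) / 4) - ip e := by
  have : Fact (Prime l) := ⟨hl⟩
  set w : R := a ^ ((N l - 1) / 4) with hw
  have h1 : red l w ^ 4 = 1 := by
    have h2 : red l a ≠ 0 := fun h => ha (red_eq_zero.1 h)
    have h3 := FiniteField.pow_card_sub_one_eq_one (red l a) h2
    rw [fintype_card_quot] at h3
    rw [hw, map_pow, ← pow_mul]
    have : (N l - 1) / 4 * 4 = N l - 1 := by have := N_mod_four hodd; omega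
    rw [this]; exact h3
  have h4 : red l (w - ip 0) * red l (w - ip 1) * red l (w - ip 2) * red l (w - ip 3) = 0 := by
    rw [← map_mul, ← map_mul, ← map_mul]
    have : (w - ip 0) * (w - ip 1) * (w - ip 2) * (w - ip 3) = w ^ 4 - 1 := by
      have e1 : ip 1 = ii := by decide
      have e2 : ip 2 = -1 := by decide
      have e3 : ip 3 = -ii := by decide
      rw [ip_zero, e1, e2, e3]
      have h := ii_sq
      linear_combination (w ^ 2 * (-1) + 1) * h
    rw [this, map_sub, map_pow, h1]; simp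
  rcases mul_eq_zero.1 h4 with h | h
  · rcases mul_eq_zero.1 h with h | h
    · rcases mul_eq_zero.1 h with h | h
      · exact ⟨0, red_eq_zero.1 h⟩
      · exact ⟨1, red_eq_zero.1 h⟩
    · exact ⟨2, red_eq_zero.1 h⟩
  · exact ⟨3, red_eq_zero.1 h⟩

open Classical in
/-- Choice of an exponent with a given property (`0` if there is none). -/
def qeAux (P : ZMod 4 → Prop) : ZMod 4 := if h : ∃ e : ZMod 4, P e then h.choose else 0

/-- The quartic residue exponent: for an odd prime `l` not dividing `a`,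
`a ^ ((N l - 1) / 4) ≡ i ^ (qe a l) (mod l)`. -/
def qe (a l : R) : ZMod 4 := qeAux (fun e => l ∣ a ^ ((N l - 1) / 4) - ip e)

lemma qe_spec (hl : Prime l) (hodd : OddG l) {a : R} (ha : ¬ l ∣ a) :
    l ∣ a ^ ((N l - 1) / 4) - ip (qe a l) := by
  have h := exists_exp hl hodd ha
  unfold qe qeAux
  rw [dif_pos h]
  exact h.choose_spec

lemma qe_eq (hl : Prime l) (hodd : OddG l) {a : R} {e : ZMod 4}
    (h : l ∣ a ^ ((N l - 1) / 4) - ip e) : qe a l = e := by
  have hex : ∃ e : ZMod 4, l ∣ a ^ ((N l - 1) / 4) - ip e := ⟨e, h⟩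
  have hs : l ∣ a ^ ((N l - 1) / 4) - ip (qe a l) := by
    unfold qe qeAux
    rw [dif_pos hex]
    exact hex.choose_spec
  apply ip_inj_mod hodd hl.not_isUnit
  have : ip (qe a l) - ip e = (a ^ ((N l - 1) / 4) - ip e) - (a ^ ((N l - 1) / 4) - ip (qe a l)) := by
    ring
  rw [this]
  exact dvd_sub h hs

lemma exp_pos (hl : Prime l) (hodd : OddG l) : 0 < (N l - 1) / 4 := by
  have h3 : N l ≠ 1 := fun h => hl.not_isUnit (N_eq_one_iff.1 h)
  have h4 := N_mod_four hodd
  have h5 := N_pos hl.ne_zero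
  omega

lemma not_dvd_ip (hl : Prime l) (e : ZMod 4) : ¬ l ∣ ip e := fun h =>
  hl.not_isUnit (isUnit_of_dvd_unit h (isUnit_ip e))

lemma qe_of_dvd (hl : Prime l) (hodd : OddG l) {a : R} (h : l ∣ a) : qe a l = 0 := by
  unfold qe qeAux
  rw [dif_neg]
  rintro ⟨e, he⟩
  have h1 : l ∣ a ^ ((N l - 1) / 4) := dvd_pow h (exp_pos hl hodd).ne'
  exact not_dvd_ip hl e ((dvd_sub_right h1).1 he)

lemma qe_congr (hl : Prime l) (hodd : OddG l) {a b : R} (h : l ∣ a - b) : qe a l = qe b l := by
  by_cases ha : l ∣ a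
  · have hb : l ∣ b := (dvd_sub_right ha).1 h
    rw [qe_of_dvd hl hodd ha, qe_of_dvd hl hodd hb]
  · have hs := qe_spec hl hodd ha
    refine (qe_eq hl hodd ?_).symm
    have h1 : l ∣ a ^ ((N l - 1) / 4) - b ^ ((N l - 1) / 4) := h.trans (sub_dvd_pow_sub_pow _ _ _)
    have h2 := dvd_sub hs h1
    have h3 : a ^ ((N l - 1) / 4) - ip (qe a l) - (a ^ ((N l - 1) / 4) - b ^ ((N l - 1) / 4)) =
      b ^ ((N l - 1) / 4) - ip (qe a l) := by ring
    rwa [h3] at h2

lemma qe_mul (hl : Prime l) (hodd : OddG l) {a b : R} (ha : ¬ l ∣ a) (hb : ¬ l ∣ b) :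
    qe (a * b) l = qe a l + qe b l := by
  apply qe_eq hl hodd
  rw [ip_add, mul_pow]
  have h1 := qe_spec hl hodd ha
  have h2 := qe_spec hl hodd hb
  have h3 : a ^ ((N l - 1) / 4) * b ^ ((N l - 1) / 4) - ip (qe a l) * ip (qe b l) =
    (a ^ ((N l - 1) / 4) - ip (qe a l)) * b ^ ((N l - 1) / 4) +
    ip (qe a l) * (b ^ ((N l - 1) / 4) - ip (qe b l)) := by ring
  rw [h3]
  exact dvd_add (h1.mul_right _) (h2.mul_left _)

lemma qe_one (hl : Prime l) (hodd : OddG l) : qe 1 l = 0 := by
  apply qe_eq hl hodd; simp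

lemma qe_pow (hl : Prime l) (hodd : OddG l) {a : R} (ha : ¬ l ∣ a) (n : ℕ) :
    qe (a ^ n) l = n • qe a l := by
  induction n with
  | zero => simp [qe_one hl hodd]
  | succ n ih =>
    rw [pow_succ, qe_mul hl hodd (fun h => ha (hl.dvd_of_dvd_pow h)) ha, ih, succ_nsmul]

lemma qe_ii (hl : Prime l) (hodd : OddG l) : qe ii l = (((N l - 1) / 4 : ℕ) : ZMod 4) := by
  apply qe_eq hl hodd
  rw [ip_natCast]; simp

lemma star_dvd_star {a b : R} : star a ∣ star b ↔ a ∣ b := by
  constructor
  · rintro ⟨c, hc⟩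
    exact ⟨star c, by rw [← star_star b, hc, star_mul', star_star]⟩
  · rintro ⟨c, rfl⟩
    exact ⟨star c, by rw [star_mul']⟩

lemma prime_star (hl : Prime l) : Prime (star l) := by
  refine ⟨?_, ?_, ?_⟩
  · intro h; exact hl.ne_zero (by rw [← star_star l, h, star_zero])
  · intro h
    exact hl.not_isUnit (N_eq_one_iff.1 (by rw [← N_star]; exact N_eq_one_iff.2 h))
  · intro a b h
    have h1 : l ∣ star a * star b := by
      rw [← star_mul', ← star_dvd_star, star_star]; exact h
    rcases hl.dvd_or_dvd h1 with h2 | h2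
    · left; rw [← star_dvd_star, star_star] at h2; exact h2
    · right; rw [← star_dvd_star, star_star] at h2; exact h2

lemma qe_star (hl : Prime l) (hodd : OddG l) (a : R) : qe (star a) (star l) = - qe a l := by
  by_cases ha : l ∣ a
  · rw [qe_of_dvd hl hodd ha, qe_of_dvd (prime_star hl) hodd.star (star_dvd_star.2 ha)]; simp
  · apply qe_eq (prime_star hl) hodd.star
    have h := qe_spec hl hodd ha
    rw [← star_dvd_star] at h
    rw [N_star, ← star_ip]
    rw [star_sub, star_pow] at h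
    exact h

lemma qe_assoc (hl : Prime l) (hodd : OddG l) {l' : R} (h : Associated l l') (a : R) :
    qe a l' = qe a l := by
  have hl' : Prime l' := h.prime hl
  have hodd' : OddG l' := hodd.of_dvd h.symm.dvd
  have hN : N l' = N l := Nat.dvd_antisymm (N_dvd h.symm.dvd) (N_dvd h.dvd)
  by_cases ha : l ∣ a
  · rw [qe_of_dvd hl hodd ha, qe_of_dvd hl' hodd' (h.symm.dvd.trans ha)]
  · apply qe_eq hl' hodd'
    rw [hN]
    exact h.symm.dvd.trans (qe_spec hl hodd ha)

/-- A natural number coprime to an inert prime is a quartic residue. -/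
lemma qe_inert {q : ℕ} (hq : Nat.Prime q) (hq4 : q % 4 = 3) (hl : Prime (q : R)) {a : ℤ} :
    qe (a : R) (q : R) = 0 := by
  have hodd : OddG (q : R) := by
    unfold OddG; simp; omega
  by_cases ha : (q : R) ∣ (a : R)
  · exact qe_of_dvd hl hodd ha
  · apply qe_eq hl hodd
    have hN : N (q : R) = q * q := by
      have := N_cast (q : R)
      simp at this
      exact_mod_cast this
    have ha' : ¬ (q : ℤ) ∣ a := by
      intro h; apply ha
      have h2 := map_dvd (Int.castRingHom R) h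
      simpa using h2
    have h1 : (q : ℤ) ∣ a ^ (q - 1) - 1 := by
      have : Fact q.Prime := ⟨hq⟩
      rw [← (ZMod.intCast_zmod_eq_zero_iff_dvd _ q)]
      push_cast
      rw [ZMod.pow_card_sub_one_eq_one, sub_self]
      intro h; exact ha' ((ZMod.intCast_zmod_eq_zero_iff_dvd _ q).1 h)
    have h2 : (q : ℤ) ∣ a ^ ((N (q : R) - 1) / 4) - 1 := by
      have h3 : (N (q : R) - 1) / 4 = (q - 1) * ((q + 1) / 4) := by
        rw [hN]
        obtain ⟨k, hk⟩ : ∃ k, q = 4 * k + 3 := ⟨q / 4, by omega⟩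
        rw [hk]
        have e1 : 4 * k + 3 - 1 = 4 * k + 2 := by omega
        have e2 : (4 * k + 3 + 1) / 4 = k + 1 := by omega
        rw [e1, e2]
        have e3 : (4 * k + 3) * (4 * k + 3) - 1 = 4 * ((4 * k + 2) * (k + 1)) := by
          have : (4 * k + 3) * (4 * k + 3) = 4 * ((4 * k + 2) * (k + 1)) + 1 := by ring
          omega
        rw [e3]; omega
      rw [h3, pow_mul]
      have h4 := sub_dvd_pow_sub_pow (a ^ (q - 1)) 1 ((q + 1) / 4)
      rw [one_pow] at h4
      exact h1.trans h4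
    have h5 := map_dvd (Int.castRingHom R) h2
    simpa using h5

end prime

end Pool.Agent.helper84.Quartic
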