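import Pool.Agent.helper84.Quartic9

/-!
# The case `x` even, `b ≡ 1 (mod 4)`
-/

set_option autoImplicit false

noncomputable section

namespace Pool.Agent.helper84.Quartic

section field

variable {p : ℕ} [hpf : Fact p.Prime] {b c d x y : ℤ}

lemma cast4 {a : ℤ} (n : ℤ) (h : (n - a) % 4 = 0) : (a : ZMod 4) = (n : ZMod 4) := by
  rw [ZMod.intCast_eq_intCast_iff_dvd_sub]; omega

set_option maxRecDepth 20000 in
lemma finite_check : ∀ (x1 e1 t S B1 Y : ZMod 4),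
    2 * x1 + 1 = (2 * e1 + 1) * (1 + 2 * S) →
    Y = -(1 + 2 * t ^ 2 + t * (2 * e1 + 1)) →
    (Y = 2 * S ∨ Y = -(1 + 2 * S)) →
    ((2 * x1 * e1 + x1 + e1) ^ 2 + (2 * x1 * e1 + x1 + e1) + Y ^ 2) +
    (2 * (x1 * Y + (2 * x1 * e1 + x1 + e1) * (-t) + (-t) * Y)) - (x1 ^ 2 + x1 + (-t) ^ 2) +
    ((e1 + 2 * t - 2 * B1) ^ 2 + (e1 + 2 * t - 2 * B1)) -
    (2 * (e1 + 2 * t - 2 * B1) + 1 - 1) *
      ((2 * x1 * e1 + x1 + e1) ^ 2 + (2 * x1 * e1 + x1 + e1) + Y ^ 2) =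
    (1 + 2 * S) * (1 + 2 * B1) := by
  intro x1 e1 t S B1 Y h1 h2 h3
  subst h2
  revert x1 e1 t S B1
  decide

/-- The case `x` even, `b ≡ 1 (mod 4)`. -/
theorem powB (hp4 : p % 4 = 1) (h1 : (p : ℤ) = c ^ 2 + d ^ 2)
    (h2 : (p : ℤ) = x ^ 2 + (b ^ 2 + 4) * y ^ 2) (hb : b % 4 = 1) (hc : c % 4 = 1)
    (hy : y % 4 = 1) (hd : (d : ZMod p) ≠ 0)
    (hcase : (d % 4 = 0 ∧ x % 8 = 2) ∨ (d % 8 = 2 ∧ x % 4 = 0)) :
    (((b : ZMod p) + (c : ZMod p) * x / ((d : ZMod p) * y)) / 2) ^ ((p - 1) / 4) =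
      (-1) ^ ((if d % 4 = 0 then d else x) / 4) * (if b % 8 = 1 then 1 else -1) *
        ((c : ZMod p) / d) := by
  obtain ⟨h, r, e, f, hdx, hce, hyf, key, hho, hro, hbez⟩ :=
    descentB hpf.1 h1 h2 (by omega) (by omega)
  have hy0 : y ≠ 0 := by omega
  have hysq : y ^ 2 ≤ p := by rw [h2]; nlinarith [sq_nonneg x, sq_nonneg y, sq_nonneg (b * y)]
  have hyp : (y : ZMod p) ≠ 0 := cast_ne_zero hy0 hysq
  have hpf' : ¬ (p : ℤ) ∣ f := by
    intro h3
    apply hyp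
    rw [ZMod.intCast_zmod_eq_zero_iff_dvd, hyf]
    exact h3.mul_left h
  have hfo : f % 2 = 1 := by
    rcases Int.emod_two_eq_zero_or_one f with h4 | h4
    · exfalso
      have : (h * f) % 2 = 0 := by rw [Int.mul_emod, h4]; simp
      omega
    · exact h4
  have heo : e % 2 = 1 := by
    rcases Int.emod_two_eq_zero_or_one e with h4 | h4
    · exfalso
      have : (h * e) % 2 = 0 := by rw [Int.mul_emod, h4]; simp
      omega
    · exact h4
  obtain ⟨e1, he1⟩ : ∃ e1, e = 2 * e1 + 1 := ⟨e / 2, by omega⟩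
  obtain ⟨u, hu⟩ : ∃ u, f = 2 * u + 1 := ⟨f / 2, by omega⟩
  obtain ⟨B1, hB1⟩ : ∃ B1, b = 4 * B1 + 1 := ⟨b / 4, by omega⟩
  obtain ⟨h', hh'⟩ : ∃ h', h = 2 * h' + 1 := ⟨h / 2, by omega⟩
  -- e ≡ f mod 4
  have hef : (f - e) % 4 = 0 := by
    have h3 : (h * (f - e)) % 4 = 0 := by
      have : h * (f - e) = y - c := by rw [hyf, hce]; ring
      omega
    rw [hh'] at h3
    have h4 : f - e = 2 * (u - e1) := by rw [hu, he1]; ring
    rw [h4] at h3 ⊢
    have : (2 * h' + 1) * (2 * (u - e1)) = 4 * (h' * (u - e1)) + 2 * (u - e1) := by ring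
    omega
  obtain ⟨t, ht⟩ : ∃ t, b * f - e = 4 * t := by
    refine ⟨(b * f - e) / 4, ?_⟩
    have : b * f - e = 4 * (B1 * f) + (f - e) := by rw [hB1]; ring
    omega
  obtain ⟨x', hx'⟩ : ∃ x', h * r = 2 * x' + 1 := by
    refine ⟨h * r / 2, ?_⟩
    have : (h * r) % 2 = 1 := by rw [Int.mul_emod, hro, hho]; rfl
    omega
  have hX : r * c = 2 * (2 * x' * e1 + x' + e1) + 1 := by
    have : r * c = (h * r) * e := by rw [hce]; ring
    rw [this, hx', he1]; ring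
  obtain ⟨α, hα⟩ := sq_odd (a := h * r) (by omega)
  obtain ⟨γ, hγ⟩ := sq_odd hfo
  have hrd : r * d = 8 * α + 8 * γ + 2 + 4 * t ^ 2 + 2 * (t * e) := by
    have h3 : b * f = 4 * t + e := by linarith
    have h4 : (b ^ 2 + 4) * f ^ 2 = (b * f) ^ 2 + 4 * f ^ 2 := by ring
    rw [h4, h3, hα, hγ] at key
    nlinarith
  have hY : -(r * d) = 2 * (-(4 * α + 4 * γ + 1 + 2 * t ^ 2 + t * e)) := by rw [hrd]; ring
  set Y := -(4 * α + 4 * γ + 1 + 2 * t ^ 2 + t * e) with hYdef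
  obtain ⟨cβ, cγ, hsym⟩ := symB hpf.1 h1 hfo hce key hro hbez hX hY hx' ht hpf'
  have h2p : (2 : ZMod p) ≠ 0 := by
    intro h0
    have h3 : ((2 : ℕ) : ZMod p) = 0 := by exact_mod_cast h0
    rw [ZMod.natCast_eq_zero_iff] at h3
    have := Nat.le_of_dvd (by norm_num) h3
    have := hpf.1.two_le
    omega
  have hhp : (h : ZMod p) ≠ 0 := by
    intro h0
    apply hyp
    rw [hyf]; push_cast; rw [h0]; ring
  have hrel : phi c d h1 hd (ii * g x' (-t)) = phi c d h1 hd (f : R) *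
      (((b : ZMod p) + (c : ZMod p) * x / ((d : ZMod p) * y)) / 2) := by
    rw [← eq_g hx' (show -(2 * t) = 2 * (-t) by ring), phi_apply, phi_apply]
    have hfy : (f : ZMod p) = (y : ZMod p) / h := by
      rw [hyf]; push_cast; field_simp
    have hec : (e : ZMod p) = (c : ZMod p) / h := by
      rw [hce]; push_cast; field_simp
    have hhr : (h : ZMod p) * r = ((d : ZMod p) + x) / (2 * h) := by
      have : (d : ZMod p) + x = 2 * (h ^ 2 * r) := by exact_mod_cast congrArg (Int.cast : ℤ → ZMod p) hdx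
      rw [this]; field_simp
    have h2t : (2 : ZMod p) * t = ((b : ZMod p) * f - e) / 2 := by
      have : (b : ZMod p) * f - e = 4 * t := by exact_mod_cast congrArg (Int.cast : ℤ → ZMod p) ht
      rw [this]; field_simp; ring
    have e1 : (ii * (⟨h * r, -(2 * t)⟩ : R)).re = 2 * t := by simp
    have e2 : (ii * (⟨h * r, -(2 * t)⟩ : R)).im = h * r := by simp
    have e3 : ((f : R)).re = f := by simp
    have e4 : ((f : R)).im = 0 := by simp
    rw [e1, e2, e3, e4]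
    push_cast
    rw [hhr, h2t, hfy, hec]
    have h1' : (c : ZMod p) ^ 2 = - (d : ZMod p) ^ 2 := by
      have := congrArg (Int.cast : ℤ → ZMod p) h1
      push_cast at this
      rw [ZMod.natCast_self] at this
      linear_combination -this
    field_simp
    ring
  have hpow := eps_pow hp4 h1 hd cβ cγ hrel
  rw [hsym] at hpow
  rw [hpow]
  -- evaluate in ZMod 4
  have h4 : (4 : ZMod 4) = 0 := by decide
  have hY4 : (Y : ZMod 4) = -(1 + 2 * (t : ZMod 4) ^ 2 + t * (2 * e1 + 1)) := by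
    rw [hYdef, he1]; push_cast; rw [h4]; ring
  have hu4 : (u : ZMod 4) = e1 + 2 * t - 2 * B1 := by
    have h3 : 4 * t = 4 * (B1 * f) + 2 * (u - e1) := by rw [← ht, hB1, hu, he1]; ring
    have h5 : u = e1 + 2 * t - 2 * (B1 * f) := by linarith
    rw [h5, hu]; push_cast
    linear_combination -(B1 : ZMod 4) * u * h4
  have hr4 : ∃ S : ℤ, (r : ZMod 4) = 1 + 2 * S ∧ ((Y : ZMod 4) = 2 * S ∨ (Y : ZMod 4) = -(1 + 2 * S)) ∧
      ((if d % 4 = 0 then d else x) / 4) = S := by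
    have hh2 : ∃ m, h ^ 2 = 8 * m + 1 := sq_odd hho
    obtain ⟨m, hm⟩ := hh2
    rcases hcase with ⟨hd4, hx8⟩ | ⟨hd8, hx4⟩
    · obtain ⟨S, hS⟩ : ∃ S, d = 4 * S := ⟨d / 4, by omega⟩
      refine ⟨S, ?_, Or.inl ?_, ?_⟩
      · have h3 : x = 2 * ((8 * m + 1) * r) - 4 * S := by rw [← hm, ← hS]; linarith
        have h5 : x = 16 * (m * r) + 2 * r - 4 * S := by rw [h3]; ring
        have h6 := cast4 (a := r) (1 + 2 * S) (by omega)
        rw [h6]; push_cast; ring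
      · have h3 : Y = -(2 * (r * S)) := by
          have : -(r * d) = 2 * (-(2 * (r * S))) := by rw [hS]; ring
          omega
        obtain ⟨r1, hr1⟩ : ∃ r1, r = 2 * r1 + 1 := ⟨r / 2, by omega⟩
        rw [h3, hr1]; push_cast
        linear_combination (-(r1 : ZMod 4) * S - S) * h4
      · rw [if_pos hd4, hS]; exact Int.mul_ediv_cancel_left _ (by norm_num)
    · obtain ⟨S, hS⟩ : ∃ S, x = 4 * S := ⟨x / 4, by omega⟩
      have hr1 : (r : ZMod 4) = 1 + 2 * S := by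
        have h3 : 4 * S = 2 * ((8 * m + 1) * r) - d := by rw [← hm, ← hS]; linarith
        have h5 : 4 * S = 16 * (m * r) + 2 * r - d := by rw [h3]; ring
        have h6 := cast4 (a := r) (1 + 2 * S) (by omega)
        rw [h6]; push_cast; ring
      refine ⟨S, hr1, Or.inr ?_, ?_⟩
      · obtain ⟨d0, hd0⟩ : ∃ d0, d = 8 * d0 + 2 := ⟨d / 8, by omega⟩
        have h3 : Y = -(r * (4 * d0 + 1)) := by
          have : -(r * d) = 2 * (-(r * (4 * d0 + 1))) := by rw [hd0]; ring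
          omega
        rw [h3]; push_cast
        rw [h4, hr1]; ring
      · rw [if_neg (by omega), hS]; exact Int.mul_ediv_cancel_left _ (by norm_num)
  obtain ⟨S, hrS, hYS, hif⟩ := hr4
  rw [hif]
  have hhe : (h : ZMod 4) = 2 * e1 + 1 := by
    have h3 : ((h * e : ℤ) : ZMod 4) = 1 := by
      rw [← hce, cast4 (a := c) 1 (by omega)]; simp
    rw [he1] at h3
    push_cast at h3
    have h5 : ∀ H E : ZMod 4, H * (2 * E + 1) = 1 → H = 2 * E + 1 := by decide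
    exact h5 _ _ h3
  have hxr : 2 * (x' : ZMod 4) + 1 = (2 * e1 + 1) * (1 + 2 * S) := by
    have h5 : ((h * r : ℤ) : ZMod 4) = ((2 * x' + 1 : ℤ) : ZMod 4) := by rw [hx']
    push_cast at h5
    rw [← h5, hhe, hrS]
  have hqf : ql ii (f : R) = ((u ^ 2 + u : ℤ) : ZMod 4) := by
    rw [hu]; exact ql_ii_rat u
  have hfin := finite_check x' e1 t S B1 Y hxr hY4 hYS
  have hE : (((2 * x' * e1 + x' + e1) ^ 2 + (2 * x' * e1 + x' + e1) + Y ^ 2 : ℤ) : ZMod 4) +
      ((2 * (x' * Y + (2 * x' * e1 + x' + e1) * (-t) + (-t) * Y) : ℤ) : ZMod 4)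
      - ((x' ^ 2 + x' + (-t) ^ 2 : ℤ) : ZMod 4) + ql ii (f : R)
      - ((f - 1 : ℤ) : ZMod 4) * (((2 * x' * e1 + x' + e1) ^ 2 + (2 * x' * e1 + x' + e1) + Y ^ 2 : ℤ) : ZMod 4)
      = (1 + 2 * (S : ZMod 4)) * (1 + 2 * B1) := by
    rw [← hfin, hqf, hu]
    push_cast
    rw [hu4]
  rw [hE]
  -- signs
  have hb8 : (b % 8 = 1 ↔ B1 % 2 = 0) := by omega
  have key2 : ∀ S B : ℤ, phi c d h1 hd (ip ((1 + 2 * (S : ZMod 4)) * (1 + 2 * (B : ZMod 4)))) =
      (-1) ^ S * (if B % 2 = 0 then 1 else -1) * ((c : ZMod p) / d) := by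
    intro S B
    have i1 : phi c d h1 hd (ip 1) = (c : ZMod p) / d := by
      have : ip 1 = ii := by decide
      rw [this, phi_apply]; simp
    have i3 : phi c d h1 hd (ip 3) = -((c : ZMod p) / d) := by
      have : ip 3 = -ii := by decide
      rw [this, phi_apply]; simp
    rcases Int.even_or_odd' S with ⟨m, hm | hm⟩ <;> rcases Int.even_or_odd' B with ⟨n, hn | hn⟩ <;>
      rw [hm, hn]
    · have e5 : (1 + 2 * ((2 * m : ℤ) : ZMod 4)) * (1 + 2 * ((2 * n : ℤ) : ZMod 4)) = 1 := by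
        push_cast
        linear_combination ((m : ZMod 4) + n + 4 * m * n) * h4
      rw [e5, i1, zpow_mul, if_pos (by omega)]; simp
    · have e5 : (1 + 2 * ((2 * m : ℤ) : ZMod 4)) * (1 + 2 * ((2 * n + 1 : ℤ) : ZMod 4)) = 3 := by
        push_cast
        linear_combination (3 * (m : ZMod 4) + n + 4 * m * n) * h4
      rw [e5, i3, zpow_mul, if_neg (by omega)]; simp
    · have e5 : (1 + 2 * ((2 * m + 1 : ℤ) : ZMod 4)) * (1 + 2 * ((2 * n : ℤ) : ZMod 4)) = 3 := by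
        push_cast
        linear_combination ((m : ZMod 4) + 3 * n + 4 * m * n) * h4
      rw [e5, i3, zpow_add₀ (by norm_num), zpow_mul, if_pos (by omega)]; simp
    · have e5 : (1 + 2 * ((2 * m + 1 : ℤ) : ZMod 4)) * (1 + 2 * ((2 * n + 1 : ℤ) : ZMod 4)) = 1 := by
        push_cast
        linear_combination (2 + 3 * (m : ZMod 4) + 3 * n + 4 * m * n) * h4
      rw [e5, i1, zpow_add₀ (by norm_num), zpow_mul, if_neg (by omega)]; simp
  rw [key2]
  simp only [hb8]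

end field

end Pool.Agent.helper84.Quartic
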