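import Pool.Agent.helper84.Quartic1

/-!
# Gauss sums of the quartic character modulo a split Gaussian prime
-/

set_option autoImplicit false

noncomputable section

namespace Pool.Agent.helper84.Quartic

open Finset

section chi

variable (l : R) [hl : Fact (Prime l)]

/-- The unit `i ^ e`. -/
def ipu (e : ZMod 4) : Rˣ := ⟨ip e, ip (-e), ip_mul_ip_neg e, by rw [mul_comm]; exact ip_mul_ip_neg e⟩

lemma ipu_add (e f : ZMod 4) : ipu (e + f) = ipu e * ipu f := by
  ext1; exact ip_add e f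

/-- The representative of a class. -/
def rep (x : R ⧸ Ideal.span {l}) : R := (Ideal.Quotient.mk_surjective x).choose

omit hl in
lemma red_rep (x : R ⧸ Ideal.span {l}) : red l (rep l x) = x :=
  (Ideal.Quotient.mk_surjective x).choose_spec

lemma rep_not_dvd (u : (R ⧸ Ideal.span {l})ˣ) : ¬ l ∣ rep l (u : R ⧸ Ideal.span {l}) := by
  intro h
  have h1 := red_eq_zero.2 h
  rw [red_rep] at h1
  exact u.ne_zero h1

/-- The quartic residue character modulo `l`, with values in the Gaussian integers. -/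
def chi (hodd : OddG l) : MulChar (R ⧸ Ideal.span {l}) R :=
  MulChar.ofUnitHom
    { toFun := fun u => ipu (qe (rep l (u : R ⧸ Ideal.span {l})) l)
      map_one' := by
        have h1 : qe (rep l ((1 : (R ⧸ Ideal.span {l})ˣ) : R ⧸ Ideal.span {l})) l = qe 1 l := by
          apply qe_congr hl.1 hodd
          rw [← red_eq, red_rep]; simp
        rw [h1, qe_one hl.1 hodd]; ext1; simp [ipu]
      map_mul' := by
        intro u v
        rw [← ipu_add, ← qe_mul hl.1 hodd (rep_not_dvd l u) (rep_not_dvd l v)]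
        congr 1
        apply qe_congr hl.1 hodd
        rw [← red_eq, red_rep, map_mul, red_rep, red_rep]; simp }

variable {l}

lemma chi_red (hodd : OddG l) {a : R} (ha : ¬ l ∣ a) : chi l hodd (red l a) = ip (qe a l) := by
  have h0 : red l a ≠ 0 := fun h => ha (red_eq_zero.1 h)
  have h1 : chi l hodd (red l a) = chi l hodd ((Units.mk0 (red l a) h0 : (R ⧸ Ideal.span {l})ˣ) : R ⧸ Ideal.span {l}) := rfl
  rw [h1, chi, MulChar.ofUnitHom_coe]
  simp only [MonoidHom.coe_mk, OneHom.coe_mk, Units.val_mk0]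
  have h2 : qe (rep l (red l a)) l = qe a l := by
    apply qe_congr hl.1 hodd
    rw [← red_eq, red_rep]
  rw [h2]; rfl

lemma red_chi (hodd : OddG l) (x : R ⧸ Ideal.span {l}) :
    red l (chi l hodd x) = x ^ ((N l - 1) / 4) := by
  obtain ⟨a, rfl⟩ := Ideal.Quotient.mk_surjective x
  by_cases ha : l ∣ a
  · have h0 : red l a = 0 := red_eq_zero.2 ha
    change red l (chi l hodd (red l a)) = (red l a) ^ _
    rw [h0, MulChar.map_zero, map_zero, zero_pow (exp_pos hl.1 hodd).ne']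
  · change red l (chi l hodd (red l a)) = (red l a) ^ _
    rw [chi_red hodd ha, ← map_pow]
    symm
    rw [red_eq]
    exact qe_spec hl.1 hodd ha

lemma chi_pow_four (hodd : OddG l) : (chi l hodd) ^ 4 = 1 := by
  apply MulChar.ext
  intro u
  rw [MulChar.pow_apply_coe, MulChar.one_apply_coe]
  have h1 : chi l hodd (u : R ⧸ Ideal.span {l}) = ip (qe (rep l (u : R ⧸ Ideal.span {l})) l) := by
    rw [← chi_red hodd (rep_not_dvd l u), red_rep]
  rw [h1, ← ip_nsmul]
  have : (4 : ℕ) • qe (rep l (u : R ⧸ Ideal.span {l})) l = 0 := by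
    generalize qe (rep l (u : R ⧸ Ideal.span {l})) l = e
    revert e; decide
  rw [this, ip_zero]

lemma exists_chi_sq_ne (hodd : OddG l) : ∃ u : (R ⧸ Ideal.span {l})ˣ,
    (chi l hodd (u : R ⧸ Ideal.span {l})) ^ 2 ≠ 1 := by
  have hcard : Nat.card (R ⧸ Ideal.span {l})ˣ = N l - 1 := by
    classical
    rw [Nat.card_eq_fintype_card, Fintype.card_units, fintype_card_quot]
  have h4 := N_mod_four hodd
  have hpos := exp_pos hl.1 hodd
  obtain ⟨u, hu⟩ := exists_pow_ne_one_of_isCyclic (G := (R ⧸ Ideal.span {l})ˣ)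
    (k := (N l - 1) / 2) (by omega) (by rw [hcard]; omega)
  refine ⟨u, fun h => hu ?_⟩
  have h1 := red_chi hodd (u : R ⧸ Ideal.span {l})
  have h2 : ((u : R ⧸ Ideal.span {l}) ^ ((N l - 1) / 4)) ^ 2 = 1 := by
    rw [← h1, ← map_pow, h, map_one]
  rw [← pow_mul] at h2
  have h3 : (N l - 1) / 4 * 2 = (N l - 1) / 2 := by omega
  rw [h3] at h2
  ext1
  rw [Units.val_pow_eq_pow_val, h2, Units.val_one]

lemma chi_neg_one_sq (hodd : OddG l) : (chi l hodd (-1)) ^ 2 = 1 := by
  rw [← map_pow]; simp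

end chi

section J

variable {l : R} [hl : Fact (Prime l)]

/-- the Jacobi sum `J(χ, χ)` -/
def J (hodd : OddG l) : R := jacobiSum (chi l hodd) (chi l hodd)

lemma dvd_J (hodd : OddG l) : l ∣ J hodd := by
  rw [← red_eq_zero, J, jacobiSum, map_sum]
  simp only [map_mul, red_chi]
  set m := (N l - 1) / 4 with hm
  have hpos := exp_pos hl.1 hodd
  have h1 : ∀ x : R ⧸ Ideal.span {l}, x ^ m * (1 - x) ^ m =
      ∑ j ∈ range (m + 1), ((-1) ^ j * (m.choose j : R ⧸ Ideal.span {l})) * x ^ (m + j) := by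
    intro x
    have h2 : (1 - x) ^ m = (-x + 1) ^ m := by ring
    rw [h2, add_pow, mul_sum]
    apply sum_congr rfl
    intro j _
    rw [one_pow, mul_one, neg_pow]; ring
  simp_rw [h1]
  rw [sum_comm]
  apply sum_eq_zero
  intro j hj
  rw [← mul_sum, FiniteField.sum_pow_lt_card_sub_one, mul_zero]
  rw [mem_range] at hj
  rw [fintype_card_quot]
  omega

lemma ringChar_eq {p : ℕ} (hp : Nat.Prime p) (h : l ∣ (p : R)) :
    ringChar (R ⧸ Ideal.span {l}) = p := by
  have h1 : ((p : ℕ) : R ⧸ Ideal.span {l}) = 0 := by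
    have := red_eq_zero.2 h
    rwa [map_natCast] at this
  have : Fact p.Prime := ⟨hp⟩
  exact CharP.ringChar_of_prime_eq_zero hp h1

lemma J_mul_star (hodd : OddG l) {p : ℕ} (hp : Nat.Prime p) (h : N l = p) :
    J hodd * star (J hodd) = p := by
  set χ := (chi l hodd).ringHomComp GaussianInt.toComplex with hχ
  have hinj : Function.Injective GaussianInt.toComplex := GaussianInt.toComplex_injective
  have hchar : ringChar ℂ ≠ ringChar (R ⧸ Ideal.span {l}) := by
    rw [ringChar_eq hp (by rw [← h]; exact dvd_N l), ringChar.eq_zero]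
    exact hp.ne_zero.symm
  obtain ⟨u, hu⟩ := exists_chi_sq_ne hodd
  have hne2 : (chi l hodd) * (chi l hodd) ≠ 1 := by
    intro h1
    apply hu
    rw [pow_two, ← MulChar.mul_apply, h1, MulChar.one_apply_coe]
  have hne : chi l hodd ≠ 1 := by
    intro h1; apply hne2; rw [h1, mul_one]
  have h1 : χ ≠ 1 := (MulChar.ringHomComp_ne_one_iff hinj).2 hne
  have h2 : χ * χ ≠ 1 := by
    rw [hχ, ← MulChar.ringHomComp_mul]
    exact (MulChar.ringHomComp_ne_one_iff hinj).2 hne2
  have h3 := jacobiSum_mul_jacobiSum_inv hchar h1 h1 h2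
  have h4 : jacobiSum χ χ = GaussianInt.toComplex (J hodd) := jacobiSum_ringHomComp _ _ _
  have h5 : jacobiSum χ⁻¹ χ⁻¹ = star (jacobiSum χ χ) := by
    simp only [jacobiSum, star_sum, star_mul', MulChar.star_apply']
  rw [h5, h4, fintype_card_quot, h] at h3
  apply hinj
  rw [map_mul, map_natCast, ← h3]
  congr 1
  exact GaussianInt.toComplex_star _

lemma isPrimitiveRoot_ii : IsPrimitiveRoot ii 4 := by
  rw [IsPrimitiveRoot.iff (by norm_num)]
  refine ⟨ii_pow_four, ?_⟩
  intro k hk hk4 h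
  interval_cases k
  · exact absurd h (by decide)
  · exact absurd h (by decide)
  · exact absurd h (by decide)

lemma J_eq (hodd : OddG l) : ∃ z : R, J hodd = -1 + 2 * z := by
  have h1 : 4 ∣ Fintype.card (R ⧸ Ideal.span {l}) - 1 := by
    rw [fintype_card_quot]
    have := N_mod_four hodd; omega
  obtain ⟨z, _, hz⟩ := exists_jacobiSum_eq_neg_one_add (n := 4) (by norm_num)
    (chi_pow_four hodd) (chi_pow_four hodd) h1 isPrimitiveRoot_ii
  refine ⟨z * (-ii), ?_⟩
  rw [J, hz]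
  have : (ii - 1) ^ 2 = -2 * ii := by decide
  rw [this]; ring

/-- for a primary-mod-2 prime, the Jacobi sum is `± l`. -/
lemma J_sq (hodd : OddG l) {p : ℕ} (hp : Nat.Prime p) (h : N l = p) (him : l.im % 2 = 0) :
    J hodd ^ 2 = l ^ 2 := by
  obtain ⟨u, hu⟩ := dvd_J hodd
  have h1 : N (J hodd) = p := by
    have h2 := J_mul_star hodd hp h
    rw [← N_eq_mul_star] at h2
    exact_mod_cast h2
  have h2 : N u = 1 := by
    rw [hu, N_mul, h] at h1
    exact Nat.eq_of_mul_eq_mul_left hp.pos (by rw [h1, mul_one])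
  have h3 : ((N u : ℕ) : ℤ) = u.re * u.re + u.im * u.im := N_cast u
  rw [h2] at h3
  obtain ⟨z, hz⟩ := J_eq hodd
  have hlre : l.re % 2 = 1 := by unfold OddG at hodd; omega
  have h4 : (J hodd).im % 2 = 0 := by
    rw [hz]; simp
  rw [hu] at h4
  simp only [Zsqrtd.im_mul] at h4
  have h5 : u.im = 0 := by
    have h6 : u.im * u.im ≤ 1 := by push_cast at h3; nlinarith [mul_self_nonneg u.re]
    have h7 : u.im ≤ 1 := by nlinarith
    have h8 : -1 ≤ u.im := by nlinarith
    have h9 : u.re * u.re ≤ 1 := by push_cast at h3; nlinarith [mul_self_nonneg u.im]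
    have h10 : u.re ≤ 1 := by nlinarith
    have h11 : -1 ≤ u.re := by nlinarith
    obtain ⟨x, hx⟩ : ∃ x, l.im = 2 * x := ⟨l.im / 2, by omega⟩
    obtain ⟨y, hy⟩ : ∃ y, l.re = 2 * y + 1 := ⟨l.re / 2, by omega⟩
    rw [hx, hy] at h4
    push_cast at h3
    interval_cases hh : u.im
    · interval_cases hr : u.re <;> omega
    · rfl
    · interval_cases hr : u.re <;> omega
  have h6 : u ^ 2 = 1 := by
    rw [h5] at h3
    push_cast at h3
    apply Zsqrtd.ext
    · simp [pow_two, h5]; linarith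
    · simp [pow_two, h5]
  rw [hu, mul_pow, h6, mul_one]

end J

section frob

variable {l : R} [hl : Fact (Prime l)] {m : R} [hm : Fact (Prime m)]

/-- Data of a Gauss sum with values in a field containing `R / (m)`. -/
lemma gauss_data (hodd : OddG l) (hmodd : OddG m) {p q : ℕ} (hp : Nat.Prime p) (h : N l = p)
    (him : l.im % 2 = 0) (hq : Nat.Prime q) (hmq : m ∣ (q : R)) (hpq : p ≠ q) :
    (q % 4 = 1 → m ∣ ip (qe (q : R) l) * (l ^ 3 * star l) ^ ((q - 1) / 4) - 1) ∧
    (q % 4 = 3 → m ∣ (l ^ 3 * star l) ^ ((q + 1) / 4) - ip (qe (-(q : R)) l) * (l * star l)) := by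
  have hlp : l ∣ (p : R) := by rw [← h]; exact dvd_N l
  have hc1 : ringChar (R ⧸ Ideal.span {l}) = p := ringChar_eq hp hlp
  have hc2 : ringChar (R ⧸ Ideal.span {m}) = q := ringChar_eq hq hmq
  have hne : ringChar (R ⧸ Ideal.span {m}) ≠ ringChar (R ⧸ Ideal.span {l}) := by
    rw [hc1, hc2]; exact hpq.symm
  have hlq : ¬ l ∣ (q : R) := by
    intro h1
    exact hne (by rw [ringChar_eq hq h1, hc2])
  set Ψ := AddChar.FiniteField.primitiveChar (R ⧸ Ideal.span {l}) (R ⧸ Ideal.span {m}) hne with hΨ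
  let K := CyclotomicField Ψ.n (R ⧸ Ideal.span {m})
  set ψ : AddChar (R ⧸ Ideal.span {l}) K := Ψ.char with hψ
  have hψprim : ψ.IsPrimitive := Ψ.prim
  let θ : R →+* K := (algebraMap (R ⧸ Ideal.span {m}) K).comp (red m)
  have hθ : ∀ a : R, θ a = 0 ↔ m ∣ a := by
    intro a
    rw [← red_eq_zero]
    exact map_eq_zero_iff _ (algebraMap (R ⧸ Ideal.span {m}) K).injective
  set χ := (chi l hodd).ringHomComp θ with hχ
  have hχa : ∀ x, χ x = θ (chi l hodd x) := fun x => rfl
  have hχ4 : χ ^ 4 = 1 := by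
    rw [hχ, MulChar.ringHomComp_pow, chi_pow_four, MulChar.ringHomComp_one]
  have hχ2 : χ ^ 2 ≠ 1 := by
    intro h1
    obtain ⟨u, hu⟩ := exists_chi_sq_ne hodd
    apply hu
    have h2 : (χ ^ 2) (u : R ⧸ Ideal.span {l}) = 1 := by rw [h1, MulChar.one_apply_coe]
    rw [MulChar.pow_apply_coe, hχa] at h2
    have h3 : chi l hodd (u : R ⧸ Ideal.span {l}) = ip (qe (rep l (u : R ⧸ Ideal.span {l})) l) := by
      rw [← chi_red hodd (rep_not_dvd l u), red_rep]
    rw [h3] at h2 ⊢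
    rw [← map_pow, ← ip_nsmul] at h2
    rw [← ip_nsmul]
    have h4 : m ∣ ip ((2 : ℕ) • qe (rep l (u : R ⧸ Ideal.span {l})) l) - ip 0 := by
      rw [← hθ, map_sub, h2, ip_zero, map_one, sub_self]
    rw [ip_inj_mod hmodd hm.1.not_isUnit h4, ip_zero]
  have hχ1 : χ ≠ 1 := fun h1 => hχ2 (by rw [h1, one_pow])
  have hmul : χ * χ ≠ 1 := by rwa [← pow_two]
  set g := gaussSum χ ψ with hg
  have hcardK : (Fintype.card (R ⧸ Ideal.span {l}) : K) = θ (l * star l) := by
    rw [fintype_card_quot, ← N_eq_mul_star, map_natCast]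
  -- the fourth power
  have hg4 : g ^ 4 = θ (l ^ 3 * star l) := by
    have h1 : gaussSum (χ * χ) ψ * jacobiSum χ χ = g * g := jacobiSum_mul_nontrivial hmul ψ
    have h2 : gaussSum (χ ^ 2) ψ ^ 2 = (χ ^ 2) (-1) * Fintype.card (R ⧸ Ideal.span {l}) := by
      apply gaussSum_sq hχ2 _ hψprim
      rw [MulChar.isQuadratic_iff_sq_eq_one]
      rw [← pow_mul, hχ4]
    have h3 : (χ ^ 2) (-1) = 1 := by
      rw [MulChar.pow_apply' _ two_ne_zero, hχa, ← map_pow, chi_neg_one_sq, map_one]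
    have h4 : jacobiSum χ χ = θ (J hodd) := jacobiSum_ringHomComp _ _ _
    have h5 : J hodd ^ 2 = l ^ 2 := J_sq hodd hp h him
    calc g ^ 4 = (g * g) ^ 2 := by ring
      _ = (gaussSum (χ ^ 2) ψ) ^ 2 * (jacobiSum χ χ) ^ 2 := by rw [← h1, mul_pow, pow_two χ]
      _ = θ (l ^ 3 * star l) := by
        rw [h2, h3, h4, hcardK, one_mul, ← map_pow, h5, ← map_mul]
        congr 1; ring
  have hg0 : g ≠ 0 := by
    intro h1
    rw [h1, zero_pow (by norm_num)] at hg4
    have h2 := (hθ _).1 hg4.symm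
    have h3 : m ∣ (p : R) := by
      rw [← h, N_eq_mul_star]
      rcases hm.1.dvd_or_dvd h2 with h4 | h4
      · exact (hm.1.dvd_of_dvd_pow h4).mul_right _
      · exact h4.mul_left _
    exact hpq (by rw [← ringChar_eq hp h3, hc2])
  have : Fact q.Prime := ⟨hq⟩
  have hchK : CharP K q := by
    have : CharP (R ⧸ Ideal.span {m}) q := by rw [← hc2]; exact ringChar.charP _
    exact charP_of_injective_algebraMap (algebraMap (R ⧸ Ideal.span {m}) K).injective q
  have hfrob : g ^ q = gaussSum (χ ^ q) (ψ ^ q) := gaussSum_frob q χ ψ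
  have hqu : IsUnit ((q : ℕ) : R ⧸ Ideal.span {l}) := by
    rw [isUnit_iff_ne_zero]
    intro h1
    apply hlq
    rw [← red_eq_zero, map_natCast]; exact h1
  have hψq : ψ ^ q = AddChar.mulShift ψ (hqu.unit : R ⧸ Ideal.span {l}) := by
    rw [IsUnit.unit_spec]; exact AddChar.pow_mulShift ψ q
  have hχq : χ ((hqu.unit : R ⧸ Ideal.span {l})) = θ (ip (qe (q : R) l)) := by
    have hqr : ((q : ℕ) : R ⧸ Ideal.span {l}) = red l (q : R) := (map_natCast _ _).symm
    rw [IsUnit.unit_spec, hχa, hqr, chi_red hodd hlq]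
  have hsplit : q ≠ 0 := hq.ne_zero
  constructor
  · intro hq4
    have h1 : χ ^ q = χ := by
      have h2 : q = 4 * ((q - 1) / 4) + 1 := by omega
      conv_lhs => rw [h2, pow_succ, pow_mul, hχ4, one_pow, one_mul]
    rw [h1, hψq] at hfrob
    have h2 : χ ((hqu.unit : R ⧸ Ideal.span {l})) * g ^ q = g := by
      rw [hfrob]; exact gaussSum_mulShift _ _ _
    have h3 : g ^ q = (g ^ 4) ^ ((q - 1) / 4) * g := by
      rw [← pow_mul, ← pow_succ]; congr 1; omega
    rw [h3, hg4, hχq, ← map_pow, ← mul_assoc, ← map_mul] at h2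
    have h4 : θ (ip (qe (q : R) l) * (l ^ 3 * star l) ^ ((q - 1) / 4)) = 1 := by
      apply mul_right_cancel₀ hg0
      rw [h2, one_mul]
    rw [← hθ, map_sub, h4, map_one, sub_self]
  · intro hq4
    have h1 : χ ^ q = χ⁻¹ := by
      have h2 : q = 4 * ((q - 3) / 4) + 3 := by omega
      have h3 : χ ^ q = χ ^ 3 := by
        conv_lhs => rw [h2, pow_add, pow_mul, hχ4, one_pow, one_mul]
      rw [h3]
      apply eq_inv_of_mul_eq_one_left
      rw [← pow_succ, hχ4]
    rw [h1, hψq] at hfrob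
    have h2 : χ⁻¹ ((hqu.unit : R ⧸ Ideal.span {l})) * g ^ q = gaussSum χ⁻¹ ψ := by
      rw [hfrob]; exact gaussSum_mulShift _ _ _
    have h3 : χ⁻¹ (-1) * gaussSum χ⁻¹ ψ⁻¹ = gaussSum χ⁻¹ ψ := mul_gaussSum_inv_eq_gaussSum _ _
    have h4 : g * gaussSum χ⁻¹ ψ⁻¹ = Fintype.card (R ⧸ Ideal.span {l}) :=
      gaussSum_mul_gaussSum_eq_card hχ1 hψprim
    have h5 : χ ((hqu.unit : R ⧸ Ideal.span {l})) * χ⁻¹ ((hqu.unit : R ⧸ Ideal.span {l})) = 1 := by
      rw [← MulChar.mul_apply, mul_inv_cancel, MulChar.one_apply_coe]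
    have h6 : χ⁻¹ (-1) = χ (-1) := by
      rw [MulChar.inv_apply', inv_neg_one]
    have h7 : g ^ (q + 1) = χ ((hqu.unit : R ⧸ Ideal.span {l})) * χ (-1) *
        Fintype.card (R ⧸ Ideal.span {l}) := by
      calc g ^ (q + 1) = (χ ((hqu.unit : R ⧸ Ideal.span {l})) *
            χ⁻¹ ((hqu.unit : R ⧸ Ideal.span {l}))) * (g ^ q * g) := by rw [h5, one_mul, pow_succ]
        _ = χ ((hqu.unit : R ⧸ Ideal.span {l})) * (χ⁻¹ ((hqu.unit : R ⧸ Ideal.span {l})) * g ^ q) * g := by
            ring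
        _ = χ ((hqu.unit : R ⧸ Ideal.span {l})) * χ (-1) * (g * gaussSum χ⁻¹ ψ⁻¹) := by
            rw [h2, ← h3, h6]; ring
        _ = _ := by rw [h4]
    have h8 : g ^ (q + 1) = (g ^ 4) ^ ((q + 1) / 4) := by
      rw [← pow_mul]; congr 1; omega
    have h9 : χ ((hqu.unit : R ⧸ Ideal.span {l})) * χ (-1) = θ (ip (qe (-(q : R)) l)) := by
      have hqr : ((q : ℕ) : R ⧸ Ideal.span {l}) * (-1) = red l (-(q : R)) := by
        rw [map_neg, map_natCast, mul_neg_one]
      rw [← map_mul, IsUnit.unit_spec, hχa, hqr, chi_red hodd (by rwa [dvd_neg])]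
    rw [h8, hg4, h9, hcardK, ← map_pow, ← map_mul] at h7
    rw [← hθ, map_sub, h7, sub_self]

end frob

end Pool.Agent.helper84.Quartic
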