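import Pool.Agent.helper84.Quartic2

/-!
# The quartic Jacobi symbol exponent for composite moduli
-/

set_option autoImplicit false

noncomputable section

namespace Pool.Agent.helper84.Quartic

open UniqueFactorizationMonoid

/-- The exponent of the quartic Jacobi symbol `(a / n)_4`. -/
def ql (a n : R) : ZMod 4 := ((factors n).map (fun l => qe a l)).sum

lemma qe_assoc' {l l' : R} (h : Associated l l') (a : R) : qe a l' = qe a l := by
  have hN : N l' = N l := Nat.dvd_antisymm (N_dvd h.symm.dvd) (N_dvd h.dvd)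
  have key : ∀ e : ZMod 4, l' ∣ a ^ ((N l' - 1) / 4) - ip e ↔ l ∣ a ^ ((N l - 1) / 4) - ip e := by
    intro e; rw [hN]; exact ⟨fun h1 => h.dvd.trans h1, fun h1 => h.symm.dvd.trans h1⟩
  unfold qe
  congr 1
  funext e
  exact propext (key e)

lemma sum_eq_of_rel (a : R) {s t : Multiset R} (h : Multiset.Rel Associated s t) :
    (s.map (fun l => qe a l)).sum = (t.map (fun l => qe a l)).sum := by
  induction h with
  | zero => rfl
  | cons hab _ ih => simp only [Multiset.map_cons, Multiset.sum_cons, ih, qe_assoc' hab]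

lemma ql_mul_right (a : R) {m n : R} (hm : m ≠ 0) (hn : n ≠ 0) :
    ql a (m * n) = ql a m + ql a n := by
  unfold ql
  rw [sum_eq_of_rel a (factors_mul hm hn), Multiset.map_add, Multiset.sum_add]

lemma ql_assoc (a : R) {m n : R} (h : Associated m n) : ql a m = ql a n :=
  sum_eq_of_rel a (factors_rel_of_associated h)

lemma ql_prime (a : R) {l : R} (hl : Prime l) : ql a l = qe a l := by
  unfold ql
  have h : Multiset.Rel Associated (factors l) {l} := by
    refine factors_unique irreducible_of_factor ?_ ?_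
    · intro x hx; rw [Multiset.mem_singleton] at hx; rw [hx]; exact hl.irreducible
    · rw [Multiset.prod_singleton]; exact factors_prod hl.ne_zero
  rw [sum_eq_of_rel a h]; simp

lemma ql_unit_right (a : R) {u : R} (hu : IsUnit u) : ql a u = 0 := by
  have h1 : Associated (1 : R) u := associated_one_iff_isUnit.2 hu |>.symm
  rw [← ql_assoc a h1]; unfold ql; rw [factors_one]; simp

lemma factor_odd {n l : R} (hn : OddG n) (hl : l ∈ factors n) : OddG l :=
  hn.of_dvd (dvd_of_mem_factors hl)

lemma factor_not_dvd {a n l : R} (h : IsCoprime a n) (hl : l ∈ factors n) : ¬ l ∣ a := by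
  intro h1
  have h2 : IsUnit l := h.isUnit_of_dvd' h1 (dvd_of_mem_factors hl)
  exact (prime_of_factor l hl).not_isUnit h2

lemma ql_mul_left {a b n : R} (hn : OddG n) (ha : IsCoprime a n) (hb : IsCoprime b n) :
    ql (a * b) n = ql a n + ql b n := by
  unfold ql
  rw [← Multiset.sum_map_add]
  congr 1
  apply Multiset.map_congr rfl
  intro l hl
  exact qe_mul (prime_of_factor l hl) (factor_odd hn hl) (factor_not_dvd ha hl) (factor_not_dvd hb hl)

lemma ql_congr {a b n : R} (hn : OddG n) (h : n ∣ a - b) : ql a n = ql b n := by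
  unfold ql
  congr 1
  apply Multiset.map_congr rfl
  intro l hl
  exact qe_congr (prime_of_factor l hl) (factor_odd hn hl) ((dvd_of_mem_factors hl).trans h)

lemma ql_one {n : R} (hn : OddG n) : ql 1 n = 0 := by
  unfold ql
  have : (factors n).map (fun l => qe 1 l) = (factors n).map (fun _ => 0) := by
    apply Multiset.map_congr rfl
    intro l hl
    exact qe_one (prime_of_factor l hl) (factor_odd hn hl)
  rw [this]; simp

lemma ne_zero_of_odd {n : R} (hn : OddG n) : n ≠ 0 := by
  rintro rfl; exact absurd hn (by unfold OddG; decide)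

lemma ql_pow {a n : R} (hn : OddG n) (ha : IsCoprime a n) (k : ℕ) : ql (a ^ k) n = k • ql a n := by
  induction k with
  | zero => simp [ql_one hn]
  | succ k ih => rw [pow_succ, ql_mul_left hn ha.pow_left ha, ih, succ_nsmul]

/-- induction principle for odd elements -/
lemma odd_induction {P : R → Prop} (hu : ∀ u, IsUnit u → P u)
    (hp : ∀ a l : R, Prime l → OddG l → OddG a → P a → P (l * a)) {n : R} (hn : OddG n) : P n := by
  revert hn
  refine induction_on_prime n ?_ ?_ ?_
  · intro h; exact absurd h (by unfold OddG; decide)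
  · intro u hu' _; exact hu u hu'
  · intro a l ha hl ih h
    exact hp a l hl h.of_mul_left h.of_mul_right (ih h.of_mul_right)

lemma quarter_mul {m n : R} (hm : OddG m) (hn : OddG n) :
    (((N (m * n) - 1) / 4 : ℕ) : ZMod 4) = (((N m - 1) / 4 : ℕ) : ZMod 4) + (((N n - 1) / 4 : ℕ) : ZMod 4) := by
  have h1 := N_mul_four hm
  have h2 := N_mul_four hn
  have h3 := N_mul_four (hm.mul hn)
  set x := (N m - 1) / 4
  set y := (N n - 1) / 4
  set z := (N (m * n) - 1) / 4
  rw [N_mul, ← h1, ← h2] at h3
  have h4 : z = x + y + 4 * (x * y) := by nlinarith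
  rw [h4]; push_cast
  have : (4 : ZMod 4) = 0 := by decide
  rw [this]; ring

lemma ql_ii {n : R} (hn : OddG n) : ql ii n = (((N n - 1) / 4 : ℕ) : ZMod 4) := by
  refine odd_induction (P := fun n => ql ii n = (((N n - 1) / 4 : ℕ) : ZMod 4)) ?_ ?_ hn
  · intro u hu
    rw [ql_unit_right _ hu, N_eq_one_iff.2 hu]; simp
  · intro a l hl hlo ha ih
    rw [ql_mul_right _ hl.ne_zero (ne_zero_of_odd ha), ih, ql_prime _ hl, qe_ii hl hlo,
      quarter_mul hlo ha]

lemma ql_star {a n : R} (hn : OddG n) : ql (star a) (star n) = - ql a n := by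
  refine odd_induction (P := fun n => ql (star a) (star n) = - ql a n) ?_ ?_ hn
  · intro u hu
    have : IsUnit (star u) := hu.star
    rw [ql_unit_right _ hu, ql_unit_right _ this]; simp
  · intro b l hl hlo hb ih
    have h1 : star (l * b) = star l * star b := star_mul' _ _
    rw [h1, ql_mul_right _ (prime_star hl).ne_zero (star_ne_zero.2 (ne_zero_of_odd hb)), ih,
      ql_mul_right _ hl.ne_zero (ne_zero_of_odd hb), ql_prime _ hl, ql_prime _ (prime_star hl),
      qe_star hl hlo]
    abel

lemma isCoprime_intCast {a b : ℤ} (h : IsCoprime a b) : IsCoprime (a : R) (b : R) := by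
  have := h.map (Int.castRingHom R); simpa using this

lemma oddG_intCast {a : ℤ} : OddG (a : R) ↔ a % 2 = 1 := by
  unfold OddG; simp

lemma oddG_natCast {a : ℕ} : OddG (a : R) ↔ a % 2 = 1 := by
  unfold OddG; simp; omega

lemma star_intCast (a : ℤ) : star (a : R) = (a : R) := by
  apply Zsqrtd.ext <;> simp

lemma star_natCast (a : ℕ) : star (a : R) = (a : R) := by
  apply Zsqrtd.ext <;> simp

/-- A Gaussian integer whose norm is a rational prime is a Gaussian prime. -/
lemma prime_of_norm {l : R} {p : ℕ} (hp : Nat.Prime p) (h : N l = p) : Prime l := by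
  rw [← irreducible_iff_prime]
  refine ⟨?_, ?_⟩
  · intro hu
    rw [N_eq_one_iff.2 hu] at h
    exact hp.ne_one h.symm
  · intro a b hab
    rw [hab, N_mul] at h
    have h1 : N a ∣ p := Dvd.intro _ h
    rcases (Nat.dvd_prime hp).1 h1 with h2 | h2
    · left; exact N_eq_one_iff.1 h2
    · right
      rw [h2] at h
      exact N_eq_one_iff.1 (Nat.eq_of_mul_eq_mul_left hp.pos (by rw [h, mul_one]))

lemma exists_split_prime {q : ℕ} (hq : Nat.Prime q) (hq4 : q % 4 = 1) :
    ∃ l : R, N l = q ∧ (q : R) = l * star l := by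
  have : Fact q.Prime := ⟨hq⟩
  obtain ⟨a, b, hab⟩ := Nat.Prime.sq_add_sq (p := q) (by omega)
  refine ⟨⟨a, b⟩, ?_, ?_⟩
  · have h1 := N_cast (⟨a, b⟩ : R)
    simp only at h1
    have h2 : ((N (⟨a, b⟩ : R) : ℕ) : ℤ) = (q : ℤ) := by
      rw [h1, ← hab]; push_cast; ring
    exact_mod_cast h2
  · rw [← N_eq_mul_star]
    congr 1
    have h1 := N_cast (⟨a, b⟩ : R)
    simp only at h1
    have h2 : ((N (⟨a, b⟩ : R) : ℕ) : ℤ) = (q : ℤ) := by
      rw [h1, ← hab]; push_cast; ring
    exact_mod_cast h2.symm

lemma prime_inert {q : ℕ} (hq : Nat.Prime q) (hq4 : q % 4 = 3) : Prime (q : R) := by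
  have : Fact q.Prime := ⟨hq⟩
  exact GaussianInt.prime_of_nat_prime_of_mod_four_eq_three q hq4

/-- rational modulo rational is trivial. -/
lemma ql_rat_aux (a : ℤ) (n : ℕ) : n % 2 = 1 → IsCoprime a (n : ℤ) → ql (a : R) (n : R) = 0 := by
  refine induction_on_primes (motive := fun n : ℕ => n % 2 = 1 → IsCoprime a (n : ℤ) → ql (a : R) (n : R) = 0)
    ?_ ?_ ?_ n
  · intro h; norm_num at h
  · intro _ _
    rw [Nat.cast_one]; exact ql_unit_right _ isUnit_one
  · intro q m hq ih hodd hcop
    have hqo : q % 2 = 1 := by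
      rcases Nat.mod_two_eq_zero_or_one q with h | h
      · rw [Nat.mul_mod, h] at hodd; norm_num at hodd
      · exact h
    have hmo : m % 2 = 1 := by
      rcases Nat.mod_two_eq_zero_or_one m with h | h
      · rw [Nat.mul_mod, h] at hodd; norm_num at hodd
      · exact h
    push_cast at hcop ⊢
    have hc1 : IsCoprime a (q : ℤ) := hcop.of_mul_right_left
    have hc2 : IsCoprime a (m : ℤ) := hcop.of_mul_right_right
    rw [ql_mul_right _ (ne_zero_of_odd (oddG_natCast.2 hqo)) (ne_zero_of_odd (oddG_natCast.2 hmo)),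
      ih hmo hc2, add_zero]
    rcases (show q % 4 = 1 ∨ q % 4 = 3 by omega) with h4 | h4
    · obtain ⟨l, hN, hl⟩ := exists_split_prime hq h4
      have hlo : OddG l := (oddG_natCast.2 hqo).of_dvd (Dvd.intro _ hl.symm)
      rw [hl, ql_mul_right _ (ne_zero_of_odd hlo) (ne_zero_of_odd hlo.star)]
      have := ql_star (a := (a : R)) hlo
      rw [star_intCast] at this
      rw [this]; abel
    · rw [ql_prime _ (prime_inert hq h4)]
      exact qe_inert hq h4 (prime_inert hq h4)

lemma ql_rat {a n : ℤ} (hn : n % 2 = 1) (h : IsCoprime a n) : ql (a : R) (n : R) = 0 := by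
  have h1 : Associated (n : R) ((n.natAbs : ℕ) : R) := by
    rcases Int.natAbs_eq n with h2 | h2
    · have h3 : (n : R) = ((n.natAbs : ℕ) : R) := by
        conv_lhs => rw [h2]
        simp
      rw [h3]
    · have h3 : (n : R) = -((n.natAbs : ℕ) : R) := by
        conv_lhs => rw [h2]
        simp
      rw [h3]
      exact (Associated.refl _).neg_left
  rw [ql_assoc _ h1]
  apply ql_rat_aux
  · omega
  · rcases Int.natAbs_eq n with h2 | h2
    · rw [← h2]; exact h
    · have h3 : ((n.natAbs : ℕ) : ℤ) = -n := by omega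
      rw [h3]; exact h.neg_right

end Pool.Agent.helper84.Quartic
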