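import Pool.Agent.helper84.Quartic3

/-!
# Quartic reciprocity between rational integers and Gaussian integers
-/

set_option autoImplicit false

noncomputable section

namespace Pool.Agent.helper84.Quartic

open UniqueFactorizationMonoid

lemma unit_eq {u : R} (hu : IsUnit u) : ∃ e : ZMod 4, u = ip e := by
  have h := N_cast u
  rw [N_eq_one_iff.2 hu] at h
  push_cast at h
  have h1 : u.re ≤ 1 := by nlinarith [mul_self_nonneg u.im]
  have h2 : -1 ≤ u.re := by nlinarith [mul_self_nonneg u.im]
  have h3 : u.im ≤ 1 := by nlinarith [mul_self_nonneg u.re]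
  have h4 : -1 ≤ u.im := by nlinarith [mul_self_nonneg u.re]
  obtain ⟨a, b⟩ := u
  simp only at h h1 h2 h3 h4
  interval_cases a <;> interval_cases b <;> first
    | (exfalso; omega)
    | exact ⟨0, by decide⟩
    | exact ⟨1, by decide⟩
    | exact ⟨2, by decide⟩
    | exact ⟨3, by decide⟩

lemma isCoprime_of_int {a n : ℤ} (h : IsCoprime (a : R) (n : R)) : IsCoprime a n := by
  rw [Int.isCoprime_iff_gcd_eq_one]
  set g := Int.gcd a n with hg
  have h1 : ((g : ℤ) : R) ∣ (a : R) := by
    have := map_dvd (Int.castRingHom R) (Int.gcd_dvd_left a n)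
    simpa using this
  have h2 : ((g : ℤ) : R) ∣ (n : R) := by
    have := map_dvd (Int.castRingHom R) (Int.gcd_dvd_right a n)
    simpa using this
  have h3 : IsUnit ((g : ℤ) : R) := h.isUnit_of_dvd' h1 h2
  have h4 := N_eq_one_iff.2 h3
  have h5 := N_cast ((g : ℤ) : R)
  rw [h4] at h5
  simp at h5
  have h6 : (1 : ℕ) = g * g := by exact_mod_cast h5
  nlinarith

lemma ql_rat' {a n : ℤ} (hn : n % 2 = 1) (h : IsCoprime (a : R) (n : R)) :
    ql (a : R) (n : R) = 0 := ql_rat hn (isCoprime_of_int h)

/-- A Gaussian prime has prime norm or is associated to an inert rational prime. -/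
lemma classify {l : R} (hl : Prime l) (hlo : OddG l) :
    (∃ p : ℕ, p.Prime ∧ N l = p) ∨ (∃ p : ℕ, p.Prime ∧ p % 4 = 3 ∧ Associated (p : R) l) := by
  -- a rational prime divisible by l
  obtain ⟨p, hp, hlp⟩ : ∃ p : ℕ, p.Prime ∧ l ∣ (p : R) := by
    have key : ∀ n : ℕ, l ∣ (n : R) → n ≠ 0 → ∃ p : ℕ, p.Prime ∧ l ∣ (p : R) := by
      intro n
      refine induction_on_primes
        (motive := fun n : ℕ => l ∣ (n : R) → n ≠ 0 → ∃ p : ℕ, p.Prime ∧ l ∣ (p : R)) ?_ ?_ ?_ n
      · intro _ h; exact absurd rfl h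
      · intro h _
        exact absurd (isUnit_of_dvd_one (by simpa using h)) hl.not_isUnit
      · intro q m hq ih h hne
        push_cast at h
        rcases hl.dvd_or_dvd h with h1 | h1
        · exact ⟨q, hq, h1⟩
        · exact ih h1 (fun h2 => hne (by rw [h2, mul_zero]))
    exact key (N l) (dvd_N l) (N_pos hl.ne_zero).ne'
  have hp2 : p % 2 = 1 := by
    rcases hp.eq_two_or_odd with h | h
    · exfalso
      have h1 := N_dvd hlp
      have h2 : N ((p : ℕ) : R) = 4 := by
        rw [h]; decide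
      rw [h2] at h1
      have h3 := N_mod_four hlo
      have h4 : N l ≤ 4 := Nat.le_of_dvd (by norm_num) h1
      have h5 : N l ≠ 1 := fun h => hl.not_isUnit (N_eq_one_iff.1 h)
      interval_cases hh : N l <;> omega
    · exact h
  rcases (show p % 4 = 1 ∨ p % 4 = 3 by omega) with h4 | h4
  · left
    obtain ⟨m, hN, hm⟩ := exists_split_prime hp h4
    have hmp : Prime m := prime_of_norm hp hN
    rw [hm] at hlp
    refine ⟨p, hp, ?_⟩
    rcases hl.dvd_or_dvd hlp with h1 | h1
    · have h2 : Associated l m := hl.associated_of_dvd hmp h1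
      rw [← hN]; exact Nat.dvd_antisymm (N_dvd h2.dvd) (N_dvd h2.symm.dvd)
    · have h2 : Associated l (star m) := hl.associated_of_dvd (prime_star hmp) h1
      rw [← hN, ← N_star m]; exact Nat.dvd_antisymm (N_dvd h2.dvd) (N_dvd h2.symm.dvd)
  · right
    exact ⟨p, hp, h4, (hl.associated_of_dvd (prime_inert hp h4) hlp).symm⟩

lemma ql_neg_right (a n : R) : ql a (-n) = ql a n :=
  ql_assoc a (Associated.refl n).neg_left

lemma ql_neg_one_rat {n : ℤ} (hn : n % 2 = 1) : ql (-1) (n : R) = 0 := by
  have h := ql_rat (a := -1) hn (isCoprime_one_left.neg_left)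
  simpa using h

/-- quartic reciprocity between a rational prime and a split Gaussian prime -/
lemma rr_prime_split {q : ℕ} (hq : q.Prime) (hq2 : q % 2 = 1) {l : R} {p : ℕ} (hp : p.Prime)
    (hN : N l = p) (hlo : OddG l) (him : l.im % 2 = 0) (hc : IsCoprime (q : R) l) :
    (q % 4 = 1 → ql (q : R) l = ql l (q : R)) ∧ (q % 4 = 3 → ql (-(q : R)) l = ql l (q : R)) := by
  have hl : Prime l := prime_of_norm hp hN
  have : Fact (Prime l) := ⟨hl⟩
  have hpq : p ≠ q := by
    intro h
    have h1 : l ∣ (q : R) := by rw [← h, ← hN]; exact dvd_N l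
    exact hl.not_isUnit (hc.isUnit_of_dvd' h1 dvd_rfl)
  constructor
  · intro hq4
    obtain ⟨m, hNm, hm⟩ := exists_split_prime hq hq4
    have hmp : Prime m := prime_of_norm hq hNm
    have : Fact (Prime m) := ⟨hmp⟩
    have hmo : OddG m := (oddG_natCast.2 hq2).of_dvd (Dvd.intro _ hm.symm)
    have h1 := (gauss_data (l := l) (m := m) hlo hmo hp hN him hq (Dvd.intro _ hm.symm) hpq).1 hq4
    have hcm : IsCoprime m l := hc.of_isCoprime_of_dvd_left (Dvd.intro _ hm.symm)
    have hml : ¬ m ∣ l := fun h => hmp.not_isUnit (hcm.isUnit_of_dvd' dvd_rfl h)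
    have hcms : IsCoprime (star m) l := hc.of_isCoprime_of_dvd_left (Dvd.intro_left _ hm.symm)
    have hmls : ¬ m ∣ star l := by
      intro h
      have h2 : star m ∣ l := by rw [← star_dvd_star, star_star]; exact h
      exact (prime_star hmp).not_isUnit (hcms.isUnit_of_dvd' dvd_rfl h2)
    have hml3 : ¬ m ∣ l ^ 3 := fun h => hml (hmp.dvd_of_dvd_pow h)
    have hmall : ¬ m ∣ l ^ 3 * star l := fun h => (hmp.dvd_or_dvd h).elim hml3 hmls
    have h2 := qe_spec hmp hmo hmall
    rw [hNm] at h2
    have h3 : m ∣ ip (qe (q : R) l) * ip (qe (l ^ 3 * star l) m) - 1 := by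
      have h4 : ip (qe (q : R) l) * ip (qe (l ^ 3 * star l) m) - 1 =
        (ip (qe (q : R) l) * (l ^ 3 * star l) ^ ((q - 1) / 4) - 1) -
        ip (qe (q : R) l) * ((l ^ 3 * star l) ^ ((q - 1) / 4) - ip (qe (l ^ 3 * star l) m)) := by ring
      rw [h4]; exact dvd_sub h1 (h2.mul_left _)
    rw [← ip_add, ← ip_zero] at h3
    have h4 := ip_inj_mod hmo hmp.not_isUnit h3
    rw [qe_mul hmp hmo hml3 hmls, qe_pow hmp hmo hml] at h4
    have h5 : qe (star l) m = - qe l (star m) := by
      have := qe_star (prime_star hmp) hmo.star l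
      rw [star_star] at this; exact this
    rw [ql_prime _ hl, hm, ql_mul_right _ hmp.ne_zero (prime_star hmp).ne_zero, ql_prime _ hmp,
      ql_prime _ (prime_star hmp), ← hm]
    rw [h5] at h4
    have key : ∀ A B C : ZMod 4, A + (3 • B + -C) = 0 → A = B + C := by decide
    exact key _ _ _ h4
  · intro hq4
    have hqp : Prime (q : R) := prime_inert hq hq4
    have : Fact (Prime (q : R)) := ⟨hqp⟩
    have hqo : OddG (q : R) := oddG_natCast.2 hq2
    have h1 := (gauss_data (l := l) (m := (q : R)) hlo hqo hp hN him hq dvd_rfl hpq).2 hq4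
    have hql : ¬ (q : R) ∣ l := fun h => hqp.not_isUnit (hc.isUnit_of_dvd' dvd_rfl h)
    -- star l ≡ l ^ q mod q
    have hfr : red (q : R) (star l) = red (q : R) l ^ q := by
      have : Fact q.Prime := ⟨hq⟩
      have hch : CharP (R ⧸ Ideal.span {(q : R)}) q :=
        ringChar.of_eq (ringChar_eq (l := (q : R)) hq dvd_rfl)
      have h2 : l = (l.re : R) + (l.im : R) * ii := by
        apply Zsqrtd.ext <;> simp
      have h3 : star l = (l.re : R) + (l.im : R) * (-ii) := by
        apply Zsqrtd.ext <;> simp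
      have h4 : red (q : R) ii ^ q = red (q : R) (-ii) := by
        rw [← map_pow]
        congr 1
        rw [ii_pow_mod, hq4]; decide
      have h5 : ∀ z : ℤ, red (q : R) (z : R) ^ q = red (q : R) (z : R) := by
        intro z
        rw [map_intCast]
        have := ZMod.pow_card (z : ZMod q)
        have h6 := congrArg (ZMod.castHom (dvd_refl q) (R ⧸ Ideal.span {(q : R)})) this
        rw [map_pow, map_intCast] at h6
        exact h6
      rw [h3, map_add, map_mul]
      conv_rhs => rw [h2, map_add, map_mul, add_pow_char, mul_pow, h4, h5, h5]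
    have hl0 : red (q : R) l ≠ 0 := fun h => hql (red_eq_zero.1 h)
    have h2 : red (q : R) (l ^ ((N (q : R) - 1) / 4) - ip (qe (-(q : R)) l)) = 0 := by
      have h3 := red_eq_zero.2 h1
      rw [map_sub, map_mul, map_pow, map_mul, map_mul, map_pow, hfr] at h3
      have hNq : N (q : R) = q * q := by
        have := N_cast (q : R)
        simp at this
        exact_mod_cast this
      obtain ⟨k, hk⟩ : ∃ k, q = 4 * k + 3 := ⟨q / 4, by omega⟩
      have e1 : (red (q : R) l ^ 3 * red (q : R) l ^ q) ^ ((q + 1) / 4) =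
          red (q : R) l ^ ((N (q : R) - 1) / 4) * (red (q : R) l * red (q : R) l ^ q) := by
        rw [← pow_add, ← pow_mul, ← pow_succ', ← pow_add]
        congr 1
        rw [hNq, hk]
        have e2 : (4 * k + 3 + 1) / 4 = k + 1 := by omega
        rw [e2]
        have e3 : (4 * k + 3) * (4 * k + 3) - 1 = 4 * ((4 * k + 2) * (k + 1)) := by
          have : (4 * k + 3) * (4 * k + 3) = 4 * ((4 * k + 2) * (k + 1)) + 1 := by ring
          omega
        rw [e3, Nat.mul_div_cancel_left _ (by norm_num)]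
        ring
      rw [e1] at h3
      have h4 : (red (q : R) l * red (q : R) l ^ q) ≠ 0 := mul_ne_zero hl0 (pow_ne_zero _ hl0)
      apply mul_right_cancel₀ h4
      rw [zero_mul, map_sub, map_pow, sub_mul]
      exact h3
    have h3 := qe_eq hqp hqo (red_eq_zero.1 h2)
    rw [ql_prime _ hl, ql_prime _ hqp, h3]

/-- `n` with sign chosen so that it is `1` modulo `4` (for `n` odd). -/
def nst (n : ℕ) : ℤ := if n % 4 = 1 then (n : ℤ) else -(n : ℤ)

lemma nst_mul {m n : ℕ} (hm : m % 2 = 1) (hn : n % 2 = 1) : nst (m * n) = nst m * nst n := by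
  unfold nst
  rcases (show m % 4 = 1 ∨ m % 4 = 3 by omega) with h1 | h1 <;>
  rcases (show n % 4 = 1 ∨ n % 4 = 3 by omega) with h2 | h2 <;>
  simp [Nat.mul_mod, h1, h2]

lemma nst_mod {n : ℕ} (hn : n % 2 = 1) : nst n % 4 = 1 := by
  unfold nst; split_ifs <;> omega

lemma natAbs_nst (n : ℕ) : (nst n).natAbs = n := by
  unfold nst; split_ifs <;> simp

lemma nst_cases (n : ℕ) : nst n = n ∨ nst n = -n := by
  unfold nst; split_ifs <;> simp

lemma assoc_nst (n : ℕ) : Associated (n : R) (nst n : R) := by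
  rcases nst_cases n with h | h <;> rw [h]
  · simp
  · push_cast; exact (Associated.refl _).neg_right

lemma isCoprime_nst {n : ℕ} {m : R} : IsCoprime (nst n : R) m ↔ IsCoprime (n : R) m := by
  rcases nst_cases n with h | h <;> rw [h]
  · simp
  · push_cast; exact IsCoprime.neg_left_iff _ _

lemma zmod4_cases : ∀ e : ZMod 4, e = 0 ∨ e = 1 ∨ e = 2 ∨ e = 3 := by decide

lemma isCoprime_unit {u n : R} (hu : IsUnit u) : IsCoprime u n := by
  simpa using (isCoprime_mul_unit_left_left hu 1 n).2 isCoprime_one_left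

lemma isUnit_ii : IsUnit ii := isUnit_ip 1

/-- The exponent of `(i / n)_4` for rational `n` is `2`-torsion. -/
lemma two_ql_ii_rat {n : ℤ} (hn : n % 2 = 1) : 2 * ql ii (n : R) = 0 := by
  have h := ql_star (a := ii) (n := (n : R)) (oddG_intCast.2 hn)
  rw [star_intCast] at h
  have h1 : star ii = -1 * ii := by decide
  rw [h1, ql_mul_left (oddG_intCast.2 hn) (isCoprime_unit isUnit_one.neg) (isCoprime_unit isUnit_ii),
    ql_neg_one_rat hn, zero_add] at h
  rw [two_mul]
  nth_rewrite 1 [h]
  simp

lemma tors (k : ℤ) {c : ZMod 4} (hc : 2 * c = 0) : (k : ZMod 4) * c = ((k % 2 : ℤ) : ZMod 4) * c := by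
  conv_lhs => rw [← Int.emod_add_mul_ediv k 2]
  push_cast
  rw [add_mul, mul_assoc, mul_comm ((k / 2 : ℤ) : ZMod 4) c, ← mul_assoc, hc, zero_mul, add_zero]

lemma tors_eq {k k' : ℤ} {c : ZMod 4} (hc : 2 * c = 0) (h : k % 2 = k' % 2) :
    (k : ZMod 4) * c = (k' : ZMod 4) * c := by
  rw [tors k hc, tors k' hc, h]

/-- reciprocity between a rational prime and a Gaussian prime with even imaginary part -/
lemma rr_prime {q : ℕ} (hq : q.Prime) (hq2 : q % 2 = 1) {l : R} (hl : Prime l)
    (hlo : OddG l) (him : l.im % 2 = 0) (hc : IsCoprime (q : R) l) :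
    ql (nst q : R) l = ql l (q : R) := by
  rcases classify hl hlo with ⟨p, hp, hN⟩ | ⟨p, hp, hp4, hass⟩
  · obtain ⟨h1, h2⟩ := rr_prime_split hq hq2 hp hN hlo him hc
    unfold nst
    split_ifs with h
    · rw [Int.cast_natCast]; exact h1 h
    · push_cast; exact h2 (by omega)
  · have hcp : IsCoprime (q : R) (p : R) := hc.of_isCoprime_of_dvd_right hass.dvd
    have hp2 : (p : ℤ) % 2 = 1 := by omega
    have hq2' : (q : ℤ) % 2 = 1 := by omega
    have e1 : ql (nst q : R) l = 0 := by
      rw [← ql_assoc _ hass]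
      have := ql_rat' (a := nst q) (n := (p : ℤ)) hp2 (by
        rw [Int.cast_natCast]; exact isCoprime_nst.2 hcp)
      rwa [Int.cast_natCast] at this
    rw [e1]
    obtain ⟨u, hu⟩ := hass
    have hpq : ql (p : R) (q : R) = 0 := by
      have := ql_rat' (a := (p : ℤ)) (n := (q : ℤ)) hq2' (by
        rw [Int.cast_natCast, Int.cast_natCast]; exact hcp.symm)
      rwa [Int.cast_natCast, Int.cast_natCast] at this
    have hu' : ql (u : R) (q : R) = 0 := by
      obtain ⟨e, he⟩ := unit_eq u.isUnit
      rw [he]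
      rw [← hu, he] at him
      have h0 := ql_one (n := (q : R)) (oddG_natCast.2 hq2)
      have h2 : ql (-1) (q : R) = 0 := by
        have := ql_neg_one_rat hq2'
        rwa [Int.cast_natCast] at this
      have e1 : ip 1 = ii := by decide
      have e2 : ip 2 = -1 := by decide
      have e3 : ip 3 = -ii := by decide
      have hcases : e = 0 ∨ e = 1 ∨ e = 2 ∨ e = 3 := zmod4_cases e
      rcases hcases with rfl | rfl | rfl | rfl
      · rw [ip_zero]; exact h0
      · exfalso; rw [e1] at him; simp at him; omega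
      · rw [e2]; exact h2
      · exfalso; rw [e3] at him; simp at him; omega
    rw [← hu, ql_mul_left (oddG_natCast.2 hq2) hcp.symm (isCoprime_unit u.isUnit), hpq, hu', add_zero]

lemma rr_q {q : ℕ} (hq : q.Prime) (hq2 : q % 2 = 1) {m : R} (hm : OddG m) :
    IsCoprime (q : R) m → ql (nst q : R) m = ql m (q : R) + (m.im : ZMod 4) * ql ii (q : R) := by
  have hq2' : (q : ℤ) % 2 = 1 := by omega
  have hqo : OddG (q : R) := oddG_natCast.2 hq2
  have h2t : 2 * ql ii (q : R) = 0 := by
    have := two_ql_ii_rat hq2'; rwa [Int.cast_natCast] at this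
  refine odd_induction (P := fun m => IsCoprime (q : R) m →
    ql (nst q : R) m = ql m (q : R) + (m.im : ZMod 4) * ql ii (q : R)) ?_ ?_ hm
  · intro u hu _
    rw [ql_unit_right _ hu]
    obtain ⟨e, he⟩ := unit_eq hu
    rw [he]
    have h0 := ql_one (n := (q : R)) hqo
    have h2 : ql (-1) (q : R) = 0 := by
      have := ql_neg_one_rat hq2'
      rwa [Int.cast_natCast] at this
    have e1 : ip 1 = ii := by decide
    have e2 : ip 2 = -1 := by decide
    have e3 : ip 3 = -1 * ii := by decide
    have hcases : e = 0 ∨ e = 1 ∨ e = 2 ∨ e = 3 := zmod4_cases e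
    rcases hcases with rfl | rfl | rfl | rfl
    · rw [ip_zero, h0]; simp
    · rw [e1]; simp only [ii_im, Int.cast_one, one_mul]; rw [← two_mul, h2t]
    · rw [e2, h2]; simp
    · rw [e3, ql_mul_left hqo (isCoprime_unit isUnit_one.neg) (isCoprime_unit isUnit_ii), h2]
      simp
  · intro a l hl hlo hao ih hc
    have hcl : IsCoprime (q : R) l := hc.of_mul_right_left
    have hca : IsCoprime (q : R) a := hc.of_mul_right_right
    rw [ql_mul_right _ hl.ne_zero (ne_zero_of_odd hao), ih hca,
      ql_mul_left hqo hcl.symm hca.symm]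
    have hl1 : ql (nst q : R) l = ql l (q : R) + (l.im : ZMod 4) * ql ii (q : R) := by
      rcases Int.emod_two_eq_zero_or_one l.im with h | h
      · rw [rr_prime hq hq2 hl hlo h hcl, tors_eq (k := l.im) (k' := 0) h2t (by rw [h]; rfl)]
        simp
      · have hass : Associated l (ii * l) := (associated_unit_mul_right l ii isUnit_ii)
        have hlo' : OddG (ii * l) := oddG_ii.mul hlo
        have him' : (ii * l).im % 2 = 0 := by
          simp; unfold OddG at hlo; omega
        have hc' : IsCoprime (q : R) (ii * l) := hcl.of_isCoprime_of_dvd_right hass.symm.dvd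
        rw [ql_assoc _ hass, rr_prime hq hq2 (hass.prime hl) hlo' him' hc',
          ql_mul_left hqo (isCoprime_unit isUnit_ii) hcl.symm,
          tors_eq (k := l.im) (k' := 1) h2t (by rw [h]; rfl)]
        push_cast; ring
    rw [hl1]
    have h3 : (((l * a).im : ℤ) : ZMod 4) * ql ii (q : R) = ((l.im + a.im : ℤ) : ZMod 4) * ql ii (q : R) := by
      apply tors_eq h2t
      simp only [Zsqrtd.im_mul]
      unfold OddG at hlo hao
      obtain ⟨x, hx⟩ : ∃ x, l.re = 1 + l.im + 2 * x := ⟨(l.re - 1 - l.im) / 2, by omega⟩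
      obtain ⟨y, hy⟩ : ∃ y, a.re = 1 + a.im + 2 * y := ⟨(a.re - 1 - a.im) / 2, by omega⟩
      rw [hx, hy]
      have : (1 + l.im + 2 * x) * a.im + l.im * (1 + a.im + 2 * y) =
        (l.im + a.im) + 2 * (l.im * a.im + x * a.im + l.im * y) := by ring
      rw [this]; omega
    rw [h3]; push_cast; ring

lemma rr_nat (n : ℕ) : n % 2 = 1 → ∀ {m : R}, OddG m → IsCoprime (n : R) m →
    ql (nst n : R) m = ql m (n : R) + (m.im : ZMod 4) * ql ii (n : R) := by
  refine induction_on_primes (motive := fun n : ℕ => n % 2 = 1 → ∀ {m : R}, OddG m →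
    IsCoprime (n : R) m →
    ql (nst n : R) m = ql m (n : R) + (m.im : ZMod 4) * ql ii (n : R)) ?_ ?_ ?_ n
  · intro h; norm_num at h
  · intro _ m hm _
    have : nst 1 = 1 := by decide
    rw [this, Nat.cast_one, Int.cast_one, ql_one hm, ql_unit_right _ isUnit_one,
      ql_unit_right _ isUnit_one]; simp
  · intro q k hq ih hodd m hm hc
    have hqo : q % 2 = 1 := by
      rcases Nat.mod_two_eq_zero_or_one q with h | h
      · rw [Nat.mul_mod, h] at hodd; norm_num at hodd
      · exact h
    have hko : k % 2 = 1 := by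
      rcases Nat.mod_two_eq_zero_or_one k with h | h
      · rw [Nat.mul_mod, h] at hodd; norm_num at hodd
      · exact h
    push_cast at hc ⊢
    have hc1 : IsCoprime (q : R) m := hc.of_mul_left_left
    have hc2 : IsCoprime (k : R) m := hc.of_mul_left_right
    rw [nst_mul hqo hko]
    push_cast
    rw [ql_mul_left hm (isCoprime_nst.2 hc1) (isCoprime_nst.2 hc2), rr_q hq hqo hm hc1,
      ih hko hm hc2, ql_mul_right _ (ne_zero_of_odd (oddG_natCast.2 hqo))
      (ne_zero_of_odd (oddG_natCast.2 hko)), ql_mul_right _ (ne_zero_of_odd (oddG_natCast.2 hqo))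
      (ne_zero_of_odd (oddG_natCast.2 hko))]
    ring

/-- Reciprocity for an arbitrary odd rational integer `s` and an odd `m` with even imaginary
part. -/
lemma rr_int {s : ℤ} (hs : s % 2 = 1) {m : R} (hm : OddG m) (him : m.im % 2 = 0)
    (hc : IsCoprime (s : R) m) :
    ql (s : R) m = ql m (s : R) + ((s - 1 : ℤ) : ZMod 4) * ql ii m := by
  set n := s.natAbs with hn
  have hn2 : n % 2 = 1 := by omega
  have hsn : s = nst n ∨ s = - nst n := by
    rcases nst_cases n with h | h <;> rw [h] <;> omega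
  have hass : Associated (n : R) (s : R) := by
    rcases hsn with h | h
    · rw [h]; exact assoc_nst n
    · rw [h]; push_cast; exact (assoc_nst n).neg_right
  have hcn : IsCoprime (n : R) m := hc.of_isCoprime_of_dvd_left hass.dvd
  have h2t : 2 * ql ii (n : R) = 0 := by
    have := two_ql_ii_rat (n := (n : ℤ)) (by omega); rwa [Int.cast_natCast] at this
  have h1 := rr_nat n hn2 hm hcn
  rw [tors_eq (k := m.im) (k' := 0) h2t (by rw [him]; rfl)] at h1
  simp only [Int.cast_zero, zero_mul, add_zero] at h1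
  have h3 := nst_mod hn2
  rw [← ql_assoc m hass]
  rcases hsn with h | h
  · rw [h, h1]
    have h4 : ((nst n - 1 : ℤ) : ZMod 4) = 0 := by
      rw [ZMod.intCast_zmod_eq_zero_iff_dvd]; omega
    rw [h4, zero_mul, add_zero]
  · have h4 : ((-nst n - 1 : ℤ) : ZMod 4) = 2 := by
      have : ((-nst n - 1 : ℤ) : ZMod 4) = ((2 : ℤ) : ZMod 4) := by
        rw [ZMod.intCast_eq_intCast_iff_dvd_sub]; omega
      rw [this]; rfl
    have h5 : ((-nst n : ℤ) : R) = (ii * ii) * (nst n : R) := by rw [ii_mul_ii]; push_cast; ring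
    rw [h, h4, h5, ql_mul_left hm ((isCoprime_unit isUnit_ii).mul_left (isCoprime_unit isUnit_ii))
      (isCoprime_nst.2 hcn), ql_mul_left hm (isCoprime_unit isUnit_ii) (isCoprime_unit isUnit_ii), h1]
    ring

end Pool.Agent.helper84.Quartic
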