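import Pool.Agent.helper84.Quartic4

/-!
# The law of quartic reciprocity and its supplements
-/

set_option autoImplicit false

noncomputable section

namespace Pool.Agent.helper84.Quartic

open UniqueFactorizationMonoid

lemma isCoprime_star {a b : R} (h : IsCoprime a b) : IsCoprime (star a) (star b) := by
  have := h.map (starRingEnd R); rwa [starRingEnd_apply, starRingEnd_apply] at this

/-- normal form of the elements with odd real part and even imaginary part -/
abbrev g (x y : ℤ) : R := ⟨2 * x + 1, 2 * y⟩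

lemma odd_g (x y : ℤ) : OddG (g x y) := by unfold OddG g; simp

lemma im_g (x y : ℤ) : (g x y).im % 2 = 0 := by simp

lemma ql_ii_g (x y : ℤ) : ql ii (g x y) = ((x ^ 2 + x + y ^ 2 : ℤ) : ZMod 4) := by
  rw [ql_ii (odd_g x y)]
  have h1 := N_mul_four (odd_g x y)
  have h2 := N_cast (g x y)
  simp only at h2
  have h3 : (((N (g x y) - 1) / 4 : ℕ) : ℤ) = x ^ 2 + x + y ^ 2 := by
    have h4 : (4 : ℤ) * (((N (g x y) - 1) / 4 : ℕ) : ℤ) + 1 = N (g x y) := by exact_mod_cast h1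
    rw [h2] at h4
    linarith
  rw [← h3, Int.cast_natCast]

lemma intCast_eq_g (x : ℤ) : ((2 * x + 1 : ℤ) : R) = g x 0 := by
  apply Zsqrtd.ext <;> simp [g]

lemma ql_ii_rat (x : ℤ) : ql ii ((2 * x + 1 : ℤ) : R) = ((x ^ 2 + x : ℤ) : ZMod 4) := by
  rw [intCast_eq_g, ql_ii_g]; simp

/-- reciprocity for primitive elements -/
lemma recip_prim (x y z w : ℤ) (h1 : IsCoprime (2 * x + 1) (2 * y))
    (h2 : IsCoprime (2 * z + 1) (2 * w)) (hc : IsCoprime (g x y) (g z w)) :
    ql (g x y) (g z w) = ql (g z w) (g x y) + ((2 * (x * w + z * y + y * w) : ℤ) : ZMod 4) := by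
  set m := g x y with hm
  set n := g z w with hn
  have hmo : OddG m := odd_g x y
  have hno : OddG n := odd_g z w
  have him : m.im % 2 = 0 := im_g x y
  have hin : n.im % 2 = 0 := im_g z w
  set t : ℤ := 2 * (2 * x * z + x + z + 2 * (y * w)) + 1 with ht
  have e1 : ((2 * z + 1 : ℤ) : R) * m - (t : R) = ((2 * y : ℤ) : R) * ii * n := by
    rw [hm, hn, ht]; apply Zsqrtd.ext <;> simp [g] <;> ring
  have e2 : ((2 * x + 1 : ℤ) : R) * n - (t : R) = ((2 * w : ℤ) : R) * ii * m := by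
    rw [hm, hn, ht]; apply Zsqrtd.ext <;> simp [g] <;> ring
  have e3 : n * star m - (((2 * x + 1) * (2 * w) - (2 * y) * (2 * z + 1) : ℤ) : R) * ii = (t : R) := by
    rw [hm, hn, ht]; apply Zsqrtd.ext <;> simp [g] <;> ring
  have e4 : n = ((2 * z + 1 : ℤ) : R) + ((2 * w : ℤ) : R) * ii := by
    rw [hn]; apply Zsqrtd.ext <;> simp [g]
  have e5 : m = ((2 * x + 1 : ℤ) : R) + ((2 * y : ℤ) : R) * ii := by
    rw [hm]; apply Zsqrtd.ext <;> simp [g]
  have hzo : (2 * z + 1) % 2 = 1 := by omega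
  have hxo : (2 * x + 1) % 2 = 1 := by omega
  have hto : t % 2 = 1 := by omega
  -- coprimality facts
  have c0 : IsCoprime ((2 * z + 1 : ℤ) : R) (((2 * w : ℤ) : R) * ii) :=
    (isCoprime_intCast h2).mul_right (isCoprime_unit isUnit_ii).symm
  have c0' : IsCoprime ((2 * x + 1 : ℤ) : R) (((2 * y : ℤ) : R) * ii) :=
    (isCoprime_intCast h1).mul_right (isCoprime_unit isUnit_ii).symm
  have c1 : IsCoprime ((2 * z + 1 : ℤ) : R) n := by
    have h3 := c0.add_mul_left_right 1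
    rw [mul_one] at h3; rw [e4, add_comm ((2 * z + 1 : ℤ) : R)]; exact h3
  have c2 : IsCoprime ((2 * x + 1 : ℤ) : R) m := by
    have h3 := c0'.add_mul_left_right 1
    rw [mul_one] at h3; rw [e5, add_comm ((2 * x + 1 : ℤ) : R)]; exact h3
  have c3 : IsCoprime (t : R) n := by
    have h3 : IsCoprime (((2 * z + 1 : ℤ) : R) * m) n := c1.mul_left hc
    have h4 : (t : R) = ((2 * z + 1 : ℤ) : R) * m + n * (-(((2 * y : ℤ) : R) * ii)) := by
      linear_combination -e1
    rw [h4]; exact h3.add_mul_left_left _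
  have c4 : IsCoprime (t : R) m := by
    have h3 : IsCoprime (((2 * x + 1 : ℤ) : R) * n) m := c2.mul_left hc.symm
    have h4 : (t : R) = ((2 * x + 1 : ℤ) : R) * n + m * (-(((2 * w : ℤ) : R) * ii)) := by
      linear_combination -e2
    rw [h4]; exact h3.add_mul_left_left _
  have c5 : IsCoprime (star m) (t : R) := by
    have := isCoprime_star c4.symm
    rwa [star_intCast] at this
  have c6 : IsCoprime ((((2 * x + 1) * (2 * w) - (2 * y) * (2 * z + 1) : ℤ) : R) * ii) (t : R) := by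
    have h3 : IsCoprime (n * star m) (t : R) := c3.symm.mul_left c5
    have h4 : (((2 * x + 1) * (2 * w) - (2 * y) * (2 * z + 1) : ℤ) : R) * ii =
      n * star m + (t : R) * (-1) := by linear_combination -e3
    rw [h4]; exact h3.add_mul_left_left _
  -- symbol computations
  have s1 : ql ((2 * z + 1 : ℤ) : R) n + ql m n = ql (t : R) n := by
    rw [← ql_mul_left hno c1 hc]
    exact ql_congr hno ⟨((2 * y : ℤ) : R) * ii, by rw [e1]; ring⟩
  have s2 : ql ((2 * x + 1 : ℤ) : R) m + ql n m = ql (t : R) m := by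
    rw [← ql_mul_left hmo c2 hc.symm]
    exact ql_congr hmo ⟨((2 * w : ℤ) : R) * ii, by rw [e2]; ring⟩
  have s3 := rr_int hto hno hin c3
  have s4 := rr_int hto hmo him c4
  have s5 := rr_int hzo hno hin c1
  have s6 := rr_int hxo hmo him c2
  have s7 : ql n ((2 * z + 1 : ℤ) : R) = ql ii ((2 * z + 1 : ℤ) : R) := by
    have h3 : ql n ((2 * z + 1 : ℤ) : R) = ql (((2 * w : ℤ) : R) * ii) ((2 * z + 1 : ℤ) : R) := by
      apply ql_congr (oddG_intCast.2 hzo)
      rw [e4]; exact ⟨1, by ring⟩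
    rw [h3, ql_mul_left (oddG_intCast.2 hzo) (isCoprime_intCast h2).symm (isCoprime_unit isUnit_ii),
      ql_rat hzo h2.symm, zero_add]
  have s8 : ql m ((2 * x + 1 : ℤ) : R) = ql ii ((2 * x + 1 : ℤ) : R) := by
    have h3 : ql m ((2 * x + 1 : ℤ) : R) = ql (((2 * y : ℤ) : R) * ii) ((2 * x + 1 : ℤ) : R) := by
      apply ql_congr (oddG_intCast.2 hxo)
      rw [e5]; exact ⟨1, by ring⟩
    rw [h3, ql_mul_left (oddG_intCast.2 hxo) (isCoprime_intCast h1).symm (isCoprime_unit isUnit_ii),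
      ql_rat hxo h1.symm, zero_add]
  have s9 : ql n (t : R) - ql m (t : R) = ql ii (t : R) := by
    have h3 : ql (star m) (t : R) = - ql m (t : R) := by
      have := ql_star (a := m) (n := (t : R)) (oddG_intCast.2 hto)
      rwa [star_intCast] at this
    have h4 : ql (n * star m) (t : R) = ql n (t : R) + ql (star m) (t : R) :=
      ql_mul_left (oddG_intCast.2 hto) c3.symm c5
    have h5 : ql (n * star m) (t : R) =
        ql ((((2 * x + 1) * (2 * w) - (2 * y) * (2 * z + 1) : ℤ) : R) * ii) (t : R) := by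
      apply ql_congr (oddG_intCast.2 hto)
      exact ⟨1, by rw [e3]; ring⟩
    rw [ql_mul_left (oddG_intCast.2 hto) (c6.of_mul_left_left) (isCoprime_unit isUnit_ii),
      ql_rat' hto c6.of_mul_left_left, zero_add, h4, h3] at h5
    rw [← h5]; ring
  have s10 : ql ii n = ((z ^ 2 + z + w ^ 2 : ℤ) : ZMod 4) := ql_ii_g z w
  have s11 : ql ii m = ((x ^ 2 + x + y ^ 2 : ℤ) : ZMod 4) := ql_ii_g x y
  have s12 := ql_ii_rat x
  have s13 := ql_ii_rat z
  have s14 : ql ii (t : R) = (((2 * x * z + x + z + 2 * (y * w)) ^ 2 +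
    (2 * x * z + x + z + 2 * (y * w)) : ℤ) : ZMod 4) := ql_ii_rat _
  rw [s7, s13, s10] at s5
  rw [s8, s12, s11] at s6
  rw [s14] at s9
  rw [s10] at s3
  rw [s11] at s4
  have key : ql m n - ql n m = ((2 * (x * w + z * y + y * w) : ℤ) : ZMod 4) := by
    have h3 : ql m n - ql n m = (ql n (t : R) - ql m (t : R)) +
        ((t - 1 : ℤ) : ZMod 4) * (((z ^ 2 + z + w ^ 2 : ℤ) : ZMod 4) - ((x ^ 2 + x + y ^ 2 : ℤ) : ZMod 4))
        - (((z ^ 2 + z : ℤ) : ZMod 4) + ((2 * z + 1 - 1 : ℤ) : ZMod 4) * ((z ^ 2 + z + w ^ 2 : ℤ) : ZMod 4))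
        + (((x ^ 2 + x : ℤ) : ZMod 4) + ((2 * x + 1 - 1 : ℤ) : ZMod 4) * ((x ^ 2 + x + y ^ 2 : ℤ) : ZMod 4)) := by
      linear_combination s1 - s2 + s3 - s4 - s5 + s6
    rw [h3, s9, ht]
    push_cast
    generalize (x : ZMod 4) = X
    generalize (y : ZMod 4) = Y
    generalize (z : ZMod 4) = Z
    generalize (w : ZMod 4) = W
    revert X Y Z W
    decide
  rw [← key]; ring

lemma reduce (x y : ℤ) : ∃ k x' y' : ℤ, x = 2 * k * x' + k + x' ∧ y = (2 * k + 1) * y' ∧
    IsCoprime (2 * x' + 1) (2 * y') := by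
  set h : ℕ := Int.gcd (2 * x + 1) (2 * y) with hh
  have hne : (2 * x + 1) ≠ 0 := by omega
  have hpos : 0 < h := Int.gcd_pos_of_ne_zero_left _ hne
  obtain ⟨a, ha⟩ : (h : ℤ) ∣ 2 * x + 1 := Int.gcd_dvd_left _ _
  obtain ⟨b, hb⟩ : (h : ℤ) ∣ 2 * y := Int.gcd_dvd_right _ _
  have ho : (h : ℤ) % 2 = 1 := by
    rcases Int.emod_two_eq_zero_or_one (h : ℤ) with h0 | h0
    · exfalso
      obtain ⟨c, hc⟩ : (2 : ℤ) ∣ (h : ℤ) := Int.dvd_of_emod_eq_zero h0
      rw [hc] at ha
      have : 2 * x + 1 = 2 * (c * a) := by rw [ha]; ring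
      omega
    · exact h0
  have hao : a % 2 = 1 := by
    rcases Int.emod_two_eq_zero_or_one a with h0 | h0
    · exfalso
      obtain ⟨c, hc⟩ : (2 : ℤ) ∣ a := Int.dvd_of_emod_eq_zero h0
      rw [hc] at ha
      have : 2 * x + 1 = 2 * (h * c) := by rw [ha]; ring
      omega
    · exact h0
  have hbe : (2 : ℤ) ∣ b := by
    have h2 : (2 : ℤ) ∣ h * b := by rw [← hb]; exact Dvd.intro _ rfl
    rcases Int.prime_two.dvd_or_dvd h2 with h3 | h3
    · omega
    · exact h3
  obtain ⟨k, hk⟩ : ∃ k, (h : ℤ) = 2 * k + 1 := ⟨(h : ℤ) / 2, by omega⟩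
  obtain ⟨x', hx'⟩ : ∃ x', a = 2 * x' + 1 := ⟨a / 2, by omega⟩
  obtain ⟨y', hy'⟩ := hbe
  refine ⟨k, x', y', ?_, ?_, ?_⟩
  · rw [hk, hx'] at ha; nlinarith
  · rw [hk, hy'] at hb; nlinarith
  · rw [← hx', ← hy', Int.isCoprime_iff_gcd_eq_one]
    have h3 : a = (2 * x + 1) / h := by
      rw [ha]; exact (Int.mul_ediv_cancel_left _ (by omega)).symm
    have h4 : b = (2 * y) / h := by
      rw [hb]; exact (Int.mul_ediv_cancel_left _ (by omega)).symm
    rw [h3, h4]
    exact Int.gcd_ediv_gcd_ediv_gcd hpos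

lemma g_reduce (k x' y' : ℤ) :
    g (2 * k * x' + k + x') ((2 * k + 1) * y') = ((2 * k + 1 : ℤ) : R) * g x' y' := by
  apply Zsqrtd.ext <;> simp [g] <;> ring

lemma recip_prim_right (x y z w : ℤ)
    (h2 : IsCoprime (2 * z + 1) (2 * w)) (hc : IsCoprime (g x y) (g z w)) :
    ql (g x y) (g z w) = ql (g z w) (g x y) + ((2 * (x * w + z * y + y * w) : ℤ) : ZMod 4) := by
  obtain ⟨k, x', y', hx, hy, hcop⟩ := reduce x y
  subst hx hy
  rw [g_reduce] at hc ⊢
  have hco : (2 * k + 1) % 2 = 1 := by omega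
  have c1 : IsCoprime ((2 * k + 1 : ℤ) : R) (g z w) := hc.of_mul_left_left
  have c2 : IsCoprime (g x' y') (g z w) := hc.of_mul_left_right
  have r1 := rr_int hco (odd_g z w) (im_g z w) c1
  have r2 := recip_prim x' y' z w hcop h2 c2
  rw [ql_mul_left (odd_g z w) c1 c2, ql_mul_right _ (ne_zero_of_odd (oddG_intCast.2 hco))
    (ne_zero_of_odd (odd_g x' y')), r1, r2, ql_ii_g]
  push_cast
  generalize ql (g z w) (2 * (k : R) + 1) = A
  generalize ql (g z w) (g x' y') = B
  have key : ∀ K X Y Z W : ZMod 4, (2 * K + 1 - 1) * (Z ^ 2 + Z + W ^ 2) + 2 * (X * W + Z * Y + Y * W) =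
    2 * ((2 * K * X + K + X) * W + Z * ((2 * K + 1) * Y) + (2 * K + 1) * Y * W) := by decide
  linear_combination key (k : ZMod 4) x' y' z w

/-- **The law of quartic reciprocity**, for coprime Gaussian integers with odd real and even
imaginary parts. -/
theorem recip (x y z w : ℤ) (hc : IsCoprime (g x y) (g z w)) :
    ql (g x y) (g z w) = ql (g z w) (g x y) + ((2 * (x * w + z * y + y * w) : ℤ) : ZMod 4) := by
  obtain ⟨k, z', w', hz, hw, hcop⟩ := reduce z w
  subst hz hw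
  rw [g_reduce] at hc ⊢
  have hco : (2 * k + 1) % 2 = 1 := by omega
  have c1 : IsCoprime (g x y) ((2 * k + 1 : ℤ) : R) := hc.of_mul_right_left
  have c2 : IsCoprime (g x y) (g z' w') := hc.of_mul_right_right
  have r1 := rr_int hco (odd_g x y) (im_g x y) c1.symm
  have r2 := recip_prim_right x y z' w' hcop c2
  rw [ql_mul_left (odd_g x y) c1.symm c2.symm, ql_mul_right _ (ne_zero_of_odd (oddG_intCast.2 hco))
    (ne_zero_of_odd (odd_g z' w')), r1, r2, ql_ii_g]
  push_cast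
  generalize ql (g x y) (2 * (k : R) + 1) = A
  generalize ql (g z' w') (g x y) = B
  have key : ∀ K X Y Z W : ZMod 4, 2 * (X * W + Z * Y + Y * W) =
    (2 * K + 1 - 1) * (X ^ 2 + X + Y ^ 2) +
    2 * (X * ((2 * K + 1) * W) + (2 * K * Z + K + Z) * Y + Y * ((2 * K + 1) * W)) := by decide
  linear_combination key (k : ZMod 4) x y z' w'

end Pool.Agent.helper84.Quartic
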