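import Pool.Agent.helper84.Quartic5

/-!
# Supplementary laws: the quartic characters of `1 + i` and `2`
-/

set_option autoImplicit false

noncomputable section

namespace Pool.Agent.helper84.Quartic

open UniqueFactorizationMonoid

/-- The Gaussian integer `1 + i`. -/
def pp : R := ⟨1, 1⟩

lemma star_pp : star pp = ⟨1, -1⟩ := by decide
lemma pp_eq : pp = ii * star pp := by decide
lemma two_eq : (2 : R) = (ii * ii * ii) * (pp * pp) := by decide

lemma N_pp : N pp = 2 := by decide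

lemma not_dvd_pp {l : R} (hl : Prime l) (hlo : OddG l) : ¬ l ∣ pp := by
  intro h
  have h1 := N_dvd h
  rw [N_pp] at h1
  have h2 := N_mod_four hlo
  have h3 : N l ≤ 2 := Nat.le_of_dvd (by norm_num) h1
  have h4 : N l ≠ 1 := fun h => hl.not_isUnit (N_eq_one_iff.1 h)
  interval_cases hh : N l <;> omega

lemma isCoprime_pp {n : R} (hn : OddG n) : IsCoprime pp n := by
  have h2 : Prime pp := prime_of_norm Nat.prime_two N_pp
  rw [h2.irreducible.coprime_iff_not_dvd]
  intro h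
  have h3 := hn.of_dvd h
  exact absurd h3 (by unfold OddG pp; decide)

lemma isCoprime_star_pp {n : R} (hn : OddG n) : IsCoprime (star pp) n := by
  have := isCoprime_star (isCoprime_pp hn.star)
  rwa [star_star] at this

/-- `(s - 1) / 4` for the sign choice `s ≡ 1 (mod 4)`, where `s = ± (2 u + 1)`. -/
def Lf (u : ℤ) : ℤ := if u % 2 = 0 then u / 2 else -(u + 1) / 2

lemma Lf_nat_even {n : ℕ} (hn : n % 2 = 1) : Lf ((n : ℤ) / 2) = (nst n - 1) / 4 := by
  unfold Lf nst
  split_ifs <;> omega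

lemma Lf_spec (u : ℤ) : ∃ v : ℤ, Lf u = v ∧ (u = 2 * v ∨ u = -2 * v - 1) := by
  refine ⟨Lf u, rfl, ?_⟩
  unfold Lf; split_ifs <;> omega

lemma Lf_two_mul (v : ℤ) : Lf (2 * v) = v := by unfold Lf; split_ifs <;> omega
lemma Lf_odd (v : ℤ) : Lf (-2 * v - 1) = v := by unfold Lf; split_ifs <;> omega

/-- multiplicativity of `Lf` -/
lemma Lf_mul (k u : ℤ) : ((Lf (2 * k * u + k + u) : ℤ) : ZMod 4) = (Lf k : ZMod 4) + (Lf u : ZMod 4) := by
  have h4 : (4 : ZMod 4) = 0 := by decide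
  obtain ⟨a, ha, ha'⟩ := Lf_spec k
  obtain ⟨b, hb, hb'⟩ := Lf_spec u
  rw [ha, hb]
  rcases ha' with h1 | h1 <;> rcases hb' with h2 | h2 <;> rw [h1, h2]
  · have : 2 * (2 * a) * (2 * b) + 2 * a + 2 * b = 2 * (4 * (a * b) + a + b) := by ring
    rw [this, Lf_two_mul]; push_cast; rw [h4]; ring
  · have : 2 * (2 * a) * (-2 * b - 1) + 2 * a + (-2 * b - 1) = -2 * (4 * (a * b) + a + b) - 1 := by ring
    rw [this, Lf_odd]; push_cast; rw [h4]; ring
  · have : 2 * (-2 * a - 1) * (2 * b) + (-2 * a - 1) + 2 * b = -2 * (4 * (a * b) + a + b) - 1 := by ring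
    rw [this, Lf_odd]; push_cast; rw [h4]; ring
  · have : 2 * (-2 * a - 1) * (-2 * b - 1) + (-2 * a - 1) + (-2 * b - 1) = 2 * (4 * (a * b) + a + b) := by ring
    rw [this, Lf_two_mul]; push_cast; rw [h4]; ring

lemma two_Lf (u : ℤ) : (2 : ZMod 4) * (Lf u : ZMod 4) = ((u ^ 2 + u : ℤ) : ZMod 4) := by
  have h4 : (4 : ZMod 4) = 0 := by decide
  obtain ⟨v, hv, h⟩ := Lf_spec u
  rw [hv]
  rcases h with h | h <;> rw [h] <;> push_cast
  · have : ((2 : ZMod 4) * v) ^ 2 = 4 * (v * v) := by ring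
    rw [this, h4]; ring
  · have : ((-2 : ZMod 4) * v - 1) ^ 2 + (-2 * v - 1) = 4 * (v * v) + 2 * v := by ring
    rw [this, h4]; ring

/-- the quartic character of `1 + i` modulo a rational integer -/
lemma ql_pp_nat (n : ℕ) : n % 2 = 1 → ql pp (n : R) = ((Lf ((n : ℤ) / 2) : ℤ) : ZMod 4) := by
  refine induction_on_primes (motive := fun n : ℕ => n % 2 = 1 →
    ql pp (n : R) = ((Lf ((n : ℤ) / 2) : ℤ) : ZMod 4)) ?_ ?_ ?_ n
  · intro h; norm_num at h
  · intro _
    rw [Nat.cast_one, ql_unit_right _ isUnit_one]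
    decide
  · intro q k hq ih hodd
    have hqo : q % 2 = 1 := by
      rcases Nat.mod_two_eq_zero_or_one q with h | h
      · rw [Nat.mul_mod, h] at hodd; norm_num at hodd
      · exact h
    have hko : k % 2 = 1 := by
      rcases Nat.mod_two_eq_zero_or_one k with h | h
      · rw [Nat.mul_mod, h] at hodd; norm_num at hodd
      · exact h
    push_cast
    rw [ql_mul_right _ (ne_zero_of_odd (oddG_natCast.2 hqo)) (ne_zero_of_odd (oddG_natCast.2 hko)),
      ih hko]
    obtain ⟨a, ha⟩ : ∃ a, (q : ℤ) = 2 * a + 1 := ⟨(q : ℤ) / 2, by omega⟩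
    obtain ⟨b, hb⟩ : ∃ b, (k : ℤ) = 2 * b + 1 := ⟨(k : ℤ) / 2, by omega⟩
    have e1 : (q : ℤ) * (k : ℤ) / 2 = 2 * a * b + a + b := by
      rw [ha, hb]
      have : (2 * a + 1) * (2 * b + 1) = 2 * (2 * a * b + a + b) + 1 := by ring
      omega
    have e2 : (k : ℤ) / 2 = b := by omega
    rw [e1, Lf_mul, e2]
    congr 1
    have hqo' : OddG (q : R) := oddG_natCast.2 hqo
    rcases (show q % 4 = 1 ∨ q % 4 = 3 by omega) with h4 | h4
    · obtain ⟨l, hN, hl⟩ := exists_split_prime hq h4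
      have hlo : OddG l := hqo'.of_dvd (Dvd.intro _ hl.symm)
      have hlp : Prime l := prime_of_norm hq hN
      have h5 : ql pp (star l) = - ql (star pp) l := by
        have := ql_star (a := star pp) hlo
        rwa [star_star] at this
      have h6 : ql pp l = ql ii l + ql (star pp) l := by
        conv_lhs => rw [pp_eq]
        exact ql_mul_left hlo (isCoprime_unit isUnit_ii) (isCoprime_star_pp hlo)
      rw [hl, ql_mul_right _ hlp.ne_zero (prime_star hlp).ne_zero, h5, h6, ql_ii hlo, hN]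
      have h7 : Lf a = (((q - 1) / 4 : ℕ) : ℤ) := by
        obtain ⟨v, hv, h⟩ := Lf_spec a
        rw [hv]; omega
      rw [h7, Int.cast_natCast]; ring
    · have hqp : Prime (q : R) := prime_inert hq h4
      have : Fact (Prime (q : R)) := ⟨hqp⟩
      have : Fact q.Prime := ⟨hq⟩
      have hch : CharP (R ⧸ Ideal.span {(q : R)}) q :=
        ringChar.of_eq (ringChar_eq (l := (q : R)) hq dvd_rfl)
      rw [ql_prime _ hqp]
      have hpp0 : red (q : R) pp ≠ 0 := fun h => not_dvd_pp hqp hqo' (red_eq_zero.1 h)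
      have e3 : red (q : R) pp ^ q = red (q : R) (ip 3) * red (q : R) pp := by
        have h5 : pp = 1 + ii := by decide
        have h6 : red (q : R) ii ^ q = red (q : R) (ip 3) := by
          rw [← map_pow]
          congr 1
          rw [ii_pow_mod, h4]; rfl
        rw [← map_mul]
        have h7 : ip 3 * pp = 1 + ip 3 := by decide
        rw [h7]
        conv_lhs => rw [h5, map_add, add_pow_char, h6, map_one, one_pow]
        rw [map_add, map_one]
      have e4 : red (q : R) pp ^ (q - 1) = red (q : R) (ip 3) := by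
        apply mul_right_cancel₀ hpp0
        rw [← e3, ← pow_succ]
        congr 1
        have := hq.pos; omega
      apply qe_eq hqp hqo'
      rw [← red_eq, map_pow]
      have hNq : N (q : R) = q * q := by
        have := N_cast (q : R)
        simp at this
        exact_mod_cast this
      obtain ⟨j, hj⟩ : ∃ j, q = 4 * j + 3 := ⟨q / 4, by omega⟩
      have e5 : (N (q : R) - 1) / 4 = (q - 1) * (j + 1) := by
        rw [hNq, hj]
        have e6 : (4 * j + 3) * (4 * j + 3) - 1 = 4 * ((4 * j + 2) * (j + 1)) := by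
          have : (4 * j + 3) * (4 * j + 3) = 4 * ((4 * j + 2) * (j + 1)) + 1 := by ring
          omega
        rw [e6, Nat.mul_div_cancel_left _ (by norm_num)]
        congr 1
      rw [e5, pow_mul, e4, ← map_pow, ← ip_nsmul]
      congr 2
      have h7 : Lf a = -((j : ℤ) + 1) := by
        obtain ⟨v, hv, h⟩ := Lf_spec a
        rw [hv]; omega
      rw [h7]
      rw [nsmul_eq_mul]
      push_cast
      have h3 : (3 : ZMod 4) = -1 := by decide
      rw [h3]; ring

lemma ql_pp_rat (u : ℤ) : ql pp ((2 * u + 1 : ℤ) : R) = (Lf u : ZMod 4) := by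
  rcases le_or_gt 0 u with h | h
  · obtain ⟨n, hn⟩ : ∃ n : ℕ, (n : ℤ) = 2 * u + 1 := ⟨(2 * u + 1).toNat, by omega⟩
    have h1 := ql_pp_nat n (by omega)
    rw [← hn, Int.cast_natCast, h1]
    congr 2; omega
  · obtain ⟨n, hn⟩ : ∃ n : ℕ, (n : ℤ) = -(2 * u + 1) := ⟨(-(2 * u + 1)).toNat, by omega⟩
    have h1 := ql_pp_nat n (by omega)
    have h2 : ((2 * u + 1 : ℤ) : R) = -((n : ℕ) : R) := by
      have : (2 * u + 1 : ℤ) = -(n : ℤ) := by omega
      rw [this]; simp
    rw [h2, ql_neg_right, h1]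
    congr 1
    unfold Lf; split_ifs <;> omega

lemma ql_pp_prim (x y : ℤ) (h1 : IsCoprime (2 * x + 1) (2 * y)) :
    ql pp (g x y) = - (Lf (x + y) : ZMod 4) + ((2 * y - (x ^ 2 + x) : ℤ) : ZMod 4) := by
  set n := g x y with hn
  have hno : OddG n := odd_g x y
  have hin : n.im % 2 = 0 := im_g x y
  have hxo : (2 * x + 1) % 2 = 1 := by omega
  have hso : (2 * (x + y) + 1) % 2 = 1 := by omega
  have e5 : n = ((2 * x + 1 : ℤ) : R) + ((2 * y : ℤ) : R) * ii := by
    rw [hn]; apply Zsqrtd.ext <;> simp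
  have e6 : pp * ((2 * x + 1 : ℤ) : R) - ((2 * (x + y) + 1 : ℤ) : R) = ii * n := by
    rw [hn]; apply Zsqrtd.ext <;> simp [pp, g] ; ring
  have e7 : n - ((2 * x + 1 : ℤ) : R) * star pp = ((2 * (x + y) + 1 : ℤ) : R) * ii := by
    rw [hn, star_pp]; apply Zsqrtd.ext <;> simp [g] ; ring
  have c0' : IsCoprime ((2 * x + 1 : ℤ) : R) (((2 * y : ℤ) : R) * ii) :=
    (isCoprime_intCast h1).mul_right (isCoprime_unit isUnit_ii).symm
  have c2 : IsCoprime ((2 * x + 1 : ℤ) : R) n := by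
    have h3 := c0'.add_mul_left_right 1
    rw [mul_one] at h3; rw [e5, add_comm ((2 * x + 1 : ℤ) : R)]; exact h3
  have c3 : IsCoprime ((2 * (x + y) + 1 : ℤ) : R) n := by
    have h3 : IsCoprime (pp * ((2 * x + 1 : ℤ) : R)) n := (isCoprime_pp hno).mul_left c2
    have h4 : ((2 * (x + y) + 1 : ℤ) : R) = pp * ((2 * x + 1 : ℤ) : R) + n * (-ii) := by
      linear_combination -e6
    rw [h4]; exact h3.add_mul_left_left _
  have c4 : IsCoprime (2 * x + 1) (2 * (x + y) + 1) := by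
    have h3 := h1.add_mul_left_right 1
    rw [mul_one] at h3
    have : 2 * (x + y) + 1 = 2 * y + (2 * x + 1) := by ring
    rw [this]; exact h3
  have s1 : ql pp n + ql ((2 * x + 1 : ℤ) : R) n = ql ((2 * (x + y) + 1 : ℤ) : R) n := by
    rw [← ql_mul_left hno (isCoprime_pp hno) c2]
    exact ql_congr hno ⟨ii, by rw [e6]; ring⟩
  have s2 := rr_int hso hno hin c3
  have s3 := rr_int hxo hno hin c2
  have s4 : ql n ((2 * (x + y) + 1 : ℤ) : R) = - (Lf (x + y) : ZMod 4) := by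
    have h3 : ql n ((2 * (x + y) + 1 : ℤ) : R) =
        ql (((2 * x + 1 : ℤ) : R) * star pp) ((2 * (x + y) + 1 : ℤ) : R) := by
      apply ql_congr (oddG_intCast.2 hso)
      exact ⟨ii, by rw [e7]⟩
    have h4 := ql_star (a := pp) (n := ((2 * (x + y) + 1 : ℤ) : R)) (oddG_intCast.2 hso)
    rw [star_intCast] at h4
    rw [h3, ql_mul_left (oddG_intCast.2 hso) (isCoprime_intCast c4)
      (isCoprime_star_pp (oddG_intCast.2 hso)), ql_rat hso c4, zero_add, h4, ql_pp_rat]
  have s8 : ql n ((2 * x + 1 : ℤ) : R) = ql ii ((2 * x + 1 : ℤ) : R) := by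
    have h3 : ql n ((2 * x + 1 : ℤ) : R) = ql (((2 * y : ℤ) : R) * ii) ((2 * x + 1 : ℤ) : R) := by
      apply ql_congr (oddG_intCast.2 hxo)
      rw [e5]; exact ⟨1, by ring⟩
    rw [h3, ql_mul_left (oddG_intCast.2 hxo) (isCoprime_intCast h1).symm (isCoprime_unit isUnit_ii),
      ql_rat hxo h1.symm, zero_add]
  have s10 : ql ii n = ((x ^ 2 + x + y ^ 2 : ℤ) : ZMod 4) := ql_ii_g x y
  rw [s4, s10] at s2
  rw [s8, ql_ii_rat, s10] at s3
  have s11 : ql pp n = - (Lf (x + y) : ZMod 4) +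
      (((2 * (x + y) + 1 - 1 : ℤ) : ZMod 4) * ((x ^ 2 + x + y ^ 2 : ℤ) : ZMod 4)
      - ((x ^ 2 + x : ℤ) : ZMod 4) - ((2 * x + 1 - 1 : ℤ) : ZMod 4) * ((x ^ 2 + x + y ^ 2 : ℤ) : ZMod 4)) := by
    linear_combination s1 + s2 - s3
  rw [s11]
  congr 1
  push_cast
  have key : ∀ X Y : ZMod 4, (2 * (X + Y) + 1 - 1) * (X ^ 2 + X + Y ^ 2) - (X ^ 2 + X) -
    (2 * X + 1 - 1) * (X ^ 2 + X + Y ^ 2) = 2 * Y - (X ^ 2 + X) := by decide
  exact key _ _

/-- the quartic character of `1 + i` -/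
theorem ql_pp (x y : ℤ) :
    ql pp (g x y) = - (Lf (x + y) : ZMod 4) + ((2 * y - (x ^ 2 + x) : ℤ) : ZMod 4) := by
  obtain ⟨k, x', y', hx, hy, hcop⟩ := reduce x y
  subst hx hy
  have hco : (2 * k + 1) % 2 = 1 := by omega
  rw [g_reduce, ql_mul_right _ (ne_zero_of_odd (oddG_intCast.2 hco)) (ne_zero_of_odd (odd_g x' y')),
    ql_pp_rat, ql_pp_prim x' y' hcop]
  have h1 : 2 * k * x' + k + x' + (2 * k + 1) * y' = 2 * k * (x' + y') + k + (x' + y') := by ring
  rw [h1, Lf_mul]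
  have h2 := two_Lf k
  push_cast at h2 ⊢
  have key : ∀ K X Y : ZMod 4, (2 * Y - (X ^ 2 + X)) - (2 * ((2 * K + 1) * Y) -
    ((2 * K * X + K + X) ^ 2 + (2 * K * X + K + X))) = - (K ^ 2 + K) := by decide
  linear_combination key (k : ZMod 4) x' y' + h2

/-- the quartic character of `2` -/
theorem ql_two (x y : ℤ) : ql 2 (g x y) = (((2 * x + 1) * y : ℤ) : ZMod 4) := by
  have ho := odd_g x y
  have ci : IsCoprime ii (g x y) := isCoprime_unit isUnit_ii
  have cp : IsCoprime pp (g x y) := isCoprime_pp ho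
  rw [two_eq, ql_mul_left ho ((ci.mul_left ci).mul_left ci) (cp.mul_left cp),
    ql_mul_left ho (ci.mul_left ci) ci, ql_mul_left ho ci ci, ql_mul_left ho cp cp, ql_pp, ql_ii_g]
  have h2 := two_Lf (x + y)
  push_cast at h2 ⊢
  have key : ∀ X Y : ZMod 4, (X ^ 2 + X + Y ^ 2) + (X ^ 2 + X + Y ^ 2) + (X ^ 2 + X + Y ^ 2) -
    ((X + Y) ^ 2 + (X + Y)) + (2 * Y - (X ^ 2 + X)) + (2 * Y - (X ^ 2 + X)) = (2 * X + 1) * Y := by
    decide
  linear_combination key (x : ZMod 4) y - h2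

end Pool.Agent.helper84.Quartic
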