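import Pool.Agent.helper84.Quartic6

/-!
# Evaluation of the quartic character of a unit of norm `-1`
-/

set_option autoImplicit false

noncomputable section

namespace Pool.Agent.helper84.Quartic

lemma isCoprime_two {n : R} (hn : OddG n) : IsCoprime 2 n := by
  rw [two_eq]
  exact (((isCoprime_unit isUnit_ii).mul_left (isCoprime_unit isUnit_ii)).mul_left
    (isCoprime_unit isUnit_ii)).mul_left ((isCoprime_pp hn).mul_left (isCoprime_pp hn))

lemma two_mul_even {k : ℤ} (hk : k % 2 = 0) (e : ZMod 4) : 2 * ((k : ZMod 4) * e) = 0 := by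
  obtain ⟨j, hj⟩ : ∃ j, k = 2 * j := ⟨k / 2, by omega⟩
  rw [hj]; push_cast
  have h4 : (4 : ZMod 4) = 0 := by decide
  have : 2 * (2 * (j : ZMod 4) * e) = 4 * (j * e) := by ring
  rw [this, h4, zero_mul]

/-- Evaluation, first kind. -/
lemma evalA {M m Z B D : R} {η η0 : ℤ} {k : ℕ} (hM : OddG M) (hMi : M.im % 2 = 0) (hm : OddG m)
    (hmi : m.im % 2 = 0) (hη : η = 2 ^ k * η0) (hη0 : η0 % 2 = 1)
    (h1 : M = Z ^ 2 + D * (η : R)) (h2 : m = Z + B * (η : R)) (h3 : m ∣ M - (2 * (η : R)) ^ 2)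
    (c1 : IsCoprime Z (η : R)) (c2 : IsCoprime m M) (c3 : IsCoprime (η : R) M)
    (c4 : IsCoprime (η : R) m) :
    ql (ii * m) M - ql (2 * (η : R)) M = ql ii M + (ql m M - ql M m) + 2 * ((k : ZMod 4) + 1) * ql 2 m
      - ((k : ZMod 4) + 1) * ql 2 M - ((η0 - 1 : ℤ) : ZMod 4) * ql ii M := by
  have ci : ∀ n : R, IsCoprime ii n := fun n => isCoprime_unit isUnit_ii
  have hηd : (η0 : R) ∣ (η : R) := by
    rw [hη]; push_cast; exact Dvd.intro_left _ rfl
  have c1' : IsCoprime Z (η0 : R) := c1.of_isCoprime_of_dvd_right hηd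
  have c3' : IsCoprime (η0 : R) M := c3.of_isCoprime_of_dvd_left hηd
  have c4' : IsCoprime (η0 : R) m := c4.of_isCoprime_of_dvd_left hηd
  have hη0o : OddG (η0 : R) := oddG_intCast.2 hη0
  have e1 : ql (ii * m) M = ql ii M + ql m M := ql_mul_left hM (ci M) c2
  have etwo : 2 * (η : R) = 2 ^ (k + 1) * (η0 : R) := by
    rw [hη]; push_cast; ring
  have e2 : ∀ n : R, OddG n → IsCoprime (η0 : R) n →
      ql (2 * (η : R)) n = ((k : ZMod 4) + 1) * ql 2 n + ql (η0 : R) n := by
    intro n hn hc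
    rw [etwo, ql_mul_left hn ((isCoprime_two hn).pow_left) hc, ql_pow hn (isCoprime_two hn),
      nsmul_eq_mul]
    push_cast; ring
  have cT : IsCoprime (2 * (η : R)) m := (isCoprime_two hm).mul_left c4
  have e3 : ql M m = 2 * ql (2 * (η : R)) m := by
    rw [ql_congr hm h3, ql_pow hm cT, nsmul_eq_mul]; norm_num
  have e4 := rr_int hη0 hM hMi c3'
  have e5 := rr_int hη0 hm hmi c4'
  have e6 : ql M (η0 : R) = 2 * ql Z (η0 : R) := by
    have : ql M (η0 : R) = ql (Z ^ 2) (η0 : R) := by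
      apply ql_congr hη0o
      rw [h1]
      have : Z ^ 2 + D * (η : R) - Z ^ 2 = D * (η : R) := by ring
      rw [this]; exact hηd.mul_left _
    rw [this, ql_pow hη0o c1', nsmul_eq_mul]; norm_num
  have e7 : ql m (η0 : R) = ql Z (η0 : R) := by
    apply ql_congr hη0o
    rw [h2]
    have : Z + B * (η : R) - Z = B * (η : R) := by ring
    rw [this]; exact hηd.mul_left _
  have e8 := two_mul_even (k := η0 - 1) (by omega) (ql ii m)
  have e9 := e2 M hM c3'
  have e10 := e2 m hm c4'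
  rw [e1, e9]
  rw [e10] at e3
  rw [e6] at e4
  rw [e7] at e5
  linear_combination e3 - e4 + 2 * e5 + e8

/-- Evaluation, second kind. -/
lemma evalB {M m Z B D : R} {η : ℤ} (hM : OddG M) (hMi : M.im % 2 = 0) (hm : OddG m)
    (hmi : m.im % 2 = 0) (hη0 : η % 2 = 1)
    (h1 : 2 * 2 * (ii * M) = Z ^ 2 + D * (η : R)) (h2 : 2 * m = Z + B * (η : R))
    (h3 : m ∣ ii * M - (η : R) ^ 2)
    (c1 : IsCoprime Z (η : R)) (c2 : IsCoprime m M) (c3 : IsCoprime (η : R) M)
    (c4 : IsCoprime (η : R) m) :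
    ql (ii * m) M - ql (η : R) M = ql ii M + (ql m M - ql M m) - ql ii m + ql ii (η : R)
      - ((η - 1 : ℤ) : ZMod 4) * ql ii M := by
  have ci : ∀ n : R, IsCoprime ii n := fun n => isCoprime_unit isUnit_ii
  have hη0o : OddG (η : R) := oddG_intCast.2 hη0
  have ct : IsCoprime (2 : R) (η : R) := isCoprime_two hη0o
  have e1 : ql (ii * m) M = ql ii M + ql m M := ql_mul_left hM (ci M) c2
  have e3 : ql ii m + ql M m = 2 * ql (η : R) m := by
    rw [← ql_mul_left hm (ci m) c2.symm, ql_congr hm h3, ql_pow hm c4, nsmul_eq_mul]; norm_num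
  have e4 := rr_int hη0 hM hMi c3
  have e5 := rr_int hη0 hm hmi c4
  have two0 : ql (2 : R) (η : R) = 0 := by
    have h : IsCoprime ((2 : ℤ) : R) (η : R) := by simpa using ct
    have := ql_rat' (a := 2) (n := η) hη0 h
    simpa using this
  have e6 : ql ii (η : R) + ql M (η : R) = 2 * ql Z (η : R) := by
    have h4 : ql (2 * 2 * (ii * M)) (η : R) = ql (Z ^ 2) (η : R) := by
      apply ql_congr hη0o
      rw [h1]
      have : Z ^ 2 + D * (η : R) - Z ^ 2 = D * (η : R) := by ring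
      rw [this]; exact Dvd.intro_left _ rfl
    rw [ql_pow hη0o c1, nsmul_eq_mul, ql_mul_left hη0o (ct.mul_left ct) ((ci _).mul_left c3.symm),
      ql_mul_left hη0o ct ct, ql_mul_left hη0o (ci _) c3.symm, two0] at h4
    rw [add_zero, zero_add] at h4
    rw [h4]; norm_num
  have e7 : ql m (η : R) = ql Z (η : R) := by
    have h4 : ql (2 * m) (η : R) = ql Z (η : R) := by
      apply ql_congr hη0o
      rw [h2]
      have : Z + B * (η : R) - Z = B * (η : R) := by ring
      rw [this]; exact Dvd.intro_left _ rfl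
    rw [ql_mul_left hη0o ct c4.symm, two0, zero_add] at h4
    exact h4
  have e8 := two_mul_even (k := η - 1) (by omega) (ql ii m)
  rw [e1]
  rw [e7] at e5
  linear_combination e3 - e4 + 2 * e5 + e8 - e6

end Pool.Agent.helper84.Quartic
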