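import Pool.Agent.helper84.Quartic7

/-!
# The quartic character of `(b + √(b²+4))/2` modulo `p = c² + d² = x² + (b² + 4) y²`
-/

set_option autoImplicit false

noncomputable section

namespace Pool.Agent.helper84.Quartic

section basic

lemma sq_dvd_prime {p : ℕ} (hp : p.Prime) {g : ℕ} (h : g * g ∣ p) : g = 1 := by
  have h1 : g ∣ p := (Dvd.intro _ rfl).trans h
  rcases (Nat.dvd_prime hp).1 h1 with h2 | h2
  · exact h2
  · exfalso
    rw [h2] at h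
    have h3 := Nat.le_of_dvd hp.pos h
    have h4 := hp.two_le
    nlinarith

lemma coprime_of_sum_sq {p : ℕ} (hp : p.Prime) {c d : ℤ} (h : (p : ℤ) = c ^ 2 + d ^ 2) :
    IsCoprime c d := by
  rw [Int.isCoprime_iff_gcd_eq_one]
  apply sq_dvd_prime hp
  have h1 : ((Int.gcd c d : ℕ) : ℤ) ∣ c := Int.gcd_dvd_left _ _
  have h2 : ((Int.gcd c d : ℕ) : ℤ) ∣ d := Int.gcd_dvd_right _ _
  have h3 : ((Int.gcd c d * Int.gcd c d : ℕ) : ℤ) ∣ (p : ℤ) := by
    rw [h]; push_cast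
    rw [pow_two, pow_two]
    exact dvd_add (mul_dvd_mul h1 h1) (mul_dvd_mul h2 h2)
  exact Int.natCast_dvd_natCast.1 h3

lemma not_dvd_of_sq_le {p : ℕ} (hp : p.Prime) {x : ℤ} (hx : x ≠ 0) (h : x ^ 2 ≤ p) :
    ¬ (p : ℤ) ∣ x := by
  intro h1
  have h2 : (p : ℤ) ≤ |x| := Int.le_of_dvd (abs_pos.2 hx) ((dvd_abs _ _).2 h1)
  have h3 : (2 : ℤ) ≤ p := by exact_mod_cast hp.two_le
  have h4 : |x| ^ 2 = x ^ 2 := sq_abs x
  nlinarith

lemma descentA {p : ℕ} (hp : p.Prime) {c d x y D : ℤ} (h1 : (p : ℤ) = c ^ 2 + d ^ 2)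
    (h2 : (p : ℤ) = x ^ 2 + D * y ^ 2) (hd : d % 2 = 0) (hy : y % 2 = 0) (hcx : (c + x) % 4 = 2) :
    ∃ h r e f : ℤ, c + x = 2 * (h ^ 2 * r) ∧ d = 2 * (h * e) ∧ y = 2 * (h * f) ∧
      (h * r) ^ 2 - e ^ 2 + D * f ^ 2 = r * c ∧ h % 2 = 1 ∧ r % 2 = 1 ∧
      ∃ u v w : ℤ, u * (h * r) + v * e + w * f = 1 := by
  obtain ⟨R0, hR0⟩ : ∃ R0, c + x = 2 * R0 := ⟨(c + x) / 2, by omega⟩
  obtain ⟨d0, hd0⟩ : ∃ d0, d = 2 * d0 := ⟨d / 2, by omega⟩
  obtain ⟨y0, hy0⟩ : ∃ y0, y = 2 * y0 := ⟨y / 2, by omega⟩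
  set h : ℤ := ((Int.gcd (Int.gcd R0 d0) y0 : ℕ) : ℤ) with hh
  have hRne : R0 ≠ 0 := by omega
  have g1 : h ∣ R0 := (Int.gcd_dvd_left _ _).trans (Int.gcd_dvd_left _ _)
  have g2 : h ∣ d0 := (Int.gcd_dvd_left _ _).trans (Int.gcd_dvd_right _ _)
  have g3 : h ∣ y0 := Int.gcd_dvd_right _ _
  have hne : h ≠ 0 := by
    intro h0; rw [h0, zero_dvd_iff] at g1; exact hRne g1
  have bez : ∃ u v w : ℤ, h = u * R0 + v * d0 + w * y0 := by
    have b1 := Int.gcd_eq_gcd_ab R0 d0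
    have b2 := Int.gcd_eq_gcd_ab ((Int.gcd R0 d0 : ℕ) : ℤ) y0
    refine ⟨Int.gcdA R0 d0 * Int.gcdA ((Int.gcd R0 d0 : ℕ) : ℤ) y0,
      Int.gcdB R0 d0 * Int.gcdA ((Int.gcd R0 d0 : ℕ) : ℤ) y0,
      Int.gcdB ((Int.gcd R0 d0 : ℕ) : ℤ) y0, ?_⟩
    rw [hh, b2]
    nth_rewrite 1 [b1]
    ring
  obtain ⟨ρ, hρ⟩ := g1
  obtain ⟨e, he⟩ := g2
  obtain ⟨f, hf⟩ := g3
  have hcd : IsCoprime c d := coprime_of_sum_sq hp h1
  have hch : IsCoprime h c := by
    refine (hcd.symm).of_isCoprime_of_dvd_left ?_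
    rw [hd0, he]; exact ⟨2 * e, by ring⟩
  have key : h * (ρ ^ 2 - e ^ 2 + D * f ^ 2) = ρ * c := by
    have k1 : R0 ^ 2 - d0 ^ 2 + D * y0 ^ 2 = R0 * c := by
      have : (c + x) ^ 2 - d ^ 2 + D * y ^ 2 = 2 * (c + x) * c := by nlinarith
      rw [hR0, hd0, hy0] at this
      nlinarith
    rw [hρ, he, hf] at k1
    have : h * (h * (ρ ^ 2 - e ^ 2 + D * f ^ 2)) = h * (ρ * c) := by nlinarith
    exact mul_left_cancel₀ hne this
  have hdiv : h ∣ ρ := by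
    have : h ∣ ρ * c := ⟨_, key.symm⟩
    exact hch.dvd_of_dvd_mul_right this
  obtain ⟨r, hr⟩ := hdiv
  have hodd : (h * (h * r)) % 2 = 1 := by rw [← hr, ← hρ]; omega
  have hho : h % 2 = 1 := by
    rcases Int.emod_two_eq_zero_or_one h with h0 | h0
    · rw [Int.mul_emod, h0] at hodd; norm_num at hodd
    · exact h0
  have hro : r % 2 = 1 := by
    rcases Int.emod_two_eq_zero_or_one r with h0 | h0
    · rw [← mul_assoc, Int.mul_emod, h0] at hodd; norm_num at hodd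
    · exact h0
  refine ⟨h, r, e, f, ?_, ?_, ?_, ?_, hho, hro, ?_⟩
  · rw [hR0, hρ, hr]; ring
  · rw [hd0, he]
  · rw [hy0, hf]
  · rw [hr] at key
    apply mul_left_cancel₀ hne
    rw [key]; ring
  · obtain ⟨u, v, w, huvw⟩ := bez
    refine ⟨u, v, w, ?_⟩
    rw [← hr]
    apply mul_left_cancel₀ hne
    rw [hρ, he, hf] at huvw
    linear_combination -huvw

lemma descentB {p : ℕ} (hp : p.Prime) {c d x y D : ℤ} (h1 : (p : ℤ) = c ^ 2 + d ^ 2)
    (h2 : (p : ℤ) = x ^ 2 + D * y ^ 2) (hc : c % 2 = 1) (hdx : (d + x) % 4 = 2) :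
    ∃ h r e f : ℤ, d + x = 2 * (h ^ 2 * r) ∧ c = h * e ∧ y = h * f ∧
      4 * (h * r) ^ 2 - e ^ 2 + D * f ^ 2 = 4 * (r * d) ∧ h % 2 = 1 ∧ r % 2 = 1 ∧
      ∃ u v w : ℤ, u * (h * r) + v * e + w * f = 1 := by
  obtain ⟨R0, hR0⟩ : ∃ R0, d + x = 2 * R0 := ⟨(d + x) / 2, by omega⟩
  set h : ℤ := ((Int.gcd (Int.gcd R0 c) y : ℕ) : ℤ) with hh
  have hRne : R0 ≠ 0 := by omega
  have g1 : h ∣ R0 := (Int.gcd_dvd_left _ _).trans (Int.gcd_dvd_left _ _)
  have g2 : h ∣ c := (Int.gcd_dvd_left _ _).trans (Int.gcd_dvd_right _ _)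
  have g3 : h ∣ y := Int.gcd_dvd_right _ _
  have hne : h ≠ 0 := by
    intro h0; rw [h0, zero_dvd_iff] at g1; exact hRne g1
  have bez : ∃ u v w : ℤ, h = u * R0 + v * c + w * y := by
    have b1 := Int.gcd_eq_gcd_ab R0 c
    have b2 := Int.gcd_eq_gcd_ab ((Int.gcd R0 c : ℕ) : ℤ) y
    refine ⟨Int.gcdA R0 c * Int.gcdA ((Int.gcd R0 c : ℕ) : ℤ) y,
      Int.gcdB R0 c * Int.gcdA ((Int.gcd R0 c : ℕ) : ℤ) y,
      Int.gcdB ((Int.gcd R0 c : ℕ) : ℤ) y, ?_⟩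
    rw [hh, b2]
    nth_rewrite 1 [b1]
    ring
  obtain ⟨ρ, hρ⟩ := g1
  obtain ⟨e, he⟩ := g2
  obtain ⟨f, hf⟩ := g3
  have hho : h % 2 = 1 := by
    rcases Int.emod_two_eq_zero_or_one h with h0 | h0
    · rw [he, Int.mul_emod, h0] at hc; norm_num at hc
    · exact h0
  have hcd : IsCoprime c d := coprime_of_sum_sq hp h1
  have hch : IsCoprime h d := by
    refine hcd.of_isCoprime_of_dvd_left ?_
    rw [he]; exact ⟨e, rfl⟩
  have hc4 : IsCoprime h 4 := by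
    rw [Int.isCoprime_iff_gcd_eq_one]
    have : IsCoprime h 2 := by
      refine ⟨1, -(h / 2), ?_⟩
      omega
    have h4 : IsCoprime h (2 * 2) := this.mul_right this
    exact Int.isCoprime_iff_gcd_eq_one.1 h4
  have key : h * (4 * ρ ^ 2 - e ^ 2 + D * f ^ 2) = ρ * (4 * d) := by
    have k1 : 4 * R0 ^ 2 - c ^ 2 + D * y ^ 2 = 4 * R0 * d := by
      have : (d + x) ^ 2 - c ^ 2 + D * y ^ 2 = 2 * (d + x) * d := by nlinarith
      rw [hR0] at this
      nlinarith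
    rw [hρ, he, hf] at k1
    have : h * (h * (4 * ρ ^ 2 - e ^ 2 + D * f ^ 2)) = h * (ρ * (4 * d)) := by nlinarith
    exact mul_left_cancel₀ hne this
  have hdiv : h ∣ ρ := by
    have : h ∣ ρ * (4 * d) := ⟨_, key.symm⟩
    exact (hc4.mul_right hch).dvd_of_dvd_mul_right this
  obtain ⟨r, hr⟩ := hdiv
  have hodd : (h * (h * r)) % 2 = 1 := by rw [← hr, ← hρ]; omega
  have hro : r % 2 = 1 := by
    rcases Int.emod_two_eq_zero_or_one r with h0 | h0
    · rw [← mul_assoc, Int.mul_emod, h0] at hodd; norm_num at hodd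
    · exact h0
  refine ⟨h, r, e, f, ?_, he, hf, ?_, hho, hro, ?_⟩
  · rw [hR0, hρ, hr]; ring
  · rw [hr] at key
    apply mul_left_cancel₀ hne
    rw [key]; ring
  · obtain ⟨u, v, w, huvw⟩ := bez
    refine ⟨u, v, w, ?_⟩
    rw [← hr]
    apply mul_left_cancel₀ hne
    rw [hρ, he, hf] at huvw
    linear_combination -huvw

end basic

/-- The Gaussian prime `c - d i` above `p = c² + d²`. -/
abbrev gpi (c d : ℤ) : R := ⟨c, -d⟩

lemma N_gpi {p : ℕ} {c d : ℤ} (h : (p : ℤ) = c ^ 2 + d ^ 2) : N (gpi c d) = p := by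
  have h1 := N_cast (gpi c d)
  simp only at h1
  have : ((N (gpi c d) : ℕ) : ℤ) = (p : ℤ) := by rw [h1, h]; ring
  exact_mod_cast this

lemma gpi_dvd_int {p : ℕ} (hp : p.Prime) {c d : ℤ} (h : (p : ℤ) = c ^ 2 + d ^ 2) {k : ℤ}
    (hk : gpi c d ∣ (k : R)) : (p : ℤ) ∣ k := by
  have h1 := N_dvd hk
  rw [N_gpi h] at h1
  have h2 := N_cast (k : R)
  have h3 : ((N (k : R) : ℕ) : ℤ) = k * k := by rw [h2]; simp
  have h4 : (p : ℤ) ∣ k * k := by rw [← h3]; exact_mod_cast h1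
  rcases (Nat.prime_iff_prime_int.1 hp).dvd_or_dvd h4 with h5 | h5 <;> exact h5

/-- coprimality of `Z` and `f`. -/
lemma coprime_Z {p : ℕ} (hp : p.Prime) {c d : ℤ} (h1 : (p : ℤ) = c ^ 2 + d ^ 2)
    {r f a e : ℤ} {Z W W' : R} (hZ : ∀ l : R, l ∣ (r : R) → l ∣ Z → l ∣ (f : R) → l ∣ (a : R) ∧ l ∣ (e : R))
    (hbez : ∃ u v w : ℤ, u * a + v * e + w * f = 1)
    (hM : W' * ((r : R) * gpi c d) = Z * Z + W * (f : R)) (hu : IsUnit W' ∨ OddG (f : R) ∧ ∀ l : R, OddG l → Prime l → ¬ l ∣ W')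
    (hpf : ¬ (p : ℤ) ∣ f) : IsCoprime Z (f : R) := by
  apply isCoprime_of_prime_dvd
  · rintro ⟨-, h0⟩
    apply hpf
    have : f = 0 := by exact_mod_cast h0
    rw [this]; exact dvd_zero _
  · intro l hl hlZ hlf
    have h2 : l ∣ W' * ((r : R) * gpi c d) := by
      rw [hM]; exact dvd_add (hlZ.mul_right _) (hlf.mul_left _)
    have h3 : l ∣ (r : R) * gpi c d := by
      rcases hl.dvd_or_dvd h2 with h4 | h4
      · exfalso
        rcases hu with h5 | ⟨h5, h6⟩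
        · exact hl.not_isUnit (isUnit_of_dvd_unit h4 h5)
        · exact h6 l (h5.of_dvd hlf) hl h4
      · exact h4
    rcases hl.dvd_or_dvd h3 with h4 | h4
    · obtain ⟨h5, h6⟩ := hZ l h4 hlZ hlf
      obtain ⟨u, v, w, hb⟩ := hbez
      have h7 : l ∣ ((u * a + v * e + w * f : ℤ) : R) := by
        push_cast
        exact dvd_add (dvd_add (h5.mul_left _) (h6.mul_left _)) (hlf.mul_left _)
      rw [hb] at h7
      exact hl.not_isUnit (isUnit_of_dvd_one (by simpa using h7))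
    · have hgp : Prime (gpi c d) := prime_of_norm hp (N_gpi h1)
      have hass : Associated l (gpi c d) := hl.associated_of_dvd hgp h4
      exact hpf (gpi_dvd_int hp h1 (hass.symm.dvd.trans hlf))

lemma eq_g {a b X Y : ℤ} (h1 : a = 2 * X + 1) (h2 : b = 2 * Y) : (⟨a, b⟩ : R) = g X Y := by
  rw [h1, h2]

/-- symbol computation when `y` is even -/
lemma symA {p : ℕ} (hp : p.Prime) {b c d h r e f X Y x' y' f0 : ℤ} {k : ℕ}
    (h1 : (p : ℤ) = c ^ 2 + d ^ 2)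
    (hd : d = 2 * (h * e)) (key : (h * r) ^ 2 - e ^ 2 + (b ^ 2 + 4) * f ^ 2 = r * c)
    (hr : r % 2 = 1) (hbez : ∃ u v w : ℤ, u * (h * r) + v * e + w * f = 1)
    (hX : r * c = 2 * X + 1) (hY : -(r * d) = 2 * Y) (hx' : h * r = 2 * x' + 1)
    (hy' : -(b * f + e) = 2 * y') (hf : f = 2 ^ k * f0) (hf0 : f0 % 2 = 1)
    (hpf : ¬ (p : ℤ) ∣ f) :
    IsCoprime (ii * g x' y') (gpi c d) ∧ IsCoprime (2 * (f : R)) (gpi c d) ∧
    ql (ii * g x' y') (gpi c d) - ql (2 * (f : R)) (gpi c d) =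
      ((X ^ 2 + X + Y ^ 2 : ℤ) : ZMod 4) + ((2 * (x' * Y + X * y' + y' * Y) : ℤ) : ZMod 4)
      + 2 * ((k : ZMod 4) + 1) * (((2 * x' + 1) * y' : ℤ) : ZMod 4)
      - ((k : ZMod 4) + 1) * (((2 * X + 1) * Y : ℤ) : ZMod 4)
      - ((f0 - 1 : ℤ) : ZMod 4) * ((X ^ 2 + X + Y ^ 2 : ℤ) : ZMod 4) := by
  set π := gpi c d with hπ
  have eM : (r : R) * π = g X Y := by
    rw [← eq_g hX hY, hπ]; apply Zsqrtd.ext <;> simp
  have em : (⟨h * r, -(b * f + e)⟩ : R) = g x' y' := eq_g hx' hy'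
  set Z : R := ⟨h * r, -e⟩ with hZ
  have hMeq : (r : R) * π = Z * Z + (((b ^ 2 + 4) * f : ℤ) : R) * (f : R) := by
    obtain ⟨K, hK⟩ : ∃ K, K = (b ^ 2 + 4) * f := ⟨_, rfl⟩
    rw [← hK]
    apply Zsqrtd.ext
    · simp [hπ, hZ]; rw [hK]; linarith
    · simp [hπ, hZ]; rw [hd]; ring
  have hMo : OddG (g X Y) := odd_g X Y
  have hmo : OddG (g x' y') := odd_g x' y'
  have cZ : IsCoprime Z (f : R) := by
    refine coprime_Z hp h1 (r := r) (f := f) (a := h * r) (e := e) (Z := Z)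
      (W := (((b ^ 2 + 4) * f : ℤ) : R)) (W' := 1) ?_ hbez ?_ (Or.inl isUnit_one) hpf
    · intro l hlr hlZ hlf
      have h3 : l ∣ ((h * r : ℤ) : R) := by push_cast; exact hlr.mul_left _
      refine ⟨h3, ?_⟩
      have h4 : (e : R) = ii * (Z - ((h * r : ℤ) : R)) := by
        rw [hZ]; apply Zsqrtd.ext <;> simp
      rw [h4]; exact (dvd_sub hlZ h3).mul_left _
    · rw [one_mul]; exact hMeq
  have cfM : IsCoprime (f : R) (g X Y) := by
    rw [← eM, hMeq]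
    have h3 : IsCoprime (f : R) (Z * Z) := cZ.symm.mul_right cZ.symm
    have h4 := h3.add_mul_left_right ((((b ^ 2 + 4) * f : ℤ) : R))
    rw [mul_comm (((b ^ 2 + 4) * f : ℤ) : R)]; exact h4
  have e2 : g x' y' = Z + (-(ii * (b : R))) * (f : R) := by
    rw [← em, hZ]; apply Zsqrtd.ext <;> simp
  have cfm : IsCoprime (f : R) (g x' y') := by
    rw [e2, mul_comm (-(ii * (b : R)))]
    exact cZ.symm.add_mul_left_right _
  have e3 : g X Y - (2 * (f : R)) ^ 2 = g x' y' * (Z + ii * (b : R) * (f : R)) := by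
    rw [← eM, hMeq, e2]
    push_cast
    linear_combination ((b : R) ^ 2 * (f : R) ^ 2) * ii_mul_ii
  have cmM : IsCoprime (g x' y') (g X Y) := by
    have h3 : IsCoprime (g x' y') ((2 * (f : R)) ^ 2) :=
      (((isCoprime_two hmo).mul_left cfm).symm).pow_right
    have h4 : g X Y = (2 * (f : R)) ^ 2 + g x' y' * (Z + ii * (b : R) * (f : R)) := by
      rw [← e3]; ring
    rw [h4]; exact h3.add_mul_left_right _
  have hev := evalA (M := g X Y) (m := g x' y') (Z := Z) (B := -(ii * (b : R)))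
    (D := (((b ^ 2 + 4) * f : ℤ) : R)) (η := f) (η0 := f0) (k := k) hMo (im_g X Y) hmo (im_g x' y')
    hf hf0 (by rw [← eM, hMeq]; ring) e2 ⟨_, e3⟩ cZ cmM cfM cfm
  have hrec := recip x' y' X Y cmM
  -- split off r
  have hro : OddG (r : R) := oddG_intCast.2 hr
  have hπo : OddG π := (by rw [← eM] at hMo; exact hMo.of_mul_right)
  have cim : IsCoprime (ii * g x' y') (g X Y) := (isCoprime_unit isUnit_ii).mul_left cmM
  have c2f : IsCoprime (2 * (f : R)) (g X Y) := (isCoprime_two hMo).mul_left cfM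
  have hrM : (r : R) ∣ g X Y := by rw [← eM]; exact Dvd.intro _ rfl
  have hπM : π ∣ g X Y := by rw [← eM]; exact Dvd.intro_left _ rfl
  have z1 : ql (ii * g x' y') (r : R) = 0 := by
    have h3 : (r : R) ∣ (ii * g x' y') - ((b * f + e : ℤ) : R) := by
      refine ⟨(h : R) * ii, ?_⟩
      rw [← em]; apply Zsqrtd.ext <;> simp; ring
    have h4 : IsCoprime (ii * g x' y') (r : R) := cim.of_isCoprime_of_dvd_right hrM
    have h5 : IsCoprime ((b * f + e : ℤ) : R) (r : R) := by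
      obtain ⟨w, hw⟩ := h3
      have h6 : ((b * f + e : ℤ) : R) = ii * g x' y' + (r : R) * (-w) := by
        linear_combination -hw
      rw [h6]; exact h4.add_mul_left_left _
    rw [ql_congr hro h3]; exact ql_rat' hr h5
  have z2 : ql (2 * (f : R)) (r : R) = 0 := by
    have h4 : IsCoprime (2 * (f : R)) (r : R) := c2f.of_isCoprime_of_dvd_right hrM
    have h5 : (2 * (f : R)) = ((2 * f : ℤ) : R) := by push_cast; ring
    rw [h5] at h4 ⊢; exact ql_rat' hr h4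
  have s1 : ql (ii * g x' y') (g X Y) = ql (ii * g x' y') π := by
    rw [← eM, ql_mul_right _ (ne_zero_of_odd hro) (ne_zero_of_odd hπo), z1, zero_add]
  have s2 : ql (2 * (f : R)) (g X Y) = ql (2 * (f : R)) π := by
    rw [← eM, ql_mul_right _ (ne_zero_of_odd hro) (ne_zero_of_odd hπo), z2, zero_add]
  refine ⟨cim.of_isCoprime_of_dvd_right hπM, c2f.of_isCoprime_of_dvd_right hπM, ?_⟩
  rw [← s1, ← s2, hev, hrec, ql_ii_g, ql_two, ql_two]
  ring

/-- symbol computation when `x` is even -/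
lemma symB {p : ℕ} (hp : p.Prime) {b c d h r e f X Y x' t : ℤ}
    (h1 : (p : ℤ) = c ^ 2 + d ^ 2) (hf1 : f % 2 = 1)
    (hc : c = h * e) (key : 4 * (h * r) ^ 2 - e ^ 2 + (b ^ 2 + 4) * f ^ 2 = 4 * (r * d))
    (hr : r % 2 = 1) (hbez : ∃ u v w : ℤ, u * (h * r) + v * e + w * f = 1)
    (hX : r * c = 2 * X + 1) (hY : -(r * d) = 2 * Y) (hx' : h * r = 2 * x' + 1)
    (ht : b * f - e = 4 * t) (hpf : ¬ (p : ℤ) ∣ f) :
    IsCoprime (ii * g x' (-t)) (gpi c d) ∧ IsCoprime (f : R) (gpi c d) ∧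
    ql (ii * g x' (-t)) (gpi c d) - ql (f : R) (gpi c d) =
      ((X ^ 2 + X + Y ^ 2 : ℤ) : ZMod 4) + ((2 * (x' * Y + X * (-t) + (-t) * Y) : ℤ) : ZMod 4)
      - ((x' ^ 2 + x' + (-t) ^ 2 : ℤ) : ZMod 4) + ql ii (f : R)
      - ((f - 1 : ℤ) : ZMod 4) * ((X ^ 2 + X + Y ^ 2 : ℤ) : ZMod 4) := by
  set π := gpi c d with hπ
  have eM : (r : R) * π = g X Y := by
    rw [← eq_g hX hY, hπ]; apply Zsqrtd.ext <;> simp
  have em : (⟨h * r, -(2 * t)⟩ : R) = g x' (-t) := eq_g hx' (by ring)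
  set Z : R := ⟨2 * (h * r), e⟩ with hZ
  have hMeq : (2 * 2 * ii) * ((r : R) * π) = Z * Z + (((b ^ 2 + 4) * f : ℤ) : R) * (f : R) := by
    obtain ⟨K, hK⟩ : ∃ K, K = (b ^ 2 + 4) * f := ⟨_, rfl⟩
    rw [← hK]
    apply Zsqrtd.ext
    · simp [hπ, hZ]; rw [hK]; linarith
    · simp [hπ, hZ]; rw [hc]; ring
  have hMo : OddG (g X Y) := odd_g X Y
  have hmo : OddG (g x' (-t)) := odd_g x' (-t)
  have hfo : OddG (f : R) := oddG_intCast.2 hf1
  have cZ : IsCoprime Z (f : R) := by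
    refine coprime_Z hp h1 (r := r) (f := f) (a := h * r) (e := e) (Z := Z)
      (W := (((b ^ 2 + 4) * f : ℤ) : R)) (W' := 2 * 2 * ii) ?_ hbez ?_ (Or.inr ⟨hfo, ?_⟩) hpf
    · intro l hlr hlZ hlf
      have h3 : l ∣ ((h * r : ℤ) : R) := by push_cast; exact hlr.mul_left _
      refine ⟨h3, ?_⟩
      have h4 : (e : R) = -(ii * (Z - 2 * ((h * r : ℤ) : R))) := by
        rw [hZ]; apply Zsqrtd.ext <;> simp
      rw [h4]; exact ((dvd_sub hlZ (h3.mul_left _)).mul_left _).neg_right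
    · exact hMeq
    · intro l hlo hl hd
      have h5 : IsCoprime (2 * 2 * ii) l :=
        ((isCoprime_two hlo).mul_left (isCoprime_two hlo)).mul_left (isCoprime_unit isUnit_ii)
      exact hl.not_isUnit (h5.isUnit_of_dvd' hd dvd_rfl)
  have c22 : ∀ {n : R}, OddG n → IsCoprime (2 * 2 * ii) n := fun hn =>
    ((isCoprime_two hn).mul_left (isCoprime_two hn)).mul_left (isCoprime_unit isUnit_ii)
  have cfM : IsCoprime (f : R) (g X Y) := by
    have h3 : IsCoprime (f : R) (Z * Z) := cZ.symm.mul_right cZ.symm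
    have h4 := h3.add_mul_left_right ((((b ^ 2 + 4) * f : ℤ) : R))
    rw [mul_comm (f : R) (((b ^ 2 + 4) * f : ℤ) : R), ← hMeq, eM] at h4
    exact h4.of_mul_right_right
  have e2 : 2 * g x' (-t) = Z + (-(ii * (b : R))) * (f : R) := by
    rw [← em, hZ]; apply Zsqrtd.ext <;> simp; linarith
  have cfm : IsCoprime (f : R) (g x' (-t)) := by
    have h3 : IsCoprime (f : R) (Z + (f : R) * (-(ii * (b : R)))) := cZ.symm.add_mul_left_right _
    rw [mul_comm (f : R), ← e2] at h3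
    exact h3.of_mul_right_right
  set W : R := ⟨2 * t + e, -(h * r)⟩ with hW
  have hbf : b * f = 4 * t + e := by linarith
  have e3 : ii * g X Y - (f : R) ^ 2 = g x' (-t) * (ii * W) := by
    rw [← eM, ← em, hπ, hW]
    apply Zsqrtd.ext
    · have hb2 : (b * f) ^ 2 = (4 * t + e) ^ 2 := by rw [hbf]
      simp [pow_two]
      nlinarith
    · simp [pow_two]; rw [hc]; ring
  have cmM : IsCoprime (g x' (-t)) (g X Y) := by
    have h3 : IsCoprime (g x' (-t)) ((f : R) ^ 2) := cfm.symm.pow_right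
    have h4 : ii * g X Y = (f : R) ^ 2 + g x' (-t) * (ii * W) := by
      rw [← e3]; ring
    have h5 : IsCoprime (g x' (-t)) (ii * g X Y) := by
      rw [h4]; exact h3.add_mul_left_right _
    exact h5.of_mul_right_right
  have hev := evalB (M := g X Y) (m := g x' (-t)) (Z := Z) (B := -(ii * (b : R)))
    (D := (((b ^ 2 + 4) * f : ℤ) : R)) (η := f) hMo (im_g X Y) hmo (im_g x' (-t))
    hf1 (by rw [← eM]; linear_combination hMeq) e2 ⟨_, e3⟩ cZ cmM cfM cfm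
  have hrec := recip x' (-t) X Y cmM
  have hro : OddG (r : R) := oddG_intCast.2 hr
  have hπo : OddG π := (by rw [← eM] at hMo; exact hMo.of_mul_right)
  have cim : IsCoprime (ii * g x' (-t)) (g X Y) := (isCoprime_unit isUnit_ii).mul_left cmM
  have hrM : (r : R) ∣ g X Y := by rw [← eM]; exact Dvd.intro _ rfl
  have hπM : π ∣ g X Y := by rw [← eM]; exact Dvd.intro_left _ rfl
  have z1 : ql (ii * g x' (-t)) (r : R) = 0 := by
    have h3 : (r : R) ∣ (ii * g x' (-t)) - ((2 * t : ℤ) : R) := by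
      refine ⟨(h : R) * ii, ?_⟩
      rw [← em]; apply Zsqrtd.ext <;> simp; ring
    have h4 : IsCoprime (ii * g x' (-t)) (r : R) := cim.of_isCoprime_of_dvd_right hrM
    have h5 : IsCoprime ((2 * t : ℤ) : R) (r : R) := by
      obtain ⟨w, hw⟩ := h3
      have h6 : ((2 * t : ℤ) : R) = ii * g x' (-t) + (r : R) * (-w) := by
        linear_combination -hw
      rw [h6]; exact h4.add_mul_left_left _
    rw [ql_congr hro h3]; exact ql_rat' hr h5
  have z2 : ql (f : R) (r : R) = 0 :=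
    ql_rat' hr (cfM.of_isCoprime_of_dvd_right hrM)
  have s1 : ql (ii * g x' (-t)) (g X Y) = ql (ii * g x' (-t)) π := by
    rw [← eM, ql_mul_right _ (ne_zero_of_odd hro) (ne_zero_of_odd hπo), z1, zero_add]
  have s2 : ql (f : R) (g X Y) = ql (f : R) π := by
    rw [← eM, ql_mul_right _ (ne_zero_of_odd hro) (ne_zero_of_odd hπo), z2, zero_add]
  refine ⟨cim.of_isCoprime_of_dvd_right hπM, cfM.of_isCoprime_of_dvd_right hπM, ?_⟩
  rw [← s1, ← s2, hev, hrec, ql_ii_g, ql_ii_g]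
  ring

end Pool.Agent.helper84.Quartic
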