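import Pool.Agent.helper84.Quartic8

/-!
# The power `((b + s)/2)^((p-1)/4)` in `ZMod p`, where `s = c x / (d y)`
-/

set_option autoImplicit false

noncomputable section

namespace Pool.Agent.helper84.Quartic

lemma sq_odd {a : ℤ} (h : a % 2 = 1) : ∃ k, a ^ 2 = 8 * k + 1 := by
  obtain ⟨m, hm⟩ : ∃ m, a = 2 * m + 1 := ⟨a / 2, by omega⟩
  have h2 : m * (m + 1) % 2 = 0 := by
    rcases Int.emod_two_eq_zero_or_one m with h | h
    · rw [Int.mul_emod, h]; simp
    · have : (m + 1) % 2 = 0 := by omega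
      rw [Int.mul_emod, this]; simp
  obtain ⟨k, hk⟩ : ∃ k, m * (m + 1) = 2 * k := ⟨m * (m + 1) / 2, by omega⟩
  exact ⟨k, by rw [hm]; nlinarith⟩

lemma two_pow_odd {f : ℤ} (hf : f ≠ 0) : ∃ (k : ℕ) (f0 : ℤ), f = 2 ^ k * f0 ∧ f0 % 2 = 1 := by
  have key : ∀ n : ℕ, ∀ f : ℤ, f.natAbs = n → f ≠ 0 → ∃ (k : ℕ) (f0 : ℤ), f = 2 ^ k * f0 ∧ f0 % 2 = 1 := by
    intro n
    induction n using Nat.strong_induction_on with
    | _ n ih =>
      intro f hfn hf
      rcases Int.emod_two_eq_zero_or_one f with h | h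
      · obtain ⟨m, hm⟩ : ∃ m, f = 2 * m := ⟨f / 2, by omega⟩
        obtain ⟨k, f0, h1, h2⟩ := ih m.natAbs (by omega) m rfl (by omega)
        exact ⟨k + 1, f0, by rw [hm, h1]; ring, h2⟩
      · exact ⟨0, f, by simp, h⟩
  exact key _ f rfl hf

section field

variable {p : ℕ} [hpf : Fact p.Prime] {b c d x y : ℤ}

/-- The reduction `i ↦ c / d`. -/
def phi (c d : ℤ) (h : (p : ℤ) = c ^ 2 + d ^ 2) (hd : (d : ZMod p) ≠ 0) : R →+* ZMod p :=
  Zsqrtd.lift ⟨(c : ZMod p) / (d : ZMod p), by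
    have h1 : (c : ZMod p) ^ 2 + (d : ZMod p) ^ 2 = 0 := by
      have := congrArg (Int.cast : ℤ → ZMod p) h
      push_cast at this
      rw [← this]; simp
    have h2 : (c : ZMod p) ^ 2 = - (d : ZMod p) ^ 2 := by linear_combination h1
    push_cast
    field_simp
    linear_combination h2⟩

lemma phi_apply (h : (p : ℤ) = c ^ 2 + d ^ 2) (hd : (d : ZMod p) ≠ 0) (a : R) :
    phi c d h hd a = (a.re : ZMod p) + (a.im : ZMod p) * ((c : ZMod p) / (d : ZMod p)) := by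
  unfold phi; simp [Zsqrtd.lift]

lemma phi_gpi (h : (p : ℤ) = c ^ 2 + d ^ 2) (hd : (d : ZMod p) ≠ 0) :
    phi c d h hd (gpi c d) = 0 := by
  rw [phi_apply]; simp; field_simp; ring

lemma phi_dvd (h : (p : ℤ) = c ^ 2 + d ^ 2) (hd : (d : ZMod p) ≠ 0) {a : R}
    (ha : gpi c d ∣ a) : phi c d h hd a = 0 := by
  obtain ⟨w, rfl⟩ := ha
  rw [map_mul, phi_gpi, zero_mul]

omit hpf in
lemma oddG_gpi (hp4 : p % 4 = 1) (h : (p : ℤ) = c ^ 2 + d ^ 2) : OddG (gpi c d) := by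
  unfold OddG
  simp only
  rcases Int.emod_two_eq_zero_or_one c with h1 | h1 <;>
  rcases Int.emod_two_eq_zero_or_one d with h2 | h2
  · exfalso
    obtain ⟨m, hm⟩ : ∃ m, c = 2 * m := ⟨c / 2, by omega⟩
    obtain ⟨n, hn⟩ : ∃ n, d = 2 * n := ⟨d / 2, by omega⟩
    rw [hm, hn] at h
    have : (p : ℤ) = 2 * (2 * m ^ 2 + 2 * n ^ 2) := by rw [h]; ring
    omega
  · omega
  · omega
  · exfalso
    obtain ⟨m, hm⟩ := sq_odd h1
    obtain ⟨n, hn⟩ := sq_odd h2
    rw [hm, hn] at h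
    omega

lemma phi_pow (hp4 : p % 4 = 1) (h : (p : ℤ) = c ^ 2 + d ^ 2) (hd : (d : ZMod p) ≠ 0) {a : R}
    (ha : IsCoprime a (gpi c d)) :
    phi c d h hd a ^ ((p - 1) / 4) = phi c d h hd (ip (ql a (gpi c d))) := by
  have hgp : Prime (gpi c d) := prime_of_norm hpf.1 (N_gpi h)
  have hodd : OddG (gpi c d) := oddG_gpi hp4 h
  have hna : ¬ gpi c d ∣ a := fun h1 => hgp.not_isUnit (ha.isUnit_of_dvd' h1 dvd_rfl)
  have hs := qe_spec hgp hodd hna
  rw [N_gpi h] at hs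
  have h1 := phi_dvd h hd hs
  rw [map_sub, map_pow, sub_eq_zero] at h1
  rw [h1, ql_prime _ hgp]

lemma phi_ne_zero (h : (p : ℤ) = c ^ 2 + d ^ 2) (hd : (d : ZMod p) ≠ 0) {a : R}
    (ha : IsCoprime a (gpi c d)) : phi c d h hd a ≠ 0 := by
  obtain ⟨u, v, huv⟩ := ha
  intro h0
  have h1 := congrArg (phi c d h hd) huv
  rw [map_add, map_mul, map_mul, h0, phi_gpi, map_one] at h1
  simp at h1

/-- If `φ β = φ γ · ε` then `ε ^ ((p-1)/4) = φ (i ^ (e β - e γ))`. -/
lemma eps_pow (hp4 : p % 4 = 1) (h : (p : ℤ) = c ^ 2 + d ^ 2) (hd : (d : ZMod p) ≠ 0)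
    {β γ : R} {ε : ZMod p} (h1 : IsCoprime β (gpi c d)) (h2 : IsCoprime γ (gpi c d))
    (h3 : phi c d h hd β = phi c d h hd γ * ε) :
    ε ^ ((p - 1) / 4) = phi c d h hd (ip (ql β (gpi c d) - ql γ (gpi c d))) := by
  have e1 := phi_pow hp4 h hd h1
  have e2 := phi_pow hp4 h hd h2
  rw [h3, mul_pow, e2] at e1
  have e3 : ip (ql β (gpi c d)) = ip (ql γ (gpi c d)) * ip (ql β (gpi c d) - ql γ (gpi c d)) := by
    rw [← ip_add]; congr 1; ring
  rw [e3, map_mul] at e1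
  have hne : phi c d h hd (ip (ql γ (gpi c d))) ≠ 0 :=
    phi_ne_zero h hd (isCoprime_unit (isUnit_ip _))
  exact mul_left_cancel₀ hne e1

/-- casts of nonzero integers of small square do not vanish -/
lemma cast_ne_zero {z : ℤ} (hz : z ≠ 0) (h : z ^ 2 ≤ p) : (z : ZMod p) ≠ 0 := by
  intro h0
  rw [ZMod.intCast_zmod_eq_zero_iff_dvd] at h0
  exact not_dvd_of_sq_le hpf.1 hz h h0

/-- The case `y` even. -/
theorem powA (hp4 : p % 4 = 1) (h1 : (p : ℤ) = c ^ 2 + d ^ 2)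
    (h2 : (p : ℤ) = x ^ 2 + (b ^ 2 + 4) * y ^ 2) (hb : b % 2 = 1) (hc : c % 4 = 1)
    (hx : x % 4 = 1) (hy0 : y ≠ 0) (hd : (d : ZMod p) ≠ 0)
    (hd2 : d % 2 = 0) (hy2 : y % 2 = 0) :
    (y % 4 = 2 → d % 8 = 2 → y % 8 = 2 →
      (((b : ZMod p) + (c : ZMod p) * x / ((d : ZMod p) * y)) / 2) ^ ((p - 1) / 4) = 1) ∧
    (y % 4 = 0 → d % 4 = 0 ∧
      (((b : ZMod p) + (c : ZMod p) * x / ((d : ZMod p) * y)) / 2) ^ ((p - 1) / 4) =
      (-1) ^ ((d + y) / 4)) := by
  obtain ⟨h, r, e, f, hcx, hde, hyf, key, hho, hro, hbez⟩ :=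
    descentA hpf.1 h1 h2 hd2 hy2 (by omega)
  have hf0' : f ≠ 0 := by rintro rfl; apply hy0; rw [hyf]; ring
  have hh0 : h ≠ 0 := by rintro rfl; apply hy0; rw [hyf]; ring
  obtain ⟨k, f0, hfk, hf0⟩ := two_pow_odd hf0'
  have hysq : y ^ 2 ≤ p := by rw [h2]; nlinarith [sq_nonneg x, sq_nonneg y, sq_nonneg (b * y)]
  have hyp : (y : ZMod p) ≠ 0 := cast_ne_zero hy0 hysq
  have hpf' : ¬ (p : ℤ) ∣ f := by
    intro h3
    apply hyp
    rw [ZMod.intCast_zmod_eq_zero_iff_dvd, hyf]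
    exact (h3.mul_left h).mul_left 2
  obtain ⟨X, hX⟩ : ∃ X, r * c = 2 * X + 1 := by
    refine ⟨r * c / 2, ?_⟩
    have : (r * c) % 2 = 1 := by rw [Int.mul_emod, hro, show c % 2 = 1 by omega]; rfl
    omega
  obtain ⟨x', hx'⟩ : ∃ x', h * r = 2 * x' + 1 := by
    refine ⟨h * r / 2, ?_⟩
    have : (h * r) % 2 = 1 := by rw [Int.mul_emod, hro, hho]; rfl
    omega
  -- parity of e and f agree
  have hpar : e % 2 = f % 2 := by
    obtain ⟨α, hα⟩ := sq_odd (a := h * r) (by omega)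
    obtain ⟨δ, hδ⟩ := sq_odd hb
    rw [hα, hδ, hX] at key
    rcases Int.emod_two_eq_zero_or_one e with h3 | h3 <;>
    rcases Int.emod_two_eq_zero_or_one f with h4 | h4
    · omega
    · exfalso
      obtain ⟨m, hm⟩ : ∃ m, e = 2 * m := ⟨e / 2, by omega⟩
      obtain ⟨n, hn⟩ := sq_odd h4
      rw [hm, hn] at key
      have : (8 * δ + 1 + 4) * (8 * n + 1) = 2 * (4 * δ + 20 * n + 32 * δ * n + 2) + 1 := by ring
      rw [this] at key
      have h5 : (2 * m) ^ 2 = 2 * (2 * m ^ 2) := by ring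
      rw [h5] at key
      omega
    · exfalso
      obtain ⟨m, hm⟩ := sq_odd h3
      obtain ⟨n, hn⟩ : ∃ n, f = 2 * n := ⟨f / 2, by omega⟩
      rw [hm, hn] at key
      have : (8 * δ + 1 + 4) * (2 * n) ^ 2 = 2 * ((8 * δ + 5) * (2 * n ^ 2)) := by ring
      rw [this] at key
      omega
    · omega
  obtain ⟨y', hy'⟩ : ∃ y', -(b * f + e) = 2 * y' := by
    refine ⟨-(b * f + e) / 2, ?_⟩
    have : (b * f + e) % 2 = 0 := by
      obtain ⟨b1, hb1⟩ : ∃ b1, b = 2 * b1 + 1 := ⟨b / 2, by omega⟩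
      rw [hb1]
      have : (2 * b1 + 1) * f + e = 2 * (b1 * f) + (f + e) := by ring
      omega
    omega
  have hY : -(r * d) = 2 * (-(r * (h * e))) := by rw [hde]; ring
  obtain ⟨cβ, cγ, hsym⟩ := symA hpf.1 h1 hde key hro hbez hX hY hx' hy' hfk hf0 hpf'
  -- the relation φ β = φ γ ε
  have h2p : (2 : ZMod p) ≠ 0 := by
    intro h0
    have h3 : ((2 : ℕ) : ZMod p) = 0 := by exact_mod_cast h0
    rw [ZMod.natCast_eq_zero_iff] at h3
    have := Nat.le_of_dvd (by norm_num) h3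
    have := hpf.1.two_le
    omega
  have hhp : (h : ZMod p) ≠ 0 := by
    intro h0
    apply hyp
    rw [hyf]; push_cast; rw [h0]; ring
  have hrel : phi c d h1 hd (ii * g x' y') = phi c d h1 hd (2 * (f : R)) *
      (((b : ZMod p) + (c : ZMod p) * x / ((d : ZMod p) * y)) / 2) := by
    rw [← eq_g hx' hy', phi_apply, phi_apply]
    have hfy : (f : ZMod p) = (y : ZMod p) / (2 * h) := by
      rw [hyf]; push_cast; field_simp
    have hed : (e : ZMod p) = (d : ZMod p) / (2 * h) := by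
      rw [hde]; push_cast; field_simp
    have hhr : (h : ZMod p) * r = ((c : ZMod p) + x) / (2 * h) := by
      have : (c : ZMod p) + x = 2 * (h ^ 2 * r) := by exact_mod_cast congrArg (Int.cast : ℤ → ZMod p) hcx
      rw [this]; field_simp
    have e1 : (ii * (⟨h * r, -(b * f + e)⟩ : R)).re = b * f + e := by simp
    have e2 : (ii * (⟨h * r, -(b * f + e)⟩ : R)).im = h * r := by simp
    have e3 : (2 * (f : R)).re = 2 * f := by simp
    have e4 : (2 * (f : R)).im = 0 := by simp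
    rw [e1, e2, e3, e4]
    push_cast
    rw [hhr, hfy, hed]
    have h1' : (c : ZMod p) ^ 2 = - (d : ZMod p) ^ 2 := by
      have := congrArg (Int.cast : ℤ → ZMod p) h1
      push_cast at this
      rw [ZMod.natCast_self] at this
      linear_combination -this
    field_simp
    linear_combination ((y : ZMod p) * d) * h1'
  have hpow := eps_pow hp4 h1 hd cβ cγ hrel
  rw [hsym] at hpow
  have hdec : d = 2 * (h * e) := hde
  constructor
  · intro hy4 hd8 hy8
    rw [hpow]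
    have hfo : f % 2 = 1 := by
      rcases Int.emod_two_eq_zero_or_one f with h4 | h4
      · exfalso
        obtain ⟨n, hn⟩ : ∃ n, f = 2 * n := ⟨f / 2, by omega⟩
        rw [hn] at hyf
        have : y = 4 * (h * n) := by rw [hyf]; ring
        omega
      · exact h4
    have heo : e % 2 = 1 := by omega
    have hk0 : k = 0 := by
      rcases Nat.eq_zero_or_pos k with h4 | h4
      · exact h4
      · exfalso
        obtain ⟨j, rfl⟩ : ∃ j, k = j + 1 := ⟨k - 1, by omega⟩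
        have : f = 2 * (2 ^ j * f0) := by rw [hfk]; ring
        omega
    rw [hk0, pow_zero, one_mul] at hfk
    -- X ≡ 2 mod 4
    have hX4 : (X : ZMod 4) = 2 := by
      obtain ⟨α, hα⟩ := sq_odd (a := h * r) (by omega)
      obtain ⟨δ, hδ⟩ := sq_odd hb
      obtain ⟨m, hm⟩ := sq_odd heo
      obtain ⟨n, hn⟩ := sq_odd hfo
      rw [hα, hδ, hX, hm, hn] at key
      have e5 : X = 4 * (α - m + δ + 5 * n + 8 * δ * n) + 2 := by
        have : (8 * δ + 1 + 4) * (8 * n + 1) = 8 * δ + 40 * n + 64 * (δ * n) + 5 := by ring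
        rw [this] at key
        have e6 : 8 * δ * n = 8 * (δ * n) := by ring
        rw [e6]
        omega
      rw [e5]; push_cast
      have h4 : (4 : ZMod 4) = 0 := by decide
      rw [h4]; ring
    have hr4 : (r : ZMod 4) = 1 := by
      have h5 : ((r * c : ℤ) : ZMod 4) = ((2 * X + 1 : ℤ) : ZMod 4) := by rw [hX]
      push_cast at h5
      have h6 : (c : ZMod 4) = 1 := by
        have : (c : ZMod 4) = ((1 : ℤ) : ZMod 4) := by
          rw [ZMod.intCast_eq_intCast_iff_dvd_sub]; omega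
        simpa using this
      rw [h6, hX4] at h5
      have h7 : (2 * 2 + 1 : ZMod 4) = 1 := by decide
      rw [h7, mul_one] at h5; exact h5
    have hhe : ((h * e : ℤ) : ZMod 4) = 1 := by
      have : ((h * e : ℤ) : ZMod 4) = ((1 : ℤ) : ZMod 4) := by
        rw [ZMod.intCast_eq_intCast_iff_dvd_sub]; omega
      simpa using this
    have hhf : ((h * f : ℤ) : ZMod 4) = 1 := by
      have : ((h * f : ℤ) : ZMod 4) = ((1 : ℤ) : ZMod 4) := by
        rw [ZMod.intCast_eq_intCast_iff_dvd_sub]; omega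
      simpa using this
    have hx'4 : (h : ZMod 4) = 2 * (x' : ZMod 4) + 1 := by
      have h5 : ((h * r : ℤ) : ZMod 4) = ((2 * x' + 1 : ℤ) : ZMod 4) := by rw [hx']
      push_cast at h5
      rw [hr4, mul_one] at h5; exact h5
    push_cast at hhe hhf ⊢
    have hz : ∀ (hh ee rr XX x1 y1 ff : ZMod 4), XX = 2 → rr = 1 → hh * ee = 1 → hh * ff = 1 →
        hh = 2 * x1 + 1 →
        (XX ^ 2 + XX + (-(rr * (hh * ee))) ^ 2) +
        (2 * (x1 * (-(rr * (hh * ee))) + XX * y1 + y1 * (-(rr * (hh * ee))))) +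
        2 * (((0 : ZMod 4)) + 1) * ((2 * x1 + 1) * y1) -
        ((0 : ZMod 4) + 1) * ((2 * XX + 1) * (-(rr * (hh * ee)))) -
        (ff - 1) * (XX ^ 2 + XX + (-(rr * (hh * ee))) ^ 2) = 0 := by
      intro hh ee rr XX x1 y1 ff a1 a2 a3 a4 a5
      rw [a3]
      subst a1 a2
      clear a3
      rw [a5] at a4
      clear a5
      revert x1 y1 ff
      decide
    have := hz h e r X x' y' f hX4 hr4 hhe hhf hx'4
    rw [hk0, ← hfk]
    push_cast
    rw [this, ip_zero, map_one]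
  · intro hy4
    have hfe : f % 2 = 0 := by
      rcases Int.emod_two_eq_zero_or_one f with h4 | h4
      · exact h4
      · exfalso
        have h5 : (h * f) % 2 = 1 := by rw [Int.mul_emod, hho, h4]; rfl
        omega
    have hee : e % 2 = 0 := by omega
    obtain ⟨f1, hf1⟩ : ∃ f1, f = 2 * f1 := ⟨f / 2, by omega⟩
    obtain ⟨e1, he1⟩ : ∃ e1, e = 2 * e1 := ⟨e / 2, by omega⟩
    have hd4 : d = 4 * (h * e1) := by rw [hde, he1]; ring
    have hy4' : y = 4 * (h * f1) := by rw [hyf, hf1]; ring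
    refine ⟨by omega, ?_⟩
    rw [hpow]
    have hj : (d + y) / 4 = h * (e1 + f1) := by
      have : d + y = 4 * (h * (e1 + f1)) := by rw [hd4, hy4']; ring
      rw [this]; exact Int.mul_ediv_cancel_left _ (by norm_num)
    rw [hj]
    have h4 : (4 : ZMod 4) = 0 := by decide
    have hX4 : (X : ZMod 4) = 2 * (e1 : ZMod 4) ^ 2 + 2 * (f1 : ZMod 4) ^ 2 := by
      obtain ⟨α, hα⟩ := sq_odd (a := h * r) (by omega)
      obtain ⟨δ, hδ⟩ := sq_odd hb
      rw [hα, hδ, hX, he1, hf1] at key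
      have e5 : X = 4 * α - 2 * e1 ^ 2 + 2 * (8 * δ + 5) * f1 ^ 2 := by nlinarith
      rw [e5]; push_cast
      have h8 : (8 : ZMod 4) = 0 := by decide
      have h5 : (5 : ZMod 4) = 1 := by decide
      have h6 : ∀ z : ZMod 4, -(2 * z) = 2 * z := by decide
      rw [h4, h8, h5]
      linear_combination h6 ((e1 : ZMod 4) ^ 2)
    have hkf : ((k : ZMod 4) + 1) * (2 * (f1 : ZMod 4)) = 0 := by
      have h5 : (f : ZMod 4) = 2 * (f1 : ZMod 4) := by rw [hf1]; push_cast; ring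
      rw [← h5, hfk]
      rcases Nat.lt_or_ge k 2 with h6 | h6
      · interval_cases k
        · exfalso
          rw [pow_zero, one_mul] at hfk
          omega
        · push_cast
          linear_combination (f0 : ZMod 4) * h4
      · obtain ⟨j, rfl⟩ : ∃ j, k = j + 2 := ⟨k - 2, by omega⟩
        push_cast
        have : (2 : ZMod 4) ^ (j + 2) = 0 := by
          rw [pow_add]
          have : (2 : ZMod 4) ^ 2 = 0 := by decide
          rw [this, mul_zero]
        rw [this]; ring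
    obtain ⟨b1, hb1⟩ : ∃ b1, b = 2 * b1 + 1 := ⟨b / 2, by omega⟩
    obtain ⟨f2, hf2⟩ : ∃ f2, f0 = 2 * f2 + 1 := ⟨f0 / 2, by omega⟩
    have hy'4 : (y' : ZMod 4) = -((2 * (b1 : ZMod 4) + 1) * f1 + e1) := by
      have : y' = -(b * f1 + e1) := by
        have e5 : -(b * f + e) = 2 * (-(b * f1 + e1)) := by rw [hf1, he1]; ring
        omega
      rw [this, hb1]; push_cast; ring
    have hhr4 : (r : ZMod 4) * (h * e) = 2 * ((2 * (x' : ZMod 4) + 1) * e1) := by
      have h5 : ((h * r : ℤ) : ZMod 4) = ((2 * x' + 1 : ℤ) : ZMod 4) := by rw [hx']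
      push_cast at h5
      rw [he1]; push_cast
      linear_combination (2 * (e1 : ZMod 4)) * h5
    have hhodd : ∃ h' : ZMod 4, (h : ZMod 4) = 2 * h' + 1 := by
      refine ⟨((h / 2 : ℤ) : ZMod 4), ?_⟩
      have : h = 2 * (h / 2) + 1 := by omega
      conv_lhs => rw [this]
      push_cast; ring
    obtain ⟨h', hh'⟩ := hhodd
    have hz : ∀ (K E1 F1 x1 B1 F2 : ZMod 4), (K + 1) * (2 * F1) = 0 →
        (((2 * E1 ^ 2 + 2 * F1 ^ 2) ^ 2 + (2 * E1 ^ 2 + 2 * F1 ^ 2) + (-(2 * ((2 * x1 + 1) * E1))) ^ 2) +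
        (2 * (x1 * (-(2 * ((2 * x1 + 1) * E1))) +
          (2 * E1 ^ 2 + 2 * F1 ^ 2) * (-((2 * B1 + 1) * F1 + E1)) +
          (-((2 * B1 + 1) * F1 + E1)) * (-(2 * ((2 * x1 + 1) * E1))))) +
        2 * (K + 1) * ((2 * x1 + 1) * (-((2 * B1 + 1) * F1 + E1))) -
        (K + 1) * ((2 * (2 * E1 ^ 2 + 2 * F1 ^ 2) + 1) * (-(2 * ((2 * x1 + 1) * E1)))) -
        (2 * F2 + 1 - 1) * ((2 * E1 ^ 2 + 2 * F1 ^ 2) ^ 2 + (2 * E1 ^ 2 + 2 * F1 ^ 2) +
          (-(2 * ((2 * x1 + 1) * E1))) ^ 2)) = 2 * (E1 + F1) := by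
      decide
    have hval := hz k e1 f1 x' b1 f2 hkf
    have hE : ((X ^ 2 + X + (-(r * (h * e))) ^ 2 : ℤ) : ZMod 4) +
        ((2 * (x' * (-(r * (h * e))) + X * y' + y' * (-(r * (h * e)))) : ℤ) : ZMod 4)
        + 2 * ((k : ZMod 4) + 1) * (((2 * x' + 1) * y' : ℤ) : ZMod 4)
        - ((k : ZMod 4) + 1) * (((2 * X + 1) * (-(r * (h * e))) : ℤ) : ZMod 4)
        - ((f0 - 1 : ℤ) : ZMod 4) * ((X ^ 2 + X + (-(r * (h * e))) ^ 2 : ℤ) : ZMod 4) =
        2 * ((h * (e1 + f1) : ℤ) : ZMod 4) := by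
      rw [hf2]
      push_cast
      rw [hhr4, hX4, hy'4, hval, hh']
      have : ∀ z h' : ZMod 4, 2 * z = 2 * ((2 * h' + 1) * z) := by decide
      exact this _ _
    rw [hE]
    -- i ^ (2 j) = (-1) ^ j
    set j := h * (e1 + f1) with hjdef
    rcases Int.even_or_odd' j with ⟨m, hm | hm⟩
    · rw [hm]
      have e5 : (2 : ZMod 4) * ((2 * m : ℤ) : ZMod 4) = 0 := by
        push_cast
        have : (2 : ZMod 4) * (2 * (m : ZMod 4)) = 4 * m := by ring
        rw [this, h4, zero_mul]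
      rw [e5, ip_zero, map_one, zpow_mul]
      simp
    · rw [hm]
      have e5 : (2 : ZMod 4) * ((2 * m + 1 : ℤ) : ZMod 4) = 2 := by
        push_cast
        have : (2 : ZMod 4) * (2 * (m : ZMod 4) + 1) = 4 * m + 2 := by ring
        rw [this, h4]; ring
      have e6 : ip 2 = -1 := by decide
      rw [e5, e6, map_neg, map_one, zpow_add₀ (by norm_num), zpow_mul]
      simp

end field

end Pool.Agent.helper84.Quartic
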